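import Pool.Agent.TH707.DP.Hard

/-!
# Pointer chasing with short addresses
-/

set_option autoImplicit false

namespace Pool.Agent.TH707.DP

open Pool.Agent.NPC Pool.Agent.H620R2.Gauge Pool.Agent.H622R2.Ckt Finset

/-- the gate number `r`; the addresses have `l` bits -/
def hG2 (n l r : ℕ) : Gate := .ask (inW n ++ vW l (r / l) ++ (bitsL n r).map Wire.cst)

/-- the hard circuit with `t` levels and addresses of `l` bits -/
def hard2 (n l t : ℕ) : Circuit := ⟨(List.range (t * l + 1)).map (hG2 n l), .gate (t * l)⟩

/-- the addresses -/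
def walk2 (A : Oracle) (u : List Bool) (n l : ℕ) : ℕ → List Bool
  | 0 => List.replicate l false
  | j + 1 => (List.range l).map fun i => A (u ++ walk2 A u n l j ++ bitsL n (j * l + i))

theorem length_walk2 (A : Oracle) (u : List Bool) (n l j : ℕ) : (walk2 A u n l j).length = l := by
  cases j with
  | zero => simp [walk2]
  | succ j => simp [walk2]

theorem length_vW (l j : ℕ) : (vW l j).length = l := by
  cases j with
  | zero => simp [vW]
  | succ j => simp [vW]

theorem gateVals_hard2 (A : Oracle) {u : List Bool} {n l : ℕ} (hu : u.length = n) (hl : 1 ≤ l)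
    (R : ℕ) : gateVals A u ((List.range R).map (hG2 n l)) =
      (List.range R).map fun r => A (u ++ walk2 A u n l (r / l) ++ bitsL n r) := by
  induction R with
  | zero => rfl
  | succ R ih =>
    rw [List.range_succ, List.map_append, List.map_append, List.map_cons, List.map_nil,
      List.map_cons, List.map_nil, gateVals_snoc, ih]
    congr 1
    simp only [hG2, Gate.val, List.cons.injEq, and_true]
    congr 1
    rw [List.map_append, List.map_append, map_inW hu, List.map_map]
    congr 1
    · congr 1
      -- the address wires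
      rcases Nat.eq_zero_or_pos (R / l) with h | h
      · rw [h]
        simp [vW, walk2, Wire.val]
      · obtain ⟨j, hj⟩ : ∃ j, R / l = j + 1 := ⟨R / l - 1, by omega⟩
        rw [hj]
        simp only [vW, walk2, List.map_map]
        refine List.map_congr_left fun i hi => ?_
        rw [List.mem_range] at hi
        simp only [Function.comp_apply, Wire.val]
        have h1 : j * l + i < R := by
          have h2 : (j + 1) * l ≤ R := by
            rw [← hj]
            exact Nat.div_mul_le_self R l
          have h3 : (j + 1) * l = j * l + l := by ring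
          omega
        rw [List.getD_eq_getElem _ _ (by rw [List.length_map, List.length_range]; exact h1),
          List.getElem_map, List.getElem_range]
        have h2 : (j * l + i) / l = j := by
          rw [Nat.add_comm, Nat.add_mul_div_right _ _ (by omega), Nat.div_eq_of_lt hi, zero_add]
        rw [h2]
    · refine Eq.trans (List.map_congr_left fun b _ => ?_) (List.map_id _)
      rfl

theorem hard2_eval (A : Oracle) {u : List Bool} {n l : ℕ} (hu : u.length = n) (hl : 1 ≤ l)
    (t : ℕ) : (hard2 n l t).eval A u = A (u ++ walk2 A u n l t ++ bitsL n (t * l)) := by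
  unfold Circuit.eval hard2
  simp only [Wire.val]
  rw [gateVals_hard2 A hu hl, List.getD_eq_getElem _ _ (by
    rw [List.length_map, List.length_range]
    omega), List.getElem_map, List.getElem_range, Nat.mul_div_cancel _ (by omega)]

theorem hard2_size (n l t : ℕ) : (hard2 n l t).size = (t * l + 1) * (n + l + n + 1) := by
  unfold Circuit.size hard2
  simp only
  rw [List.map_map]
  have h : ∀ r ∈ List.range (t * l + 1), (Gate.size ∘ hG2 n l) r = n + l + n + 1 := by
    intro r _
    simp only [Function.comp_apply, hG2, Gate.size, List.length_append, List.length_map,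
      length_bitsL, length_vW]
    have h1 : (inW n).length = n := by simp [inW]
    omega
  rw [List.map_congr_left h]
  simp

/-! ### the pointers -/

/-- the question of the bit with number `r` at the address `v` -/
def qst2 (u : List Bool) (n : ℕ) {l : ℕ} (v : Fin l → Bool) (r : ℕ) : List Bool :=
  u ++ List.ofFn v ++ bitsL n r

theorem length_qst2 {u : List Bool} {n l : ℕ} (hu : u.length = n) (v : Fin l → Bool) (r : ℕ) :
    (qst2 u n v r).length = n + l + n := by
  unfold qst2
  rw [List.length_append, List.length_append, List.length_ofFn, length_bitsL, hu]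

theorem qst2_inj {u : List Bool} {n l : ℕ} {v v' : Fin l → Bool} {r r' : ℕ} (hr : r < 2 ^ n)
    (hr' : r' < 2 ^ n) (h : qst2 u n v r = qst2 u n v' r') : v = v' ∧ r = r' := by
  unfold qst2 at h
  obtain ⟨h1, h2⟩ := List.append_inj' h (by rw [length_bitsL, length_bitsL])
  exact ⟨List.ofFn_injective (List.append_cancel_left h1), bitsL_inj hr hr' h2⟩

theorem idx_qst2 {u : List Bool} {n l N : ℕ} (hu : u.length = n) (hN : 2 ^ (n + l + n + 1) ≤ N)
    (v : Fin l → Bool) (r : ℕ) : idx (qst2 u n v r) < N := by
  have h1 := idx_lt (qst2 u n v r)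
  rw [length_qst2 hu] at h1
  omega

/-- the system of pointers for the input `u` -/
def ptr2 {u : List Bool} {n l t N : ℕ} (hu : u.length = n) (hN : 2 ^ (n + l + n + 1) ≤ N)
    (ht : t * l < 2 ^ n) : Ptr (Fin N) l t where
  pos j v i := ⟨idx (qst2 u n v (j * l + i)), idx_qst2 hu hN _ _⟩
  last v := ⟨idx (qst2 u n v (t * l)), idx_qst2 hu hN _ _⟩
  v0 := fun _ => false
  inj := by
    intro j hj j' hj' v v' i i' h
    have h1 := congrArg str (Fin.mk.inj h)
    rw [str_idx, str_idx] at h1
    have hlt : ∀ k < t, ∀ i : Fin l, k * l + i < 2 ^ n := by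
      intro k hk i
      have h2 : (k + 1) * l ≤ t * l := Nat.mul_le_mul_right _ hk
      have h3 : (k + 1) * l = k * l + l := by ring
      have := i.isLt
      omega
    obtain ⟨h2, h3⟩ := qst2_inj (hlt j hj i) (hlt j' hj' i') h1
    have hl : 0 < l := lt_of_le_of_lt (Nat.zero_le _) i.isLt
    have h4 : j = j' := by
      have h5 : ∀ (k : ℕ) (i : Fin l), (k * l + i) / l = k := by
        intro k i
        rw [Nat.add_comm, Nat.add_mul_div_right _ _ hl, Nat.div_eq_of_lt i.isLt, zero_add]
      rw [← h5 j i, ← h5 j' i', h3]
    subst h4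
    exact ⟨rfl, h2, Fin.ext (by omega)⟩
  ne := by
    intro j hj v v' i h
    have h1 := congrArg str (Fin.mk.inj h)
    rw [str_idx, str_idx] at h1
    have h2 : (j + 1) * l ≤ t * l := Nat.mul_le_mul_right _ hj
    have h3 : (j + 1) * l = j * l + l := by ring
    have := i.isLt
    have h4 := (qst2_inj (by omega) ht h1).2
    omega
  last_inj := by
    intro v v' h
    have h1 := congrArg str (Fin.mk.inj h)
    rw [str_idx, str_idx] at h1
    exact (qst2_inj ht ht h1).1

variable {u : List Bool} {n l t N : ℕ} (hu : u.length = n) (hN : 2 ^ (n + l + n + 1) ≤ N)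
  (ht : t * l < 2 ^ n)

include hu hN in
theorem orc_qst2 (a : Fin N → Bool) (v : Fin l → Bool) (r : ℕ) :
    orc N a (qst2 u n v r) = a ⟨idx (qst2 u n v r), idx_qst2 hu hN v r⟩ := by
  unfold orc
  rw [dif_pos (idx_qst2 hu hN v r)]

theorem ofFn_v2 (a : Fin N → Bool) (j : ℕ) :
    List.ofFn ((ptr2 hu hN ht).v j a) = walk2 (orc N a) u n l j := by
  induction j with
  | zero =>
    show List.ofFn (fun _ : Fin l => false) = List.replicate l false
    rw [List.ofFn_const]
  | succ j ih =>
    show List.ofFn (fun i : Fin l => a ⟨idx (qst2 u n ((ptr2 hu hN ht).v j a) (j * l + i)), _⟩) =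
      (List.range l).map fun i => orc N a (u ++ walk2 (orc N a) u n l j ++ bitsL n (j * l + i))
    rw [← ih]
    have h1 : ∀ i : Fin l, a ⟨idx (qst2 u n ((ptr2 hu hN ht).v j a) (j * l + i)),
        idx_qst2 hu hN _ _⟩ = orc N a (qst2 u n ((ptr2 hu hN ht).v j a) (j * l + i)) :=
      fun i => (orc_qst2 hu hN a _ _).symm
    rw [show (fun i : Fin l => a ⟨idx (qst2 u n ((ptr2 hu hN ht).v j a) (j * l + i)),
        idx_qst2 hu hN _ _⟩) =
        fun i : Fin l => orc N a (qst2 u n ((ptr2 hu hN ht).v j a) (j * l + i))
      from funext h1]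
    apply List.ext_getElem
    · rw [List.length_ofFn, List.length_map, List.length_range]
    · intro i h2 h3
      rw [List.getElem_ofFn, List.getElem_map, List.getElem_range]
      rfl

theorem fin_eq2 (hl : 1 ≤ l) (a : Fin N → Bool) :
    (ptr2 hu hN ht).fin a = (hard2 n l t).eval (orc N a) u := by
  rw [hard2_eval _ hu hl]
  rw [← ofFn_v2 hu hN ht]
  exact (orc_qst2 hu hN a _ _).symm

end Pool.Agent.TH707.DP
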