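import Pool.Agent.TH707.DP.Layer
import Pool.Agent.TH707.DP.Hard2

/-!
# Pointer chasing with short addresses by narrow layered circuits; the depth of the hard circuits
-/

set_option autoImplicit false

namespace Pool.Agent.TH707.DP

open Pool.Agent.NPC Pool.Agent.H620R2.Gauge Pool.Agent.H622R2.Ckt

/-- the input wires -/
def inL (n : ℕ) : List LWire := (List.range n).map LWire.inp

/-- the wires of the address on the level `j` -/
def pvL (l : ℕ) : ℕ → List LWire
  | 0 => List.replicate l (LWire.cst false)
  | _ + 1 => (List.range l).map LWire.prev

/-- a question on the level `j` -/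
def askL (n l j r : ℕ) : LGate := .ask (inL n ++ pvL l j ++ (bitsL n r).map LWire.cst)

/-- the layer number `j` -/
def layH (n l j : ℕ) : List LGate := (List.range l).map fun i => askL n l j (j * l + i)

/-- the layered circuit for pointer chasing -/
def hardLC (n l t : ℕ) : LCircuit :=
  ⟨(List.range t).map (layH n l) ++ [[askL n l t (t * l)]], .prev 0⟩

theorem map_inL {u : List Bool} {n : ℕ} (hu : u.length = n) (v : List Bool) :
    (inL n).map (LWire.val u v) = u := by
  subst hu
  unfold inL
  rw [List.map_map]
  refine Eq.trans ?_ (CIR.map_getD u)
  rfl

theorem map_cstL (u v b : List Bool) : (b.map LWire.cst).map (LWire.val u v) = b := by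
  rw [List.map_map]
  refine Eq.trans (List.map_congr_left fun b _ => ?_) (List.map_id _)
  rfl

theorem pvL_val (A : Oracle) {u : List Bool} {n : ℕ} (hu : u.length = n) (l j : ℕ) :
    (pvL l j).map (LWire.val u (layerVals A u ((List.range j).map (layH n l)))) =
      walk2 A u n l j := by
  induction j with
  | zero =>
    simp only [pvL, List.map_replicate, walk2]
    rfl
  | succ j ih =>
    rw [List.range_succ, List.map_append, List.map_cons, List.map_nil, layerVals_snoc]
    have h1 : (layH n l j).map (LGate.val A u (layerVals A u ((List.range j).map (layH n l)))) =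
        walk2 A u n l (j + 1) := by
      generalize layerVals A u ((List.range j).map (layH n l)) = v at ih
      unfold layH
      rw [List.map_map]
      simp only [walk2]
      refine List.map_congr_left fun i _ => ?_
      simp only [Function.comp_apply, askL, LGate.val]
      rw [List.map_append, List.map_append, map_inL hu, map_cstL, ih]
    rw [h1]
    have h2 := CIR.map_getD (walk2 A u n l (j + 1))
    rw [length_walk2] at h2
    refine Eq.trans ?_ h2
    simp only [pvL, List.map_map]
    rfl

theorem hardLC_eval (A : Oracle) {u : List Bool} {n l : ℕ} (hu : u.length = n) (hl : 1 ≤ l)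
    (t : ℕ) : (hardLC n l t).eval A u = (hard2 n l t).eval A u := by
  rw [hard2_eval A hu hl]
  unfold hardLC LCircuit.eval
  simp only [LWire.val]
  rw [layerVals_snoc]
  simp only [List.map_cons, List.map_nil, List.getD_cons_zero, askL, LGate.val]
  rw [List.map_append, List.map_append, map_inL hu, map_cstL, pvL_val A hu]

theorem length_pvL (l j : ℕ) : (pvL l j).length = l := by
  cases j with
  | zero => simp [pvL]
  | succ j => simp [pvL]

theorem askL_size (n l j r : ℕ) : (askL n l j r).size = n + l + n + 1 := by
  simp only [askL, LGate.size, List.length_append, List.length_map, length_bitsL, length_pvL, inL,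
    List.length_range]

theorem hardLC_size (n l t : ℕ) : (hardLC n l t).size = (t * l + 1) * (n + l + n + 1) := by
  unfold hardLC LCircuit.size
  simp only [List.map_append, List.sum_append, List.map_map, List.map_cons, List.map_nil,
    List.sum_cons, List.sum_nil, Nat.add_zero, askL_size]
  have h : ∀ j ∈ List.range t, ((fun layer : List LGate => (layer.map LGate.size).sum) ∘
      layH n l) j = l * (n + l + n + 1) := by
    intro j _
    simp only [Function.comp_apply, layH, List.map_map]
    have h1 : ∀ i ∈ List.range l, (LGate.size ∘ fun i => askL n l j (j * l + i)) i =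
        n + l + n + 1 := fun i _ => askL_size _ _ _ _
    rw [List.map_congr_left h1]
    simp
  rw [List.map_congr_left h]
  simp only [List.map_const', List.length_range, List.sum_replicate, smul_eq_mul]
  ring

theorem hardLC_width {n l t w : ℕ} (h1 : 1 ≤ w) (hl : l ≤ w) : (hardLC n l t).WidthLE w := by
  intro layer hlayer
  unfold hardLC at hlayer
  simp only [List.mem_append, List.mem_map, List.mem_singleton] at hlayer
  rcases hlayer with ⟨j, -, rfl⟩ | rfl
  · simpa [layH] using hl
  · simpa using h1

/-! ### the depth of the hard circuits -/

theorem foldr_max_le {l : List ℕ} {b : ℕ} (h : ∀ a ∈ l, a ≤ b) : l.foldr max 0 ≤ b := by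
  induction l with
  | nil => exact Nat.zero_le _
  | cons a l ih =>
    rw [List.foldr_cons]
    exact max_le (h a (by simp)) (ih fun c hc => h c (List.mem_cons_of_mem _ hc))

theorem depths_hard2 {n l : ℕ} (hl : 1 ≤ l) (R : ℕ) :
    ∀ r, (depths ((List.range R).map (hG2 n l))).getD r 0 ≤
      (r / l + 1) * (Nat.log 2 (n + l + n) + 1) := by
  induction R with
  | zero =>
    intro r
    simp [depths]
  | succ R ih =>
    intro r
    rw [List.range_succ, List.map_append, List.map_cons, List.map_nil, depths_snoc]
    set d := depths ((List.range R).map (hG2 n l)) with hd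
    have hlen : d.length = R := by
      rw [hd, length_depths, List.length_map, List.length_range]
    rcases lt_trichotomy r R with hr | hr | hr
    · rw [List.getD_append _ _ _ _ (by omega)]
      exact ih r
    · subst hr
      rw [List.getD_append_right _ _ _ _ (by omega), hlen, Nat.sub_self, List.getD_cons_zero]
      have hlen2 : (inW n ++ vW l (r / l) ++ (bitsL n r).map Wire.cst).length = n + l + n := by
        simp only [List.length_append, List.length_map, length_bitsL, length_vW, inW,
          List.length_range]
      simp only [hG2, gateDepth, hlen2]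
      have h1 : ((inW n ++ vW l (r / l) ++ (bitsL n r).map Wire.cst).map
          (wireDepth d)).foldr max 0 ≤ (r / l) * (Nat.log 2 (n + l + n) + 1) := by
        refine foldr_max_le fun a ha => ?_
        rw [List.mem_map] at ha
        obtain ⟨w, hw, rfl⟩ := ha
        simp only [List.mem_append, inW, List.mem_map] at hw
        rcases hw with (⟨i, -, rfl⟩ | hw) | ⟨b, -, rfl⟩
        · exact Nat.zero_le _
        · rcases Nat.eq_zero_or_pos (r / l) with h0 | h0
          · rw [h0] at hw
            simp only [vW, List.mem_replicate] at hw
            rw [hw.2]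
            exact Nat.zero_le _
          · obtain ⟨j, hj⟩ : ∃ j, r / l = j + 1 := ⟨r / l - 1, by omega⟩
            rw [hj] at hw ⊢
            simp only [vW, List.mem_map, List.mem_range] at hw
            obtain ⟨i, hi, rfl⟩ := hw
            simp only [wireDepth]
            refine (ih _).trans (le_of_eq ?_)
            rw [Nat.add_comm (j * l) i, Nat.add_mul_div_right _ _ (by omega),
              Nat.div_eq_of_lt hi, zero_add]
        · exact Nat.zero_le _
      calc _ ≤ (r / l) * (Nat.log 2 (n + l + n) + 1) + (Nat.log 2 (n + l + n) + 1) :=
            Nat.add_le_add_right h1 _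
        _ = (r / l + 1) * (Nat.log 2 (n + l + n) + 1) := by ring
    · rw [List.getD_eq_default _ _ (by
        rw [List.length_append, hlen]
        simp only [List.length_cons, List.length_nil]
        omega)]
      exact Nat.zero_le _

theorem hard2_depth {n l : ℕ} (hl : 1 ≤ l) (t : ℕ) :
    depth (hard2 n l t) ≤ (t + 1) * (Nat.log 2 (n + l + n) + 1) := by
  unfold depth hard2
  simp only [wireDepth]
  refine (depths_hard2 hl _ _).trans (le_of_eq ?_)
  rw [Nat.mul_div_cancel _ (by omega)]

end Pool.Agent.TH707.DP
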