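import Pool.Agent.TH707.DP.Rnd

/-!
# Shallow circuits are equivalent to small shallow circuits
-/

set_option autoImplicit false

namespace Pool.Agent.TH707.DP

open Pool.Agent.NPC Pool.Agent.H620R2.Gauge Pool.Agent.H622R2.Ckt

/-- shifted wires -/
def shW (k : ℕ) : Wire → Wire
  | .inp i => .inp i
  | .cst b => .cst b
  | .gate j => .gate (k + j)

/-- shifted gates -/
def shG (k : ℕ) : Gate → Gate
  | .and r s => .and (shW k r) (shW k s)
  | .or r s => .or (shW k r) (shW k s)
  | .not r => .not (shW k r)
  | .ask l => .ask (l.map (shW k))

theorem shW_val (x v0 v : List Bool) (r : Wire) :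
    (shW v0.length r).val x (v0 ++ v) = r.val x v := by
  cases r with
  | inp i => rfl
  | cst b => rfl
  | gate j =>
    simp only [shW, Wire.val]
    rw [List.getD_append_right _ _ _ _ (Nat.le_add_right _ _), Nat.add_sub_cancel_left]

theorem shW_depth (d0 d : List ℕ) (r : Wire) :
    wireDepth (d0 ++ d) (shW d0.length r) = wireDepth d r := by
  cases r with
  | inp i => rfl
  | cst b => rfl
  | gate j =>
    simp only [shW, wireDepth]
    rw [List.getD_append_right _ _ _ _ (Nat.le_add_right _ _), Nat.add_sub_cancel_left]

theorem shG_val (A : Oracle) (x v0 v : List Bool) (g : Gate) :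
    (shG v0.length g).val A x (v0 ++ v) = g.val A x v := by
  cases g with
  | and r s => simp only [shG, Gate.val, shW_val]
  | or r s => simp only [shG, Gate.val, shW_val]
  | not r => simp only [shG, Gate.val, shW_val]
  | ask l =>
    simp only [shG, Gate.val, List.map_map]
    congr 1
    exact List.map_congr_left fun r _ => shW_val x v0 v r

theorem shG_depth (d0 d : List ℕ) (g : Gate) :
    gateDepth (d0 ++ d) (shG d0.length g) = gateDepth d g := by
  cases g with
  | and r s => simp only [shG, gateDepth, shW_depth]
  | or r s => simp only [shG, gateDepth, shW_depth]
  | not r => simp only [shG, gateDepth, shW_depth]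
  | ask l =>
    simp only [shG, gateDepth, List.map_map, List.length_map]
    congr 2
    exact List.map_congr_left fun r _ => shW_depth d0 d r

theorem shG_size (k : ℕ) (g : Gate) : (shG k g).size = g.size := by
  cases g <;> simp [shG, Gate.size]

theorem vals_append (A : Oracle) (x : List Bool) (g0 gs : List Gate) :
    gateVals A x (g0 ++ gs.map (shG g0.length)) = gateVals A x g0 ++ gateVals A x gs := by
  induction gs using List.reverseRecOn with
  | nil => simp [gateVals]
  | append_singleton gs g ih =>
    rw [List.map_append, List.map_cons, List.map_nil, ← List.append_assoc, gateVals_snoc, ih,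
      gateVals_snoc, ← List.append_assoc]
    congr 2
    have h := shG_val A x (gateVals A x g0) (gateVals A x gs) g
    rw [length_vals] at h
    exact h

theorem depths_append (g0 gs : List Gate) :
    depths (g0 ++ gs.map (shG g0.length)) = depths g0 ++ depths gs := by
  induction gs using List.reverseRecOn with
  | nil => simp [depths]
  | append_singleton gs g ih =>
    rw [List.map_append, List.map_cons, List.map_nil, ← List.append_assoc, depths_snoc, ih,
      depths_snoc, ← List.append_assoc]
    congr 2
    have h := shG_depth (depths g0) (depths gs) g
    rw [length_depths] at h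
    exact h

/-- the wire does not lead to a gate that does not exist -/
def okW (k : ℕ) : Wire → Prop
  | .gate j => j < k
  | _ => True

theorem okW_val {x v v' : List Bool} {r : Wire} (h : okW v.length r) :
    r.val x (v ++ v') = r.val x v := by
  cases r with
  | inp i => rfl
  | cst b => rfl
  | gate j =>
    simp only [Wire.val]
    exact List.getD_append _ _ _ _ h

theorem okW_depth {d d' : List ℕ} {r : Wire} (h : okW d.length r) :
    wireDepth (d ++ d') r = wireDepth d r := by
  cases r with
  | inp i => rfl
  | cst b => rfl
  | gate j =>
    simp only [wireDepth]
    exact List.getD_append _ _ _ _ h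

theorem okW_mono {k k' : ℕ} (hk : k ≤ k') {r : Wire} (h : okW k r) : okW k' r := by
  cases r with
  | inp i => trivial
  | cst b => trivial
  | gate j => exact lt_of_lt_of_le h hk

theorem okW_shift {k k' : ℕ} {r : Wire} (h : okW k r) : okW (k' + k) (shW k' r) := by
  cases r with
  | inp i => trivial
  | cst b => trivial
  | gate j => exact Nat.add_lt_add_left h k'

/-- all circuits in the list, one after the other: the gates and the output wires -/
def cat : List Circuit → List Gate × List Wire
  | [] => ([], [])
  | C :: Cs => ((cat Cs).1 ++ C.gates.map (shG (cat Cs).1.length),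
      shW (cat Cs).1.length C.out :: (cat Cs).2)

theorem cat_spec (Cs : List Circuit) (hok : ∀ C ∈ Cs, okW C.gates.length C.out) :
    (∀ r ∈ (cat Cs).2, okW (cat Cs).1.length r) ∧
    (∀ (A : Oracle) (x : List Bool),
      (cat Cs).2.map (Wire.val x (gateVals A x (cat Cs).1)) = Cs.map (fun C => C.eval A x)) ∧
    (cat Cs).2.map (wireDepth (depths (cat Cs).1)) = Cs.map depth ∧
    ((cat Cs).1.map Gate.size).sum = (Cs.map Circuit.size).sum := by
  induction Cs with
  | nil => simp [cat]
  | cons C Cs ih =>
    obtain ⟨h1, h2, h3, h4⟩ := ih fun C' hC' => hok C' (List.mem_cons_of_mem _ hC')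
    have hC := hok C (by simp)
    refine ⟨?_, ?_, ?_, ?_⟩
    · intro r hr
      simp only [cat, List.mem_cons] at hr
      simp only [cat, List.length_append, List.length_map]
      rcases hr with rfl | hr
      · exact okW_shift hC
      · exact okW_mono (Nat.le_add_right _ _) (h1 r hr)
    · intro A x
      simp only [cat, List.map_cons]
      rw [vals_append]
      congr 1
      · have h := shW_val x (gateVals A x (cat Cs).1) (gateVals A x C.gates) C.out
        rw [length_vals] at h
        exact h
      · rw [← h2 A x]
        refine List.map_congr_left fun r hr => okW_val ?_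
        rw [length_vals]
        exact h1 r hr
    · simp only [cat, List.map_cons]
      rw [depths_append]
      congr 1
      · have h := shW_depth (depths (cat Cs).1) (depths C.gates) C.out
        rw [length_depths] at h
        exact h
      · rw [← h3]
        refine List.map_congr_left fun r hr => okW_depth ?_
        rw [length_depths]
        exact h1 r hr
    · simp only [cat, List.map_append, List.map_map, List.sum_append, List.map_cons,
        List.sum_cons]
      rw [h4, Nat.add_comm]
      congr 1
      unfold Circuit.size
      congr 1
      exact List.map_congr_left fun g _ => shG_size _ g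

/-- one more gate at the end -/
def top (Cs : List Circuit) (g : Gate) : Circuit :=
  ⟨(cat Cs).1 ++ [g], .gate (cat Cs).1.length⟩

theorem top_ok (Cs : List Circuit) (g : Gate) : okW (top Cs g).gates.length (top Cs g).out := by
  unfold top okW
  simp

theorem top_eval (Cs : List Circuit) (g : Gate) (A : Oracle) (x : List Bool) :
    (top Cs g).eval A x = g.val A x (gateVals A x (cat Cs).1) := by
  unfold top Circuit.eval
  simp only [Wire.val]
  rw [gateVals_snoc, List.getD_append_right _ _ _ _ (by rw [length_vals]), length_vals]
  simp

theorem top_depth (Cs : List Circuit) (g : Gate) :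
    depth (top Cs g) = gateDepth (depths (cat Cs).1) g := by
  unfold top depth
  simp only [wireDepth]
  rw [depths_snoc, List.getD_append_right _ _ _ _ (by rw [length_depths]), length_depths]
  simp

theorem top_size (Cs : List Circuit) (g : Gate) :
    (top Cs g).size = ((cat Cs).1.map Gate.size).sum + g.size := by
  unfold top Circuit.size
  simp

theorem foldr_max_congr_le {α : Type} {l : List α} {f g : α → ℕ} (h : ∀ a ∈ l, f a ≤ g a) :
    (l.map f).foldr max 0 ≤ (l.map g).foldr max 0 := by
  induction l with
  | nil => exact le_rfl
  | cons a l ih =>
    simp only [List.map_cons, List.foldr_cons]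
    exact max_le_max (h a (by simp)) (ih fun b hb => h b (List.mem_cons_of_mem _ hb))

theorem sum_le_mul {α : Type} {l : List α} {f : α → ℕ} {m : ℕ} (h : ∀ a ∈ l, f a ≤ m) :
    (l.map f).sum ≤ l.length * m := by
  induction l with
  | nil => simp
  | cons a l ih =>
    simp only [List.map_cons, List.sum_cons, List.length_cons]
    have h1 := h a (by simp)
    have h2 := ih fun b hb => h b (List.mem_cons_of_mem _ hb)
    have h3 : (l.length + 1) * m = l.length * m + m := by ring
    omega

/-- the value of the wire is computed by a small circuit -/
theorem unfold_wire (k : ℕ) : ∀ (gs : List Gate) (r : Wire), wireDepth (depths gs) r ≤ k →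
    ∃ C : Circuit, okW C.gates.length C.out ∧ depth C ≤ wireDepth (depths gs) r ∧
      C.size ≤ 2 * 4 ^ k ∧
      ∀ (A : Oracle) (x : List Bool), C.eval A x = r.val x (gateVals A x gs) := by
  induction k using Nat.strong_induction_on with
  | _ k ih =>
  intro gs r hr
  -- wires without a gate
  have triv : ∀ b : Bool, ∃ C : Circuit, okW C.gates.length C.out ∧ depth C ≤ 0 ∧
      C.size ≤ 2 * 4 ^ k ∧ ∀ (A : Oracle) (x : List Bool), C.eval A x = b := fun b =>
    ⟨⟨[], .cst b⟩, trivial, le_rfl, Nat.zero_le _, fun A x => rfl⟩
  cases r with
  | inp i => exact ⟨⟨[], .inp i⟩, trivial, le_rfl, Nat.zero_le _, fun A x => rfl⟩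
  | cst b => exact triv b |>.imp fun C h => h
  | gate j =>
    by_cases hj : j < gs.length
    · -- the gate
      obtain ⟨g, hg⟩ : ∃ g, gs[j] = g := ⟨_, rfl⟩
      have hsplit : gs = gs.take j ++ [g] ++ gs.drop (j + 1) := by
        rw [← hg, List.take_append_getElem, List.take_append_drop]
      have hval : ∀ (A : Oracle) (x : List Bool), (Wire.gate j).val x (gateVals A x gs) =
          g.val A x (gateVals A x (gs.take j)) := by
        intro A x
        simp only [Wire.val]
        have hpre : ∀ g1 g2 : List Gate, ∃ v, gateVals A x (g1 ++ g2) = gateVals A x g1 ++ v := by
          intro g1 g2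
          induction g2 using List.reverseRecOn with
          | nil => exact ⟨[], by simp⟩
          | append_singleton g2 g' ih' =>
            obtain ⟨v, hv⟩ := ih'
            exact ⟨v ++ [g'.val A x (gateVals A x g1 ++ v)], by
              rw [← List.append_assoc, gateVals_snoc, hv, List.append_assoc]⟩
        obtain ⟨v, hv⟩ := hpre (gs.take j ++ [g]) (gs.drop (j + 1))
        rw [← hsplit] at hv
        rw [hv, gateVals_snoc]
        have hlen : (gateVals A x (gs.take j)).length = j := by
          rw [length_vals, List.length_take]
          omega
        rw [List.getD_append _ _ _ _ (by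
            rw [List.length_append, hlen]
            simp), List.getD_append_right _ _ _ _ (by rw [hlen]), hlen]
        simp
      have hdep : wireDepth (depths gs) (Wire.gate j) = gateDepth (depths (gs.take j)) g := by
        simp only [wireDepth]
        have hpre : ∀ g1 g2 : List Gate, ∃ v, depths (g1 ++ g2) = depths g1 ++ v := by
          intro g1 g2
          induction g2 using List.reverseRecOn with
          | nil => exact ⟨[], by simp⟩
          | append_singleton g2 g' ih' =>
            obtain ⟨v, hv⟩ := ih'
            exact ⟨v ++ [gateDepth (depths g1 ++ v) g'], by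
              rw [← List.append_assoc, depths_snoc, hv, List.append_assoc]⟩
        obtain ⟨v, hv⟩ := hpre (gs.take j ++ [g]) (gs.drop (j + 1))
        rw [← hsplit] at hv
        rw [hv, depths_snoc]
        have hlen : (depths (gs.take j)).length = j := by
          rw [length_depths, List.length_take]
          omega
        rw [List.getD_append _ _ _ _ (by
            rw [List.length_append, hlen]
            simp), List.getD_append_right _ _ _ _ (by rw [hlen]), hlen]
        simp
      rw [hdep] at hr ⊢
      simp only [hval]
      set gp := gs.take j with hgp
      -- a list of wires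
      have wires : ∀ (l : List Wire) (k' : ℕ), k' < k → (∀ r ∈ l, wireDepth (depths gp) r ≤ k') →
          ∃ Cs : List Circuit, Cs.length = l.length ∧
            (∀ C ∈ Cs, okW C.gates.length C.out) ∧ (Cs.map Circuit.size).sum ≤ l.length * (2 * 4 ^ k') ∧
            (∀ i (h : i < Cs.length) (h' : i < l.length), depth Cs[i] ≤ wireDepth (depths gp) l[i]) ∧
            ∀ (A : Oracle) (x : List Bool),
              Cs.map (fun C => C.eval A x) = l.map (Wire.val x (gateVals A x gp)) := by
        intro l k' hk'
        induction l with
        | nil =>
          intro _
          exact ⟨[], rfl, by simp, by simp, fun i h => absurd h (by simp), fun A x => rfl⟩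
        | cons r l ihl =>
          intro hl
          obtain ⟨Cs, c1, c2, c3, c4, c5⟩ := ihl fun r' hr' => hl r' (List.mem_cons_of_mem _ hr')
          obtain ⟨C, d1, d2, d3, d4⟩ := ih k' hk' gp r (hl r (by simp))
          refine ⟨C :: Cs, by simp [c1], ?_, ?_, ?_, ?_⟩
          · intro C' hC'
            rcases List.mem_cons.1 hC' with rfl | hC'
            · exact d1
            · exact c2 C' hC'
          · simp only [List.map_cons, List.sum_cons, List.length_cons]
            have : (l.length + 1) * (2 * 4 ^ k') = l.length * (2 * 4 ^ k') + 2 * 4 ^ k' := by ring
            omega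
          · intro i h h'
            cases i with
            | zero => exact d2
            | succ i => exact c4 i (by simpa using h) (by simpa using h')
          · intro A x
            simp only [List.map_cons]
            rw [c5, d4]
      have maxle : ∀ (l : List Wire) (Cs : List Circuit), Cs.length = l.length →
          (∀ i (h : i < Cs.length) (h' : i < l.length),
            depth Cs[i] ≤ wireDepth (depths gp) l[i]) →
          (Cs.map depth).foldr max 0 ≤ (l.map (wireDepth (depths gp))).foldr max 0 := by
        intro l
        induction l with
        | nil =>
          intro Cs h _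
          rw [List.length_nil, List.length_eq_zero_iff] at h
          rw [h]
          exact le_rfl
        | cons r l ihl =>
          intro Cs h hd
          cases Cs with
          | nil => simp at h
          | cons C Cs =>
            simp only [List.map_cons, List.foldr_cons]
            refine max_le_max (hd 0 (by simp) (by simp)) (ihl Cs (by simpa using h) ?_)
            intro i h1 h2
            exact hd (i + 1) (by simpa using h1) (by simpa using h2)
      have maxb : ∀ (l : List Wire) (r : Wire), r ∈ l →
          wireDepth (depths gp) r ≤ (l.map (wireDepth (depths gp))).foldr max 0 :=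
        fun l r hr => le_foldr_max (List.mem_map_of_mem hr)
      cases g with
      | and r s =>
        simp only [gateDepth] at hr ⊢
        have hk1 : 1 ≤ k := by omega
        obtain ⟨Cs, c1, c2, c3, c4, c5⟩ := wires [r, s] (k - 1) (by omega) (by
          intro r' hr'
          simp only [List.mem_cons, List.not_mem_nil, or_false] at hr'
          rcases hr' with rfl | rfl <;> omega)
        obtain ⟨e1, e2, e3, e4⟩ := cat_spec Cs c2
        obtain ⟨w1, w2, hw⟩ : ∃ w1 w2, (cat Cs).2 = [w1, w2] := by
          have h : (cat Cs).2.length = 2 := by
            have := congrArg List.length e3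
            rw [List.length_map, List.length_map, c1] at this
            exact this
          exact List.length_eq_two.1 h
        refine ⟨top Cs (.and w1 w2), top_ok _ _, ?_, ?_, ?_⟩
        · rw [top_depth]
          simp only [gateDepth]
          rw [hw] at e3
          have h1 := maxle [r, s] Cs c1 c4
          rw [← e3] at h1
          simp only [List.map_cons, List.map_nil, List.foldr_cons, List.foldr_nil,
            Nat.max_zero] at h1
          omega
        · rw [top_size, e4]
          simp only [Gate.size]
          simp only [List.length_cons, List.length_nil] at c3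
          have h4 : 4 ^ k = 4 * 4 ^ (k - 1) := by
            rw [← pow_succ']
            congr 1
            omega
          have h5 : 1 ≤ 4 ^ (k - 1) := Nat.one_le_pow _ _ (by norm_num)
          omega
        · intro A x
          rw [top_eval]
          simp only [Gate.val]
          have h1 := e2 A x
          rw [hw, c5 A x] at h1
          simp only [List.map_cons, List.map_nil, List.cons.injEq, and_true] at h1
          rw [h1.1, h1.2]
      | or r s =>
        simp only [gateDepth] at hr ⊢
        have hk1 : 1 ≤ k := by omega
        obtain ⟨Cs, c1, c2, c3, c4, c5⟩ := wires [r, s] (k - 1) (by omega) (by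
          intro r' hr'
          simp only [List.mem_cons, List.not_mem_nil, or_false] at hr'
          rcases hr' with rfl | rfl <;> omega)
        obtain ⟨e1, e2, e3, e4⟩ := cat_spec Cs c2
        obtain ⟨w1, w2, hw⟩ : ∃ w1 w2, (cat Cs).2 = [w1, w2] := by
          have h : (cat Cs).2.length = 2 := by
            have := congrArg List.length e3
            rw [List.length_map, List.length_map, c1] at this
            exact this
          exact List.length_eq_two.1 h
        refine ⟨top Cs (.or w1 w2), top_ok _ _, ?_, ?_, ?_⟩
        · rw [top_depth]
          simp only [gateDepth]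
          rw [hw] at e3
          have h1 := maxle [r, s] Cs c1 c4
          rw [← e3] at h1
          simp only [List.map_cons, List.map_nil, List.foldr_cons, List.foldr_nil,
            Nat.max_zero] at h1
          omega
        · rw [top_size, e4]
          simp only [Gate.size]
          simp only [List.length_cons, List.length_nil] at c3
          have h4 : 4 ^ k = 4 * 4 ^ (k - 1) := by
            rw [← pow_succ']
            congr 1
            omega
          have h5 : 1 ≤ 4 ^ (k - 1) := Nat.one_le_pow _ _ (by norm_num)
          omega
        · intro A x
          rw [top_eval]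
          simp only [Gate.val]
          have h1 := e2 A x
          rw [hw, c5 A x] at h1
          simp only [List.map_cons, List.map_nil, List.cons.injEq, and_true] at h1
          rw [h1.1, h1.2]
      | not r =>
        simp only [gateDepth] at hr ⊢
        have hk1 : 1 ≤ k := by omega
        obtain ⟨Cs, c1, c2, c3, c4, c5⟩ := wires [r] (k - 1) (by omega) (by
          intro r' hr'
          simp only [List.mem_cons, List.not_mem_nil, or_false] at hr'
          rcases hr' with rfl
          omega)
        obtain ⟨e1, e2, e3, e4⟩ := cat_spec Cs c2
        obtain ⟨w1, hw⟩ : ∃ w1, (cat Cs).2 = [w1] := by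
          have h : (cat Cs).2.length = 1 := by
            have := congrArg List.length e3
            rw [List.length_map, List.length_map, c1] at this
            exact this
          exact List.length_eq_one_iff.1 h
        refine ⟨top Cs (.not w1), top_ok _ _, ?_, ?_, ?_⟩
        · rw [top_depth]
          simp only [gateDepth]
          rw [hw] at e3
          have h1 := maxle [r] Cs c1 c4
          rw [← e3] at h1
          simp only [List.map_cons, List.map_nil, List.foldr_cons, List.foldr_nil,
            Nat.max_zero] at h1
          omega
        · rw [top_size, e4]
          simp only [Gate.size]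
          simp only [List.length_cons, List.length_nil] at c3
          have h4 : 4 ^ k = 4 * 4 ^ (k - 1) := by
            rw [← pow_succ']
            congr 1
            omega
          have h5 : 1 ≤ 4 ^ (k - 1) := Nat.one_le_pow _ _ (by norm_num)
          omega
        · intro A x
          rw [top_eval]
          simp only [Gate.val]
          have h1 := e2 A x
          rw [hw, c5 A x] at h1
          simp only [List.map_cons, List.map_nil, List.cons.injEq, and_true] at h1
          rw [h1]
      | ask l =>
        simp only [gateDepth] at hr ⊢
        set lg := Nat.log 2 l.length + 1 with hlg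
        obtain ⟨Cs, c1, c2, c3, c4, c5⟩ := wires l (k - lg) (by omega) (by
          intro r' hr'
          have := maxb l r' hr'
          omega)
        obtain ⟨e1, e2, e3, e4⟩ := cat_spec Cs c2
        have hlen : (cat Cs).2.length = l.length := by
          have := congrArg List.length e3
          rw [List.length_map, List.length_map, c1] at this
          exact this
        refine ⟨top Cs (.ask (cat Cs).2), top_ok _ _, ?_, ?_, ?_⟩
        · rw [top_depth]
          simp only [gateDepth]
          rw [e3, hlen]
          have h1 := maxle l Cs c1 c4
          omega
        · rw [top_size, e4]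
          simp only [Gate.size]
          rw [hlen]
          have h2 : l.length < 2 ^ lg := Nat.lt_pow_succ_log_self (by norm_num) _
          have h3 : (l.length + 1) ≤ 2 ^ lg := h2
          have h4 : 4 ^ k = 2 ^ lg * 2 ^ lg * 4 ^ (k - lg) := by
            have : 2 ^ lg * 2 ^ lg = 4 ^ lg := by
              rw [← mul_pow]
              norm_num
            rw [this, ← pow_add]
            congr 1
            omega
          have h5 : 1 ≤ 4 ^ (k - lg) := Nat.one_le_pow _ _ (by norm_num)
          have h6 : 2 ≤ 2 ^ lg := by
            calc 2 = 2 ^ 1 := rfl
              _ ≤ 2 ^ lg := Nat.pow_le_pow_right (by norm_num) (by omega)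
          have h7 : l.length * (2 * 4 ^ (k - lg)) ≤ 4 ^ k := by
            rw [h4]
            calc l.length * (2 * 4 ^ (k - lg)) ≤ 2 ^ lg * (2 ^ lg * 4 ^ (k - lg)) :=
                  Nat.mul_le_mul h2.le (Nat.mul_le_mul_right _ h6)
              _ = 2 ^ lg * 2 ^ lg * 4 ^ (k - lg) := by ring
          have h8 : l.length + 1 ≤ 4 ^ k := by
            rw [h4]
            calc l.length + 1 ≤ 2 ^ lg * 1 * 1 := by omega
              _ ≤ 2 ^ lg * 2 ^ lg * 4 ^ (k - lg) :=
                Nat.mul_le_mul (Nat.mul_le_mul_left _ (by omega)) h5
          omega
        · intro A x
          rw [top_eval]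
          simp only [Gate.val]
          rw [e2 A x, c5 A x]
    · -- no such gate
      obtain ⟨C, h1, h2, h3, h4⟩ := triv false
      refine ⟨C, h1, h2.trans (Nat.zero_le _), h3, fun A x => ?_⟩
      rw [h4]
      simp only [Wire.val]
      rw [List.getD_eq_default]
      rw [length_vals]
      omega

/-- A circuit of depth `d` is equivalent to a circuit of size at most `2 * 4 ^ d` and depth at most
`d`. -/
theorem prune (C : Circuit) : ∃ D : Circuit, depth D ≤ depth C ∧ D.size ≤ 2 * 4 ^ depth C ∧
    ∀ (A : Oracle) (x : List Bool), D.eval A x = C.eval A x := by
  obtain ⟨D, -, h2, h3, h4⟩ := unfold_wire (depth C) C.gates C.out le_rfl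
  exact ⟨D, h2, h3, h4⟩

end Pool.Agent.TH707.DP
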