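import Pool.Agent.TH707.DP.Null
import Pool.Agent.TH707.DP.Prune
import Pool.Agent.H620R2.GaugeR.Seq
import Pool.Agent.H620R2.Gauge.C
import Pool.Agent.NPC.Num

/-!
# The hard functions are in `P`
-/

set_option autoImplicit false

namespace Pool.Agent.TH707.DP

open Pool.Agent.NPC Pool.Agent.H620R2.Gauge Pool.Agent.H622R2.Ckt

/-- the answers to adaptive questions -/
def ans (A : Oracle) (q : List Bool × List Bool → List Bool) (x : List Bool) : ℕ → List Bool
  | 0 => []
  | r + 1 => ans A q x r ++ [A (q (x, ans A q x r))]

theorem length_ans (A : Oracle) (q : List Bool × List Bool → List Bool) (x : List Bool) (r : ℕ) :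
    (ans A q x r).length = r := by
  induction r with
  | zero => rfl
  | succ r ih =>
    simp only [ans, List.length_append, ih, List.length_cons, List.length_nil]

/-- adaptive questions -/
theorem isFP_adapt (A : Oracle) {q out : List Bool × List Bool → List Bool} (hq : Poly q)
    (hout : Poly out) (T : Polynomial ℕ) :
    IsFP A (fun x => out (x, ans A q x (T.eval x.length))) := by
  have hT : Poly (fun y : List Bool => T.eval (unpair y).1.length) :=
    ((UPoly.length (NPC.Poly.fst poly_unpair)).eval T).toPoly
  have hl : Poly (fun y : List Bool => (unpair y).2.length) :=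
    (UPoly.length (NPC.Poly.snd poly_unpair)).toPoly
  have hD : Poly (fun y : List Bool => if (unpair y).2.length < T.eval (unpair y).1.length then
      false :: q (unpair y) else true :: out (unpair y)) :=
    NPC.Poly.ite (NPC.Poly.decide_lt hl hT)
      (NPC.Poly.cons (NPC.Poly.const false) (NPC.Poly.comp hq poly_unpair))
      (NPC.Poly.cons (NPC.Poly.const true) (NPC.Poly.comp hout poly_unpair))
  refine ⟨⟨_, Pool.Agent.H622R2.polyTime_of_poly_list hD, T + 1⟩, fun x => ?_⟩
  set M : Alg := ⟨_, Pool.Agent.H622R2.polyTime_of_poly_list hD, T + 1⟩ with hM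
  have h : ∀ d r m : ℕ, r + d = T.eval x.length → d + 1 ≤ m →
      M.run A x m (ans A q x r) = some (out (x, ans A q x (T.eval x.length))) := by
    intro d
    induction d with
    | zero =>
      intro r m hr hm
      obtain ⟨m, rfl⟩ : ∃ m', m = m' + 1 := ⟨m - 1, by omega⟩
      have hr' : r = T.eval x.length := by omega
      have h1 : M.D (pairBits x (ans A q x r)) = true :: out (x, ans A q x r) := by
        show (if (unpair (pairBits x (ans A q x r))).2.length <
          T.eval (unpair (pairBits x (ans A q x r))).1.length then _ else _) = _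
        rw [unpair_pairBits, length_ans, if_neg (by simp only; omega)]
      unfold Alg.run
      rw [h1, hr']
    | succ d ihd =>
      intro r m hr hm
      obtain ⟨m, rfl⟩ : ∃ m', m = m' + 1 := ⟨m - 1, by omega⟩
      have h1 : M.D (pairBits x (ans A q x r)) = false :: q (x, ans A q x r) := by
        show (if (unpair (pairBits x (ans A q x r))).2.length <
          T.eval (unpair (pairBits x (ans A q x r))).1.length then _ else _) = _
        rw [unpair_pairBits, length_ans, if_pos (by simp only; omega)]
      unfold Alg.run
      rw [h1]
      exact ihd (r + 1) m (by omega) (by omega)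
  have h1 := h (T.eval x.length) 0 ((T + 1).eval x.length) (by omega) (by
    rw [Polynomial.eval_add, Polynomial.eval_one])
  exact h1

/-! ### the language -/

/-- the question of the walk, as a function of the input and the former answers -/
def wq (p : List Bool × List Bool) : List Bool :=
  p.1 ++ (List.range p.1.length).map (fun i => if p.2.length < p.1.length then false else
    p.2.getD ((p.2.length / p.1.length - 1) * p.1.length + i) false) ++
  bitsL p.1.length p.2.length

theorem testBit_bits (r i : ℕ) : r.testBit i = (r.bits).getD i false := by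
  rw [Nat.testBit_eq_inth]
  rfl

theorem poly_wq : Poly wq := by
  have hn : UPoly (fun p : List Bool × List Bool => p.1.length) :=
    UPoly.length (NPC.Poly.fst NPC.Poly.id)
  have hr : UPoly (fun p : List Bool × List Bool => p.2.length) :=
    UPoly.length (NPC.Poly.snd NPC.Poly.id)
  have hn' : Poly (fun p : (List Bool × List Bool) × ℕ => p.1.1.length) :=
    (UPoly.length (NPC.Poly.fst (NPC.Poly.fst NPC.Poly.id))).toPoly
  have hr' : Poly (fun p : (List Bool × List Bool) × ℕ => p.1.2.length) :=
    (UPoly.length (NPC.Poly.snd (NPC.Poly.fst NPC.Poly.id))).toPoly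
  have h1 : Poly (fun p : (List Bool × List Bool) × ℕ =>
      if p.1.2.length < p.1.1.length then false else
        p.1.2.getD ((p.1.2.length / p.1.1.length - 1) * p.1.1.length + p.2) false) := by
    refine NPC.Poly.ite (NPC.Poly.decide_lt hr' hn') (NPC.Poly.const false) ?_
    refine NPC.Poly.getD (NPC.Poly.snd (NPC.Poly.fst NPC.Poly.id)) ?_ (NPC.Poly.const false)
    exact NPC.Poly.add (NPC.Poly.mul (NPC.Poly.sub (NPC.Poly.div hr' hn') (NPC.Poly.const 1)) hn')
      (NPC.Poly.snd NPC.Poly.id)
  have h2 : Poly (fun p : (List Bool × List Bool) × ℕ => p.1.2.length.testBit p.2) := by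
    refine NPC.Poly.congr (f := fun p : (List Bool × List Bool) × ℕ =>
      (p.1.2.length.bits).getD p.2 false) ?_ fun p => (testBit_bits _ _).symm
    exact NPC.Poly.getD (NPC.Poly.natBits hr') (NPC.Poly.snd NPC.Poly.id) (NPC.Poly.const false)
  unfold wq bitsL
  exact NPC.Poly.append (NPC.Poly.append (NPC.Poly.fst NPC.Poly.id)
    (NPC.Poly.map hn.range h1)) (NPC.Poly.map hn.range h2)

/-- the answers are the bits of the walk -/
theorem ans_wq (A : Oracle) {u : List Bool} {n : ℕ} (hu : u.length = n) (hn : 1 ≤ n) (R : ℕ) :
    ans A wq u R = (List.range R).map fun r => A (u ++ walk A u n (r / n) ++ bitsL n r) := by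
  induction R with
  | zero => rfl
  | succ R ih =>
    rw [List.range_succ, List.map_append, List.map_cons, List.map_nil]
    simp only [ans]
    rw [ih]
    congr 3
    unfold wq
    simp only [List.length_map, List.length_range, hu]
    congr 2
    rcases lt_or_ge R n with h | h
    · rw [Nat.div_eq_of_lt h]
      simp only [if_pos h, walk, List.map_const', List.length_range]
    · have hnot : ¬ R < n := by omega
      obtain ⟨j, hj⟩ : ∃ j, R / n = j + 1 :=
        ⟨R / n - 1, by have := Nat.div_pos h (by omega); omega⟩
      rw [hj]
      simp only [if_neg hnot, walk, Nat.add_sub_cancel]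
      refine List.map_congr_left fun i hi => ?_
      rw [List.mem_range] at hi
      have h1 : j * n + i < R := by
        have h2 : (j + 1) * n ≤ R := by
          rw [← hj]
          exact Nat.div_mul_le_self R n
        have h3 : (j + 1) * n = j * n + n := by ring
        omega
      rw [List.getD_eq_getElem _ _ (by rw [List.length_map, List.length_range]; exact h1),
        List.getElem_map, List.getElem_range]
      have h2 : (j * n + i) / n = j := by
        rw [Nat.add_comm, Nat.add_mul_div_right _ _ (by omega), Nat.div_eq_of_lt hi, zero_add]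
      rw [h2]

/-- the language of the hard functions with `n ^ b` levels -/
def Lb (b : ℕ) (A : Oracle) : Set (List Bool) :=
  {u | (ans A wq u (u.length ^ b * u.length + 1)).getD (u.length ^ b * u.length) false = true}

theorem Lb_isP (b : ℕ) (A : Oracle) : IsP A (Lb b A) := by
  have hout : Poly (fun p : List Bool × List Bool =>
      [p.2.getD (p.1.length ^ b * p.1.length) false]) := by
    have hn : UPoly (fun p : List Bool × List Bool => p.1.length ^ b * p.1.length) :=
      ((UPoly.length (NPC.Poly.fst NPC.Poly.id)).eval
        (Polynomial.X ^ b * Polynomial.X)).congr fun p => by simp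
    exact NPC.Poly.cons (NPC.Poly.getD (NPC.Poly.snd NPC.Poly.id) hn.toPoly
      (NPC.Poly.const false)) (NPC.Poly.const [])
  have h := isFP_adapt A poly_wq hout (Polynomial.X ^ b * Polynomial.X + 1)
  refine ⟨_, h, fun x => ?_⟩
  simp only [Polynomial.eval_add, Polynomial.eval_mul, Polynomial.eval_pow, Polynomial.eval_X,
    Polynomial.eval_one]
  unfold Lb
  simp

theorem mem_Lb (b : ℕ) (A : Oracle) {u : List Bool} {n : ℕ} (hu : u.length = n) (hn : 1 ≤ n) :
    u ∈ Lb b A ↔ (hard n (n ^ b)).eval A u = true := by
  unfold Lb
  rw [Set.mem_ofPred_eq, hu, ans_wq A hu hn, hard_eval A hu hn, List.getD_eq_getElem _ _ (by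
    rw [List.length_map, List.length_range]
    omega), List.getElem_map, List.getElem_range, Nat.mul_div_cancel _ (by omega)]

end Pool.Agent.TH707.DP
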