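import Pool.Agent.TH707.DP.Rnd
import Pool.Agent.TH707.EC.Code
import Pool.Agent.H620R2.Gauge.C
import Pool.Agent.H622R2.Ckt.LOC

/-!
# Oracles relative to which all circuits have equivalent circuits of logarithmic depth
-/

set_option autoImplicit false

namespace Pool.Agent.TH707.DP

open Pool.Agent.NPC Pool.Agent.H620R2.Gauge Pool.Agent.H622R2.Ckt Finset
open Pool.Agent.TH707.EC
open H568R2

/-! ### used inputs -/

/-- the wires of a gate -/
def wiresG : Gate → List Wire
  | .and r s => [r, s]
  | .or r s => [r, s]
  | .not r => [r]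
  | .ask l => l

/-- the input of a wire -/
def inpW : Wire → Option ℕ
  | .inp i => some i
  | _ => none

/-- the inputs that are used by the circuit -/
def ins (C : Circuit) : List ℕ := (C.gates.flatMap wiresG ++ [C.out]).filterMap inpW

theorem length_wiresG (g : Gate) : (wiresG g).length ≤ 2 * g.size := by
  cases g with
  | and r s => simp [wiresG, Gate.size]
  | or r s => simp [wiresG, Gate.size]
  | not r => simp [wiresG, Gate.size]
  | ask l =>
    simp only [wiresG, Gate.size]
    omega

theorem length_ins (C : Circuit) : (ins C).length ≤ 2 * C.size + 1 := by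
  unfold ins
  refine (List.length_filterMap_le _ _).trans ?_
  rw [List.length_append, List.length_flatMap]
  simp only [List.length_cons, List.length_nil, zero_add]
  have h : ∀ gs : List Gate, (gs.map fun g => (wiresG g).length).sum ≤
      2 * (gs.map Gate.size).sum := by
    intro gs
    induction gs with
    | nil => simp
    | cons g gs ih =>
      simp only [List.map_cons, List.sum_cons]
      have := length_wiresG g
      omega
  have := h C.gates
  unfold Circuit.size
  omega

/-- new names for the inputs -/
def renW (L : List ℕ) : Wire → Wire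
  | .inp i => .inp (L.idxOf i)
  | .cst b => .cst b
  | .gate j => .gate j

/-- new names for the inputs -/
def renG (L : List ℕ) : Gate → Gate
  | .and r s => .and (renW L r) (renW L s)
  | .or r s => .or (renW L r) (renW L s)
  | .not r => .not (renW L r)
  | .ask l => .ask (l.map (renW L))

/-- the circuit with new names for the inputs -/
def renC (L : List ℕ) (C : Circuit) : Circuit := ⟨C.gates.map (renG L), renW L C.out⟩

/-- the used inputs -/
def sub (L : List ℕ) (x : List Bool) : List Bool := L.map fun i => x.getD i false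

theorem renW_val {L : List ℕ} (x v : List Bool) {r : Wire} (h : ∀ i, inpW r = some i → i ∈ L) :
    (renW L r).val (sub L x) v = r.val x v := by
  cases r with
  | inp i =>
    have hi := h i rfl
    simp only [renW, Wire.val, sub]
    have h1 : L.idxOf i < L.length := List.idxOf_lt_length_iff.2 hi
    rw [List.getD_eq_getElem _ _ (by rw [List.length_map]; exact h1), List.getElem_map,
      List.getElem_idxOf h1]
  | cst b => rfl
  | gate j => rfl

theorem renG_val {L : List ℕ} (A : Oracle) (x v : List Bool) {g : Gate}
    (h : ∀ r ∈ wiresG g, ∀ i, inpW r = some i → i ∈ L) :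
    (renG L g).val A (sub L x) v = g.val A x v := by
  cases g with
  | and r s =>
    simp only [renG, Gate.val]
    rw [renW_val x v (h r (by simp [wiresG])), renW_val x v (h s (by simp [wiresG]))]
  | or r s =>
    simp only [renG, Gate.val]
    rw [renW_val x v (h r (by simp [wiresG])), renW_val x v (h s (by simp [wiresG]))]
  | not r =>
    simp only [renG, Gate.val]
    rw [renW_val x v (h r (by simp [wiresG]))]
  | ask l =>
    simp only [renG, Gate.val]
    congr 1
    rw [List.map_map]
    exact List.map_congr_left fun r hr => renW_val x v (h r hr)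

theorem renC_size (L : List ℕ) (C : Circuit) : (renC L C).size = C.size := by
  unfold renC Circuit.size
  simp only [List.map_map]
  congr 1
  refine List.map_congr_left fun g _ => ?_
  cases g <;> simp [renG, Gate.size]

theorem mem_ins_gate {C : Circuit} {g : Gate} (hg : g ∈ C.gates) {r : Wire} (hr : r ∈ wiresG g)
    {i : ℕ} (hi : inpW r = some i) : i ∈ ins C := by
  unfold ins
  rw [List.mem_filterMap]
  exact ⟨r, List.mem_append_left _ (List.mem_flatMap.2 ⟨g, hg, hr⟩), hi⟩

theorem mem_ins_out {C : Circuit} {i : ℕ} (hi : inpW C.out = some i) : i ∈ ins C := by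
  unfold ins
  rw [List.mem_filterMap]
  exact ⟨C.out, List.mem_append_right _ (by simp), hi⟩

theorem renC_eval (C : Circuit) (A : Oracle) (x : List Bool) :
    (renC (ins C) C).eval A (sub (ins C) x) = C.eval A x := by
  have h : ∀ gs : List Gate, (∀ g ∈ gs, g ∈ C.gates) →
      gateVals A (sub (ins C) x) (gs.map (renG (ins C))) = gateVals A x gs := by
    intro gs
    induction gs using List.reverseRecOn with
    | nil => intro _; rfl
    | append_singleton gs g ih =>
      intro hgs
      have h1 := ih fun g hg => hgs g (List.mem_append_left _ hg)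
      have h2 : g ∈ C.gates := hgs g (List.mem_append_right _ (by simp))
      rw [List.map_append, List.map_cons, List.map_nil, gateVals_snoc, gateVals_snoc, h1,
        renG_val A x _ fun r hr i hi => mem_ins_gate h2 hr hi]
  unfold Circuit.eval renC
  simp only
  rw [h C.gates fun g hg => hg, renW_val x _ fun i hi => mem_ins_out hi]

/-! ### short descriptions -/

/-- the length of the descriptions -/
def dl (m k : ℕ) : ℕ := (m + k + 8) * (4 * k + 4)

theorem nC_le (m k : ℕ) : nC m k ≤ 2 ^ dl m k := by
  unfold nC dl
  rw [pow_mul]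
  exact Nat.pow_le_pow_left Nat.lt_two_pow_self.le _

theorem exists_desc (m k : ℕ) : ∃ d : List Bool → Circuit, (∀ w, (d w).size ≤ k) ∧
    ∀ C : Circuit, C.size ≤ k → ∃ w : List Bool, w.length = dl m k ∧
      ∀ (A : Oracle) (x : List Bool), x.length = m → (d w).eval A x = C.eval A x := by
  classical
  obtain ⟨F, hF1, hF2⟩ := exists_circuits m k
  set G := F.filter (fun C => C.size ≤ k) with hG
  have hcard : Fintype.card {C // C ∈ G} ≤ Fintype.card (Fin (dl m k) → Bool) := by
    rw [Fintype.card_coe, Fintype.card_fun, Fintype.card_bool, Fintype.card_fin]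
    exact ((card_le_card (filter_subset _ _)).trans hF1).trans (nC_le m k)
  obtain ⟨ι⟩ := Function.Embedding.nonempty_of_card_le hcard
  refine ⟨fun w => if h : ∃ C : {C // C ∈ G}, w = List.ofFn (ι C) then h.choose.1
    else ⟨[], .cst false⟩, ?_, ?_⟩
  · intro w
    beta_reduce
    by_cases h : ∃ C : {C // C ∈ G}, w = List.ofFn (ι C)
    · rw [dif_pos h]
      exact (mem_filter.1 h.choose.2).2
    · rw [dif_neg h]
      exact Nat.zero_le _
  · intro C hC
    obtain ⟨C', hC', hs, hev⟩ := hF2 C hC
    have hmem : C' ∈ G := mem_filter.2 ⟨hC', hs⟩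
    refine ⟨List.ofFn (ι ⟨C', hmem⟩), by rw [List.length_ofFn], ?_⟩
    have h : ∃ C : {C // C ∈ G}, List.ofFn (ι ⟨C', hmem⟩) = List.ofFn (ι C) := ⟨_, rfl⟩
    beta_reduce
    rw [dif_pos h]
    have h1 : h.choose = ⟨C', hmem⟩ :=
      (ι.injective (List.ofFn_injective h.choose_spec)).symm
    rw [h1]
    exact hev

/-- the circuit with a given description -/
noncomputable def desc (m k : ℕ) : List Bool → Circuit := (exists_desc m k).choose

theorem desc_size (m k : ℕ) (w : List Bool) : (desc m k w).size ≤ k :=
  (exists_desc m k).choose_spec.1 w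

theorem desc_spec (m k : ℕ) {C : Circuit} (hC : C.size ≤ k) : ∃ w : List Bool,
    w.length = dl m k ∧ ∀ (A : Oracle) (x : List Bool), x.length = m →
      (desc m k w).eval A x = C.eval A x :=
  (exists_desc m k).choose_spec.2 C hC

/-! ### the oracle -/

/-- the paddings -/
noncomputable def RD (K k : ℕ) : Polynomial ℕ := (Polynomial.X + Polynomial.C (k + 1)) ^ K

theorem eval_RD (K k m : ℕ) : (RD K k).eval m = (m + (k + 1)) ^ K := by
  unfold RD
  rw [Polynomial.eval_pow, Polynomial.eval_add, Polynomial.eval_X, Polynomial.eval_C]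

/-- the described circuit accepts -/
def VD (k : ℕ) (A : Oracle) (z : List Bool) : Prop :=
  (desc (unpair z).2.length k (unpair z).1).eval A (unpair z).2 = true

theorem length_code' (R : ℕ → Polynomial ℕ) (e : ℕ) (z : List Bool) :
    (code R e z).length = e + (R e).eval z.length + z.length + 2 := by
  unfold code
  simp only [List.length_append, List.length_replicate, List.length_cons]
  omega

/-- the oracle -/
noncomputable def easyO (K : ℕ) (B : Oracle) : Oracle := CC.Phi (RD K) VD B

theorem easyO_off (K : ℕ) (B : Oracle) (y : List Bool) (h : ∀ e x, y ≠ code (RD K) e x) :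
    easyO K B y = B y := CC.Phi_not _ _ _ _ h

theorem easyO_code (K : ℕ) (B : Oracle) (k : ℕ) (w y : List Bool) :
    easyO K B (code (RD K) k (pairBits w y)) = (desc y.length k w).eval (easyO K B) y := by
  have h := CC.Phi_code (RD K) VD B (fun e A A' x h => by
    unfold VD
    rw [eval_local _ A A' (fun z hz => h z ?_)]
    rw [length_code']
    have := desc_size (unpair x).2.length e (unpair x).1
    omega) k (pairBits w y)
  unfold VD at h
  rw [unpair_pairBits] at h
  exact Bool.eq_iff_iff.2 h

/-- the prefix of the question -/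
def pfx (k r : ℕ) (w : List Bool) : List Bool :=
  List.replicate k true ++ false :: (List.replicate r true ++ false ::
    (w.flatMap (fun b => [true, b]) ++ [false]))

/-- one question -/
def one (p : List Bool) (L : List ℕ) : Circuit :=
  ⟨[.ask (p.map Wire.cst ++ L.map Wire.inp)], .gate 0⟩

theorem one_eval (p : List Bool) (L : List ℕ) (A : Oracle) (x : List Bool) :
    (one p L).eval A x = A (p ++ sub L x) := by
  unfold one Circuit.eval gateVals
  simp only [List.foldl_cons, List.foldl_nil, List.nil_append, Wire.val, Gate.val,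
    List.getD_cons_zero, List.map_append, List.map_map]
  congr 2
  exact (List.map_congr_left fun b _ => rfl).trans (List.map_id _)

theorem one_size (p : List Bool) (L : List ℕ) : (one p L).size = p.length + L.length + 1 := by
  unfold one Circuit.size
  simp [Gate.size]

theorem one_depth (p : List Bool) (L : List ℕ) :
    depth (one p L) = Nat.log 2 (p.length + L.length) + 1 := by
  have h0 : ∀ l : List ℕ, (∀ a ∈ l, a = 0) → l.foldr max 0 = 0 := by
    intro l
    induction l with
    | nil => intro _; rfl
    | cons a l ih =>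
      intro h
      simp only [List.foldr_cons]
      rw [ih fun b hb => h b (List.mem_cons_of_mem _ hb), h a (by simp)]
      rfl
  unfold depth one depths
  simp only [List.foldl_cons, List.foldl_nil, List.nil_append, wireDepth, List.getD_cons_zero,
    gateDepth]
  rw [h0, List.length_append, List.length_map, List.length_map, zero_add]
  intro a ha
  rw [List.mem_map] at ha
  obtain ⟨r, hr, rfl⟩ := ha
  rw [List.mem_append, List.mem_map, List.mem_map] at hr
  rcases hr with ⟨b, -, rfl⟩ | ⟨i, -, rfl⟩ <;> rfl

theorem code_pfx (K k : ℕ) (w y : List Bool) :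
    code (RD K) k (pairBits w y) = pfx k ((RD K k).eval (pairBits w y).length) w ++ y := by
  unfold code pfx pairBits
  simp only [List.append_assoc, List.cons_append, List.nil_append]

/-- the size of the question -/
theorem size_bound (K k m : ℕ) (hk : 2 ≤ k) (hm : m ≤ 2 * k + 1) :
    k + (RD K k).eval (2 * dl m k + 1 + m) + (2 * dl m k + 1 + m) + 2 + 1 ≤ k ^ (9 * K + 11) := by
  have h1 : dl m k ≤ 48 * k ^ 2 := by
    unfold dl
    calc (m + k + 8) * (4 * k + 4) ≤ (8 * k) * (6 * k) := Nat.mul_le_mul (by omega) (by omega)
      _ = 48 * k ^ 2 := by ring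
  have hk2 : 4 ≤ k ^ 2 := by nlinarith
  have h128 : 128 ≤ k ^ 7 := by
    calc 128 = 2 ^ 7 := by norm_num
      _ ≤ k ^ 7 := Nat.pow_le_pow_left hk 7
  have h2 : 2 * dl m k + 1 + m + (k + 1) ≤ k ^ 9 := by
    have h3 : 2 * dl m k + 1 + m + (k + 1) ≤ 128 * k ^ 2 := by nlinarith
    refine h3.trans ?_
    calc 128 * k ^ 2 ≤ k ^ 7 * k ^ 2 := Nat.mul_le_mul_right _ h128
      _ = k ^ 9 := by ring
  rw [eval_RD]
  have h3 : (2 * dl m k + 1 + m + (k + 1)) ^ K ≤ k ^ (9 * K) := by
    rw [pow_mul]
    exact Nat.pow_le_pow_left h2 K
  have hk1 : 1 ≤ k := by omega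
  have h4 : k ^ (9 * K) ≤ k ^ (9 * K + 9) := Nat.pow_le_pow_right hk1 (by omega)
  have h5 : k ^ 9 ≤ k ^ (9 * K + 9) := Nat.pow_le_pow_right hk1 (by omega)
  have h6 : k ^ (9 * K + 11) = k ^ (9 * K + 9) * k ^ 2 := by ring
  have h7 : k ^ (9 * K + 9) * 4 ≤ k ^ (9 * K + 9) * k ^ 2 := Nat.mul_le_mul_left _ hk2
  have h8 : 2 ≤ k ^ 9 := by
    have : 2 ^ 9 ≤ k ^ 9 := Nat.pow_le_pow_left hk 9
    omega
  omega

theorem easyO_log (K : ℕ) (B : Oracle) : LogDepth (easyO K B) := by
  refine ⟨9 * K + 12, fun n C hC => ?_⟩
  set k := C.size with hk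
  set L := ins C with hL
  have hLlen : L.length ≤ 2 * k + 1 := length_ins C
  set m := L.length with hm
  obtain ⟨w, hw, hev⟩ := desc_spec m k (C := renC L C) (renC_size L C).le
  set r := (RD K k).eval (2 * w.length + 1 + m) with hr
  have hlen : (pfx k r w).length + m = k + r + (2 * w.length + 1 + m) + 2 := by
    unfold pfx
    simp only [List.length_append, List.length_replicate, List.length_cons, List.length_nil,
      List.length_flatMap, List.map_const', List.sum_replicate, smul_eq_mul]
    omega
  have hsz : (pfx k r w).length + m + 1 ≤ k ^ (9 * K + 11) := by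
    rw [hlen, hr, hw]
    exact size_bound K k m hC hLlen
  have hk1 : 1 ≤ k := by omega
  refine ⟨one (pfx k r w) L, ?_, ?_, ?_⟩
  · rw [one_depth]
    have hk0 : (0 : ℝ) < k := by exact_mod_cast hk1
    have h1 : (1 : ℝ) ≤ Real.logb 2 k := by
      rw [Real.le_logb_iff_rpow_le (by norm_num) hk0, Real.rpow_one]
      exact_mod_cast hC
    have hpos : (pfx k r w).length + m ≠ 0 := by omega
    have h2 : ((Nat.log 2 ((pfx k r w).length + m) : ℕ) : ℝ) ≤ (9 * K + 11 : ℕ) * Real.logb 2 k := by
      rw [← Real.logb_pow, Real.le_logb_iff_rpow_le (by norm_num) (by positivity),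
        Real.rpow_natCast]
      have h3 := Nat.pow_log_le_self 2 hpos
      have h4 : 2 ^ Nat.log 2 ((pfx k r w).length + m) ≤ k ^ (9 * K + 11) := by omega
      exact_mod_cast h4
    push_cast at h2 ⊢
    linarith
  · rw [one_size]
    exact hsz.trans (Nat.pow_le_pow_right hk1 (by omega))
  · intro x _
    have hsub : (sub L x).length = m := by
      unfold sub
      rw [List.length_map]
    have hz : (pairBits w (sub L x)).length = 2 * w.length + 1 + m := by
      rw [length_pairBits, hsub]
    rw [one_eval]
    have h1 := code_pfx K k w (sub L x)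
    rw [hz, ← hr] at h1
    rw [← h1, easyO_code, hsub, hev _ _ hsub]
    exact renC_eval C _ x

end Pool.Agent.TH707.DP
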