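import Pool.Agent.TH707.DP.Null
import Pool.Agent.TH707.DP.Easy
import Pool.Agent.TH707.SL.Sparse
import Pool.Agent.W900.CH.PLev

/-!
# Log-depth simulation relative to oracles
-/

set_option autoImplicit false

namespace Pool.Agent.TH707.DP

open Pool.Agent.NPC Pool.Agent.H620R2.Gauge Finset MeasureTheory Filter
open Pool.Agent.H622R2.Ckt
open Pool.Agent.W900.CH (Close ae_far_P close_of_code)
open Pool.Agent.H628R3.RO (randomOracle)

theorem log_sub {A : Oracle} (h : LogDepth A) : SublinearDepth A := by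
  obtain ⟨c, h⟩ := h
  refine ⟨4 * c, 1 / 2, by norm_num, fun n C hC => ?_⟩
  obtain ⟨D, h1, h2, h3⟩ := h n C hC
  have hS : (2 : ℝ) ≤ C.size := by exact_mod_cast hC
  refine ⟨D, h1.trans ?_, h2.trans (Nat.pow_le_pow_right (by omega) (by omega)), h3⟩
  have h4 : Real.logb 2 (C.size : ℝ) ≤ 4 * (C.size : ℝ) ^ (1 / 2 : ℝ) := by
    have h5 : Real.log (C.size : ℝ) ≤ (C.size : ℝ) ^ (1 / 2 : ℝ) / (1 / 2) :=
      Real.log_le_rpow_div (by linarith) (by norm_num)
    unfold Real.logb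
    have hlog2 : (0.6931471803 : ℝ) < Real.log 2 := Real.log_two_gt_d9
    rw [div_le_iff₀ (by linarith)]
    have h6 : 0 ≤ (C.size : ℝ) ^ (1 / 2 : ℝ) := by positivity
    nlinarith
  push_cast
  have hc : (0 : ℝ) ≤ c := Nat.cast_nonneg c
  nlinarith [mul_le_mul_of_nonneg_left h4 hc]

theorem RD_ge (K : ℕ) : ∀ e n, (n + e + 1) ^ K ≤ (RD K e).eval n := by
  intro e n
  rw [eval_RD, Nat.add_assoc]

/-- a number `K` for `ε` -/
theorem exists_K {ε : ℝ} (hε : 0 < ε) : ∃ K : ℕ, 1 < ε * K := by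
  obtain ⟨K, hK⟩ := exists_nat_gt (1 / ε)
  refine ⟨K, ?_⟩
  rw [div_lt_iff₀ hε] at hK
  linarith

/-- The threshold on the scale of gauges. -/
theorem gauge (f : ℕ → ℝ) (S : Set Oracle) (h1 : ∀ A : Oracle, LogDepth A → A ∈ S)
    (h2 : ∀ A ∈ S, SublinearDepth A) :
    Null f S ↔ ∀ ε : ℝ, 0 < ε → ∃ᶠ N : ℕ in atTop, f N ≤ 2 ^ ((Real.logb 2 N) ^ ε) := by
  classical
  constructor
  · intro hn
    by_contra hc
    push Not at hc
    obtain ⟨ε, hε, hf⟩ := hc
    obtain ⟨K, hK⟩ := exists_K hε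
    refine SL.not_null_of_sparse f {y | ∃ e x, y = code (RD K) e x} {A | LogDepth A} ?_ ?_
      (hn.mono fun A hA => h1 A hA)
    · have hsp := sparse (RD K) (RD_ge K) hε hK
      filter_upwards [hsp, hf] with N h3 h4
      refine le_trans ?_ (h3.trans h4.le)
      refine le_of_eq ?_
      congr 1
    · intro B
      exact ⟨easyO K B, easyO_log K B, fun y hy =>
        easyO_off K B y fun e x h => hy ⟨e, x, h⟩⟩
  · intro hf
    exact (null_sub hf).mono h2

/-- The threshold for the number of changed strings. -/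
theorem changed (g : ℕ → ℝ) :
    ((∀ ε : ℝ, 0 < ε → ∃ᶠ n : ℕ in atTop, g n ≤ 2 ^ ((n : ℝ) ^ ε)) →
      ∀ᵐ O ∂randomOracle, ∀ A : Oracle, Close g O A → ¬ SublinearDepth A) ∧
    ((¬ ∀ ε : ℝ, 0 < ε → ∃ᶠ n : ℕ in atTop, g n ≤ 2 ^ ((n : ℝ) ^ ε)) →
      ∀ O : Oracle, ∃ A : Oracle, Close g O A ∧ LogDepth A) := by
  refine ⟨fun hg => ?_, fun hg O => ?_⟩
  · exact ae_far_P (S := {A | SublinearDepth A}) (fun f hf => null_sub hf) hg
  · push Not at hg
    obtain ⟨ε, hε, hg⟩ := hg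
    obtain ⟨K, hK⟩ := exists_K (half_pos hε)
    exact ⟨easyO K O, close_of_code hε hg hK (RD_ge K) fun y hy => easyO_off K O y hy,
      easyO_log K O⟩

end Pool.Agent.TH707.DP
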