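import Pool.Agent.TH707.DP.DefsN
import Pool.Agent.TH707.DP.Adapt
import Pool.Agent.TH707.DP.Final

/-!
# `P` and the depth of circuits relative to oracles
-/

set_option autoImplicit false

namespace Pool.Agent.TH707.DP

open Pool.Agent.NPC Pool.Agent.H620R2.Gauge Finset MeasureTheory Filter
open Pool.Agent.H622R2 Pool.Agent.H622R2.Ckt
open Pool.Agent.W900.CH (Close ae_far_P close_of_code)
open Pool.Agent.H628R3.RO (randomOracle)

theorem poly_le_pow (P : Polynomial ℕ) : ∃ k : ℕ, ∀ n : ℕ, 2 ≤ n → P.eval n ≤ n ^ k := by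
  induction P using Polynomial.induction_on' with
  | add p q hp hq =>
    obtain ⟨a, ha⟩ := hp
    obtain ⟨b, hb⟩ := hq
    refine ⟨a + b + 1, fun n hn => ?_⟩
    rw [Polynomial.eval_add]
    have h1 : n ^ a ≤ n ^ (a + b) := Nat.pow_le_pow_right (by omega) (by omega)
    have h2 : n ^ b ≤ n ^ (a + b) := Nat.pow_le_pow_right (by omega) (by omega)
    have h3 : 2 * n ^ (a + b) ≤ n * n ^ (a + b) := Nat.mul_le_mul_right _ hn
    have h4 : n ^ (a + b + 1) = n * n ^ (a + b) := by ring
    have := ha n hn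
    have := hb n hn
    omega
  | monomial d c =>
    refine ⟨c + d, fun n hn => ?_⟩
    rw [Polynomial.eval_monomial, pow_add]
    refine Nat.mul_le_mul_right _ ?_
    exact Nat.lt_two_pow_self.le.trans (Nat.pow_le_pow_left hn c)

/-! ### the hard side -/

theorem nc1_polyDepth {A : Oracle} (h : ∀ L, IsP A L → InNC1 A L) : PolyDepth A := by
  refine ⟨1, fun L hL => ?_⟩
  obtain ⟨c, hc⟩ := h L hL
  obtain ⟨k, hk⟩ := exists_nat_ge (2 * c)
  refine ⟨k + 1, ?_⟩
  have h1 : ∀ᶠ n : ℕ in atTop, c * Real.logb 2 n ≤ n := by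
    have hlog2 := Real.log_pos (show (1 : ℝ) < 2 by norm_num)
    have h2 := Real.isLittleO_log_id_atTop.bound
      (show (0 : ℝ) < Real.log 2 / (|c| + 1) by positivity)
    have h3 : Tendsto (fun n : ℕ => (n : ℝ)) atTop atTop := tendsto_natCast_atTop_atTop
    filter_upwards [h3.eventually h2, eventually_ge_atTop 1] with n h4 h5
    have hn1 : (1 : ℝ) ≤ n := by exact_mod_cast h5
    have hl : 0 ≤ Real.log (n : ℝ) := Real.log_nonneg hn1
    simp only [id, Real.norm_eq_abs] at h4
    rw [abs_of_nonneg hl, abs_of_nonneg (by linarith : (0 : ℝ) ≤ n)] at h4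
    have h6 : Real.logb 2 (n : ℝ) ≤ n / (|c| + 1) := by
      unfold Real.logb
      rw [div_le_iff₀ hlog2]
      refine h4.trans (le_of_eq ?_)
      ring
    have h7 : 0 ≤ Real.logb 2 (n : ℝ) := Real.logb_nonneg (by norm_num) hn1
    calc c * Real.logb 2 n ≤ (|c| + 1) * Real.logb 2 n :=
          mul_le_mul_of_nonneg_right (by linarith [le_abs_self c]) h7
      _ ≤ (|c| + 1) * (n / (|c| + 1)) := mul_le_mul_of_nonneg_left h6 (by positivity)
      _ = n := by
          field_simp
  filter_upwards [hc, h1, eventually_ge_atTop 2] with n hn h1 hn2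
  obtain ⟨D, hD1, hD2⟩ := hn
  obtain ⟨D', e1, e2, e3⟩ := prune D
  have hn0 : (0 : ℝ) < n := by
    have : 0 < n := by omega
    exact_mod_cast this
  refine ⟨D', ?_, ?_, fun x hx => by rw [hD2 x hx, e3]⟩
  · have h4 : (4 : ℝ) ^ depth D ≤ (n : ℝ) ^ k := by
      have h5 : (4 : ℝ) ^ depth D = 2 ^ (2 * (depth D : ℝ)) := by
        rw [Real.rpow_mul (by norm_num), Real.rpow_natCast]
        norm_num
      rw [h5]
      calc (2 : ℝ) ^ (2 * (depth D : ℝ)) ≤ 2 ^ (Real.logb 2 n * k) := by
            apply Real.rpow_le_rpow_of_exponent_le (by norm_num)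
            have h6 : 0 ≤ Real.logb 2 (n : ℝ) := Real.logb_nonneg (by norm_num) (by
              have : 1 ≤ n := by omega
              exact_mod_cast this)
            nlinarith
        _ = (n : ℝ) ^ k := by
            rw [Real.rpow_mul (by norm_num), Real.rpow_logb (by norm_num) (by norm_num) hn0,
              Real.rpow_natCast]
    have h5 : 4 ^ depth D ≤ n ^ k := by exact_mod_cast h4
    calc D'.size ≤ 2 * 4 ^ depth D := e2
      _ ≤ n * n ^ k := Nat.mul_le_mul hn2 h5
      _ = n ^ (k + 1) := by ring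
  · rw [pow_one]
    refine e1.trans ?_
    exact_mod_cast hD1.trans h1

theorem polyDepth_bad {A : Oracle} (h : PolyDepth A) :
    ∃ b c : ℕ, ∀ᶠ n : ℕ in atTop, A ∈ badD b c n := by
  obtain ⟨b, h⟩ := h
  obtain ⟨c, hc⟩ := h (Lb b A) (Lb_isP b A)
  refine ⟨b, c, ?_⟩
  filter_upwards [hc, eventually_ge_atTop 1] with n hn hn1
  obtain ⟨D, h1, h2, h3⟩ := hn
  refine ⟨D, h1.trans (Nat.pow_le_pow_left ?_ c), h2, fun u hu => ?_⟩
  · unfold sz
    have h4 : n ≤ n ^ (b + 2) := Nat.le_self_pow (by omega) _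
    omega
  · have h4 := (h3 u hu).symm.trans (mem_Lb b A hu hn1)
    exact Bool.eq_iff_iff.2 h4

theorem null_polyDepth {f : ℕ → ℝ} (hf : CondD f) : Null f {A | PolyDepth A} := by
  refine (null_iUnion (f := f) (fun b : ℕ => ⋃ c : ℕ,
    {A : Oracle | ∀ᶠ n : ℕ in atTop, A ∈ badD b c n}) fun b =>
    null_iUnion (f := f) _ fun c => null_badD b c hf).mono ?_
  intro A hA
  obtain ⟨b, c, h⟩ := polyDepth_bad hA
  exact Set.mem_iUnion.2 ⟨b, Set.mem_iUnion.2 ⟨c, h⟩⟩

/-! ### the easy side -/

open CC in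
/-- the coding of `H620R2`, with the explicit form of the reductions -/
theorem exists_coding' (K : ℕ) : ∃ (R : ℕ → Polynomial ℕ) (Φ : Oracle → Oracle),
    (∀ e n, (n + e + 1) ^ K ≤ (R e).eval n) ∧
    (∀ B y, (∀ e x, y ≠ code R e x) → Φ B y = B y) ∧
    ∀ B L, IsPSPACE (Φ B) L → ∃ e, ∀ x, x ∈ L ↔ Φ B (code R e x) = true := by
  obtain ⟨g, hg⟩ := exists_enum
  choose b hb using fun e : ℕ => act_length (g e).1 (g e).2
  set R : ℕ → Polynomial ℕ := fun e => b e + (Polynomial.X + Polynomial.C (e + 1)) ^ K with hR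
  set V : ℕ → Oracle → List Bool → Prop := fun e A x =>
    Acc (g e).1 (cut ((b e).eval x.length) A) x with hV
  have hRe : ∀ e n, (R e).eval n = (b e).eval n + (n + (e + 1)) ^ K := by
    intro e n
    rw [hR]
    simp only [Polynomial.eval_add, Polynomial.eval_pow, Polynomial.eval_X, Polynomial.eval_C]
  refine ⟨R, Phi R V, ?_, fun B y h => Phi_not R V B y h, ?_⟩
  · intro e n
    rw [hRe, add_assoc n e 1]
    exact Nat.le_add_left _ _
  · rintro B L ⟨M, p, hM⟩
    obtain ⟨e, he⟩ := hg (M, p)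
    refine ⟨e, fun x => ?_⟩
    have hloc : ∀ e A A' x, (∀ z : List Bool, z.length < (code R e x).length → A z = A' z) →
        (V e A x ↔ V e A' x) := by
      intro e A A' x h
      have hcut : cut ((b e).eval x.length) A = cut ((b e).eval x.length) A' := by
        funext z
        unfold cut
        split_ifs with hz
        · apply h
          have h1 := lt_length_code R e x
          have h2 := hRe e x.length
          omega
        · rfl
      simp only [hV, hcut]
    rw [Phi_code R V B hloc e x]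
    change x ∈ L ↔ Acc (g e).1 (cut ((b e).eval x.length) (Phi R V B)) x
    have hbe := hb e
    rw [he] at hbe ⊢
    obtain ⟨hM1, s, z, hs, hz, hL⟩ := hM x
    have hcong : ∀ s, M.Reach (cut ((b e).eval x.length) (Phi R V B)) x s ↔
        M.Reach (Phi R V B) x s := by
      refine reach_congr (fun s => s.length ≤ p.eval x.length) hM1 ?_
      intro s q h1 h2
      have h3 := hbe x s h1
      rw [h2, List.length_cons] at h3
      unfold cut
      rw [if_pos (by omega)]
    constructor
    · intro hx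
      refine ⟨s, (hcong s).2 hs, ?_⟩
      rw [hz, hL.1 hx]
    · rintro ⟨t, ht, ht2⟩
      have hst := reach_unique hs ((hcong t).1 ht) ⟨_, hz⟩ ⟨_, ht2⟩
      rw [hst, ht2] at hz
      simp only [List.cons.injEq, true_and] at hz
      exact hL.2 hz.symm

/-- a language that is read from the code strings has circuits of logarithmic depth -/
theorem nc1_of_code {A : Oracle} {L : Set (List Bool)} {R : ℕ → Polynomial ℕ} {e : ℕ}
    (h : ∀ x, x ∈ L ↔ A (code R e x) = true) : InNC1 A L := by
  obtain ⟨k, hk⟩ := poly_le_pow (Polynomial.C e + R e + Polynomial.X + Polynomial.C 2)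
  refine ⟨k + 1, ?_⟩
  filter_upwards [eventually_ge_atTop 2] with n hn
  have h1 := hk n hn
  simp only [Polynomial.eval_add, Polynomial.eval_C, Polynomial.eval_X] at h1
  set p : List Bool := List.replicate e true ++ false ::
    (List.replicate ((R e).eval n) true ++ [false]) with hp
  have hplen : p.length + (List.range n).length = e + (R e).eval n + n + 2 := by
    rw [hp]
    simp only [List.length_append, List.length_replicate, List.length_cons, List.length_nil,
      List.length_range]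
    omega
  refine ⟨one p (List.range n), ?_, fun x hx => ?_⟩
  · rw [one_depth, hplen]
    have hn0 : (0 : ℝ) < n := by
      have : 0 < n := by omega
      exact_mod_cast this
    have h2 : (1 : ℝ) ≤ Real.logb 2 n := by
      rw [Real.le_logb_iff_rpow_le (by norm_num) hn0, Real.rpow_one]
      exact_mod_cast hn
    have h3 : ((Nat.log 2 (e + (R e).eval n + n + 2) : ℕ) : ℝ) ≤ k * Real.logb 2 n := by
      rw [← Real.logb_pow, Real.le_logb_iff_rpow_le (by norm_num) (by positivity),
        Real.rpow_natCast]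
      have h4 := Nat.pow_log_le_self 2 (show e + (R e).eval n + n + 2 ≠ 0 by omega)
      exact_mod_cast h4.trans h1
    push_cast
    linarith
  · rw [one_eval, h x]
    have h2 : sub (List.range n) x = x := by
      subst hx
      exact CIR.map_getD x
    have h3 : code R e x = p ++ x := by
      unfold code
      rw [hp, hx]
      simp only [List.append_assoc, List.cons_append, List.nil_append]
    rw [h2, h3]

/-- The threshold on the scale of gauges. -/
theorem gaugeP (f : ℕ → ℝ) (S : Set Oracle)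
    (h1 : ∀ A : Oracle, (∀ L, IsPSPACE A L → InNC1 A L) → A ∈ S)
    (h2 : ∀ A ∈ S, PolyDepth A) :
    Null f S ↔ ∀ ε : ℝ, 0 < ε → ∃ᶠ N : ℕ in atTop, f N ≤ 2 ^ ((Real.logb 2 N) ^ ε) := by
  classical
  constructor
  · intro hn
    by_contra hc
    push Not at hc
    obtain ⟨ε, hε, hf⟩ := hc
    obtain ⟨K, hK⟩ := exists_K hε
    obtain ⟨R, Φ, hR, hoff, hred⟩ := exists_coding' K
    refine SL.not_null_of_sparse f {y | ∃ e x, y = code R e x}
      {A | ∀ L, IsPSPACE A L → InNC1 A L} ?_ ?_ (hn.mono fun A hA => h1 A hA)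
    · have hsp := sparse R hR hε hK
      filter_upwards [hsp, hf] with N h3 h4
      refine le_trans ?_ (h3.trans h4.le)
      refine le_of_eq ?_
      congr 1
    · intro B
      refine ⟨Φ B, fun L hL => ?_, fun y hy => hoff B y fun e x h => hy ⟨e, x, h⟩⟩
      obtain ⟨e, he⟩ := hred B L hL
      exact nc1_of_code he
  · intro hf
    exact (null_polyDepth hf).mono h2

/-- The threshold for the number of changed strings. -/
theorem changedP (g : ℕ → ℝ) :
    ((∀ ε : ℝ, 0 < ε → ∃ᶠ n : ℕ in atTop, g n ≤ 2 ^ ((n : ℝ) ^ ε)) →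
      ∀ᵐ O ∂randomOracle, ∀ A : Oracle, Close g O A → ¬ PolyDepth A) ∧
    ((¬ ∀ ε : ℝ, 0 < ε → ∃ᶠ n : ℕ in atTop, g n ≤ 2 ^ ((n : ℝ) ^ ε)) →
      ∀ O : Oracle, ∃ A : Oracle, Close g O A ∧ ∀ L, IsPSPACE A L → InNC1 A L) := by
  refine ⟨fun hg => ?_, fun hg O => ?_⟩
  · exact ae_far_P (S := {A | PolyDepth A}) (fun f hf => null_polyDepth hf) hg
  · push Not at hg
    obtain ⟨ε, hε, hg⟩ := hg
    obtain ⟨K, hK⟩ := exists_K (half_pos hε)
    obtain ⟨R, Φ, hR, hoff, hred⟩ := exists_coding' K
    refine ⟨Φ O, close_of_code hε hg hK hR fun y hy => hoff O y hy, fun L hL => ?_⟩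
    obtain ⟨e, he⟩ := hred O L hL
    exact nc1_of_code he

end Pool.Agent.TH707.DP
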