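import Pool.Agent.TH707.DP.NullHard
import Pool.Agent.TH707.DP.HardL
import Pool.Agent.TH707.DP.NC1

/-!
# Nonuniform `SC` and `NC` relative to oracles
-/

set_option autoImplicit false

namespace Pool.Agent.TH707.DP

open Pool.Agent.NPC Pool.Agent.H620R2.Gauge Finset MeasureTheory Filter
open Pool.Agent.H622R2 Pool.Agent.H622R2.Ckt
open Pool.Agent.W900.CH (Close ae_far_P close_of_code)
open Pool.Agent.H628R3.RO (randomOracle)
open Pool.Agent.TH707.EC
open H568R2

/-! ### logarithms -/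

theorem tendsto_natLog : Tendsto (Nat.log 2) atTop atTop :=
  tendsto_atTop.2 fun b => eventually_atTop.2 ⟨2 ^ b, fun n hn =>
    Nat.le_log_of_pow_le (by norm_num) hn⟩

theorem log_pow_le (c : ℕ) : ∀ᶠ n : ℕ in atTop, (Nat.log 2 n) ^ c ≤ n := by
  filter_upwards [tendsto_natLog.eventually (poly_le_two_pow (Polynomial.X ^ c)),
    eventually_ge_atTop 1] with n h hn
  rw [Polynomial.eval_pow, Polynomial.eval_X] at h
  exact h.trans (Nat.pow_log_le_self 2 (by omega))

theorem lt_pow_log (n : ℕ) : n < 2 ^ (Nat.log 2 n + 1) := Nat.lt_pow_succ_log_self (by norm_num) n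

theorem log_pow (n k : ℕ) : Nat.log 2 (n ^ k) ≤ k * (Nat.log 2 n + 1) := by
  rcases Nat.eq_zero_or_pos k with rfl | hk
  · simp
  · refine (Nat.log_mono_right (Nat.pow_le_pow_left (lt_pow_log n).le k)).trans ?_
    rw [← pow_mul, Nat.log_pow (by norm_num), Nat.mul_comm]

/-! ### the devices -/

open Classical in
theorem dev_narrow {n N s w : ℕ} {C : Circuit} {E : LCircuit} (hs : E.size ≤ s)
    (hw : E.WidthLE w)
    (hC : ∀ (A : Oracle) (x : List Bool), x.length = n → C.eval A x = E.eval A x) :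
    ∃ R : List Bool → Rounds (Fin N) (s * 2 ^ w), ∀ u : List Bool, u.length = n →
      ∀ a a' : Fin N → Bool,
      (∀ p ∈ (R u).Q 1 a, a' p = a p) → C.eval (orc N a') u = C.eval (orc N a) u := by
  have hcard : ∀ u : List Bool,
      (univ.filter fun p : Fin N => str p ∈ (cand u E.layers).1).card ≤ s * 2 ^ w := by
    intro u
    have h1 : (univ.filter fun p : Fin N => str p ∈ (cand u E.layers).1).card ≤
        ((cand u E.layers).1).toFinset.card := by
      refine card_le_card_of_injOn (fun p => str p) ?_ ?_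
      · intro p hp
        rw [mem_coe, mem_filter] at hp
        rw [mem_coe, List.mem_toFinset]
        exact hp.2
      · intro p _ p' _ h
        exact Fin.ext (str_injective h)
    refine h1.trans ((List.toFinset_card_le _).trans ((length_cand u E.layers hw).2.trans ?_))
    exact Nat.mul_le_mul_right _ hs
  refine ⟨fun u => constR _ (hcard u), fun u hu a a' h => ?_⟩
  rw [hC _ _ hu, hC _ _ hu]
  unfold LCircuit.eval
  rw [vals_of_cand (A := orc N a) (A' := orc N a') (x := u) E.layers fun q hq => ?_]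
  refine orc_congr fun p hp => h p ?_
  simp only [constR]
  rw [if_neg (by omega), mem_filter]
  exact ⟨mem_univ _, hp ▸ hq⟩

/-! ### `SC` -/

/-- pointer chasing with addresses of `(log n) ^ 2` bits on `n ^ b` levels -/
def LS (b : ℕ) (A : Oracle) : Set (List Bool) :=
  {u | (hard2 u.length ((Nat.log 2 u.length) ^ 2) (u.length ^ b)).eval A u = true}

theorem LS_size (b : ℕ) : ∃ k : ℕ, ∀ᶠ n : ℕ in atTop,
    (n ^ b * (Nat.log 2 n) ^ 2 + 1) * (n + (Nat.log 2 n) ^ 2 + n + 1) ≤ n ^ k := by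
  obtain ⟨k, hk⟩ := poly_le_pow ((Polynomial.X ^ b * Polynomial.X ^ 2 + 1) *
    (Polynomial.X + Polynomial.X ^ 2 + Polynomial.X + 1))
  refine ⟨k, ?_⟩
  filter_upwards [eventually_ge_atTop 2] with n hn
  refine le_trans ?_ (hk n hn)
  simp only [Polynomial.eval_add, Polynomial.eval_mul, Polynomial.eval_X, Polynomial.eval_pow,
    Polynomial.eval_one]
  have h1 : (Nat.log 2 n) ^ 2 ≤ n ^ 2 := Nat.pow_le_pow_left (Nat.log_le_self 2 n) 2
  refine Nat.mul_le_mul ?_ (by omega)
  exact Nat.add_le_add_right (Nat.mul_le_mul_left _ h1) 1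

theorem LS_inSC (b : ℕ) (A : Oracle) : InSC A (LS b A) := by
  obtain ⟨k, hk⟩ := LS_size b
  refine ⟨k + 2, ?_⟩
  filter_upwards [hk, eventually_ge_atTop 2] with n hk hn
  have hL : 1 ≤ Nat.log 2 n := Nat.le_log_of_pow_le (by norm_num) (by simpa using hn)
  have hL2 : 1 ≤ (Nat.log 2 n) ^ 2 := Nat.one_le_pow _ _ hL
  refine ⟨hardLC n ((Nat.log 2 n) ^ 2) (n ^ b), ?_, ?_, fun x hx => ?_⟩
  · rw [hardLC_size]
    exact hk.trans (Nat.pow_le_pow_right (by omega) (by omega))
  · exact hardLC_width (Nat.one_le_pow _ _ hL) (Nat.pow_le_pow_right hL (by omega))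
  · rw [hardLC_eval A hx hL2]
    unfold LS
    rw [Set.mem_ofPred_eq, hx]

theorem null_shallow {f : ℕ → ℝ} (hf : CondD f) : Null f {A | ShallowSC A} := by
  refine (null_iUnion (f := f) (fun b : ℕ => ⋃ c : ℕ,
    {A : Oracle | ∀ᶠ n : ℕ in atTop, ∃ C : Circuit, C.size ≤ n ^ c ∧
      (C.size ≤ n ^ c ∧ depth C ≤ n ^ b) ∧ ∀ u : List Bool, u.length = n →
      C.eval A u = (hard2 n ((Nat.log 2 n) ^ 2) (n ^ b)).eval A u}) fun b =>
    null_iUnion (f := f) _ fun c => ?_).mono ?_
  · obtain ⟨k, hk⟩ := LS_size b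
    refine null_hard (k := k) (l := fun n => (Nat.log 2 n) ^ 2) (t := fun n => n ^ b)
      (r := fun n => n ^ c) (fun n C => C.size ≤ n ^ c ∧ depth C ≤ n ^ b)
      (fun n N C h => dev_depth h.1 h.2) ?_ hk ?_ hf
    · filter_upwards [eventually_ge_atTop 2] with n hn
      exact Nat.one_le_pow _ _ (Nat.le_log_of_pow_le (by norm_num) (by simpa using hn))
    · filter_upwards [tendsto_natLog.eventually (eventually_ge_atTop (2 * (b + c) + 2))]
        with n hL
      set L := Nat.log 2 n with hLdef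
      calc 4 * (n ^ b * n ^ c) = 2 ^ 2 * n ^ (b + c) := by rw [pow_add]; ring
        _ ≤ 2 ^ 2 * (2 ^ (L + 1)) ^ (b + c) :=
            Nat.mul_le_mul_left _ (Nat.pow_le_pow_left (lt_pow_log n).le _)
        _ = 2 ^ (2 + (L + 1) * (b + c)) := by rw [← pow_mul, ← pow_add]
        _ ≤ 2 ^ (L ^ 2) := by
            refine Nat.pow_le_pow_right (by norm_num) ?_
            have h1 : (2 * (b + c) + 2) * L ≤ L ^ 2 := by
              rw [pow_two]
              exact Nat.mul_le_mul_right _ hL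
            have h2 : (b + c) * 1 ≤ (b + c) * L := Nat.mul_le_mul_left _ (by omega)
            nlinarith
  · rintro A ⟨b, h⟩
    obtain ⟨c, hc⟩ := h (LS b A) (LS_inSC b A)
    refine Set.mem_iUnion.2 ⟨b, Set.mem_iUnion.2 ⟨c, ?_⟩⟩
    rw [Set.mem_ofPred_eq]
    filter_upwards [hc] with n hn
    obtain ⟨D, h1, h2, h3⟩ := hn
    refine ⟨D, h1, ⟨h1, h2⟩, fun u hu => ?_⟩
    have h4 := h3 u hu
    unfold LS at h4
    rw [Set.mem_ofPred_eq, hu] at h4
    exact Bool.eq_iff_iff.2 h4.symm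

/-! ### `NC` -/

/-- one pointer of `n ^ (b + 2)` bits -/
def LN (b : ℕ) (A : Oracle) : Set (List Bool) :=
  {u | (hard2 u.length (u.length ^ (b + 2)) 1).eval A u = true}

theorem LN_size (b : ℕ) : ∃ k : ℕ, ∀ᶠ n : ℕ in atTop,
    (1 * n ^ (b + 2) + 1) * (n + n ^ (b + 2) + n + 1) ≤ n ^ k := by
  obtain ⟨k, hk⟩ := poly_le_pow ((1 * Polynomial.X ^ (b + 2) + 1) *
    (Polynomial.X + Polynomial.X ^ (b + 2) + Polynomial.X + 1))
  refine ⟨k, ?_⟩
  filter_upwards [eventually_ge_atTop 2] with n hn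
  refine le_trans ?_ (hk n hn)
  simp only [Polynomial.eval_add, Polynomial.eval_mul, Polynomial.eval_X, Polynomial.eval_pow,
    Polynomial.eval_one]
  exact le_rfl

/-- a bound for the depth -/
theorem log_bound (a : ℕ) : ∀ᶠ n : ℕ in atTop, a * (Nat.log 2 n + 1) ≤ (Nat.log 2 n) ^ 2 := by
  filter_upwards [tendsto_natLog.eventually (eventually_ge_atTop (2 * a + 1))] with n hL
  have h1 : (2 * a + 1) * Nat.log 2 n ≤ (Nat.log 2 n) ^ 2 := by
    rw [pow_two]
    exact Nat.mul_le_mul_right _ hL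
  have h2 : a * 1 ≤ a * Nat.log 2 n := Nat.mul_le_mul_left _ (by omega)
  nlinarith

theorem LN_inNC (b : ℕ) (A : Oracle) : InNC A (LN b A) := by
  obtain ⟨k, hk⟩ := LN_size b
  refine ⟨k + 2, ?_⟩
  filter_upwards [hk, log_bound (2 * (k + 1)), eventually_ge_atTop 2] with n hk hlog hn
  have hL : 1 ≤ Nat.log 2 n := Nat.le_log_of_pow_le (by norm_num) (by simpa using hn)
  have hl : 1 ≤ n ^ (b + 2) := Nat.one_le_pow _ _ (by omega)
  refine ⟨hard2 n (n ^ (b + 2)) 1, ?_, ?_, fun x hx => ?_⟩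
  · rw [hard2_size]
    exact hk.trans (Nat.pow_le_pow_right (by omega) (by omega))
  · have h1 : n + n ^ (b + 2) + n ≤ n ^ k := by
      refine le_trans ?_ hk
      refine le_trans (Nat.le_succ _) (Nat.le_mul_of_pos_left _ (by omega))
    have h2 : Nat.log 2 (n + n ^ (b + 2) + n) ≤ k * (Nat.log 2 n + 1) :=
      (Nat.log_mono_right h1).trans (log_pow n k)
    calc depth (hard2 n (n ^ (b + 2)) 1)
        ≤ (1 + 1) * (Nat.log 2 (n + n ^ (b + 2) + n) + 1) := hard2_depth hl 1
      _ ≤ (1 + 1) * (k * (Nat.log 2 n + 1) + (Nat.log 2 n + 1)) :=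
          Nat.mul_le_mul_left _ (by omega)
      _ = 2 * (k + 1) * (Nat.log 2 n + 1) := by ring
      _ ≤ (Nat.log 2 n) ^ 2 := hlog
      _ ≤ (Nat.log 2 n) ^ (k + 2) := Nat.pow_le_pow_right hL (by omega)
  · unfold LN
    rw [Set.mem_ofPred_eq, hx]

theorem null_narrow {f : ℕ → ℝ} (hf : CondD f) : Null f {A | NarrowNC A} := by
  refine (null_iUnion (f := f) (fun b : ℕ => ⋃ c : ℕ,
    {A : Oracle | ∀ᶠ n : ℕ in atTop, ∃ C : Circuit, C.size ≤ n ^ (c + 2) ∧
      (∃ E : LCircuit, E.size ≤ n ^ c ∧ E.WidthLE (n ^ b) ∧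
        ∀ (A : Oracle) (x : List Bool), x.length = n → C.eval A x = E.eval A x) ∧
      ∀ u : List Bool, u.length = n →
      C.eval A u = (hard2 n (n ^ (b + 2)) 1).eval A u}) fun b =>
    null_iUnion (f := f) _ fun c => ?_).mono ?_
  · obtain ⟨k, hk⟩ := LN_size b
    refine null_hard (k := k) (l := fun n => n ^ (b + 2)) (t := fun _ => 1)
      (r := fun n => n ^ c * 2 ^ (n ^ b)) (fun n C =>
        ∃ E : LCircuit, E.size ≤ n ^ c ∧ E.WidthLE (n ^ b) ∧
        ∀ (A : Oracle) (x : List Bool), x.length = n → C.eval A x = E.eval A x)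
      (fun n N C => by
        rintro ⟨E, h1, h2, h3⟩
        exact dev_narrow h1 h2 h3) ?_ hk ?_ hf
    · filter_upwards [eventually_ge_atTop 1] with n hn
      exact Nat.one_le_pow _ _ hn
    · filter_upwards [poly_le_two_pow (Polynomial.C 4 * Polynomial.X ^ c),
        eventually_ge_atTop 2] with n h1 hn
      rw [Polynomial.eval_mul, Polynomial.eval_C, Polynomial.eval_pow, Polynomial.eval_X] at h1
      calc 4 * (1 * (n ^ c * 2 ^ (n ^ b))) = (4 * n ^ c) * 2 ^ (n ^ b) := by ring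
        _ ≤ 2 ^ n * 2 ^ (n ^ b) := Nat.mul_le_mul_right _ h1
        _ = 2 ^ (n + n ^ b) := (pow_add _ _ _).symm
        _ ≤ 2 ^ (n ^ (b + 2)) := by
            refine Nat.pow_le_pow_right (by norm_num) ?_
            have h2 : n ^ b ≤ n ^ (b + 1) := Nat.pow_le_pow_right (by omega) (by omega)
            have h3 : n ≤ n ^ (b + 1) := Nat.le_self_pow (by omega) n
            have h4 : n ^ (b + 2) = n ^ (b + 1) * n := pow_succ _ _
            nlinarith
  · rintro A ⟨b, h⟩
    obtain ⟨c, hc⟩ := h (LN b A) (LN_inNC b A)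
    refine Set.mem_iUnion.2 ⟨b, Set.mem_iUnion.2 ⟨c, ?_⟩⟩
    rw [Set.mem_ofPred_eq]
    filter_upwards [hc, eventually_ge_atTop 2] with n hn hn2
    obtain ⟨E, h1, h2, h3⟩ := hn
    refine ⟨toC n E, ?_, ⟨E, h1, h2, fun A x hx => toC_eval hx A E⟩, fun u hu => ?_⟩
    · rw [toC_size]
      have h4 : n ≤ n ^ (c + 1) := Nat.le_self_pow (by omega) n
      have h5 : n ^ c ≤ n ^ (c + 1) := Nat.pow_le_pow_right (by omega) (by omega)
      have h6 : n ^ (c + 2) = n ^ (c + 1) * n := pow_succ _ _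
      nlinarith
    · have h4 := h3 u hu
      unfold LN at h4
      rw [Set.mem_ofPred_eq, hu] at h4
      rw [toC_eval hu]
      exact Bool.eq_iff_iff.2 h4.symm

/-! ### the easy side -/

theorem easyO_one (K : ℕ) (B : Oracle) {k : ℕ} (hk : 2 ≤ k) {C : Circuit} (hC : C.size ≤ k) :
    ∃ p : List Bool, (one p (ins C)).size ≤ k ^ (9 * K + 11) ∧
      ∀ x : List Bool, (one p (ins C)).eval (easyO K B) x = C.eval (easyO K B) x := by
  set L := ins C with hL
  have hLlen : L.length ≤ 2 * k + 1 := (length_ins C).trans (by omega)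
  set m := L.length with hm
  obtain ⟨w, hw, hev⟩ := desc_spec m k (C := renC L C) ((renC_size L C).le.trans hC)
  set r := (RD K k).eval (2 * w.length + 1 + m) with hr
  have hlen : (pfx k r w).length + m = k + r + (2 * w.length + 1 + m) + 2 := by
    unfold pfx
    simp only [List.length_append, List.length_replicate, List.length_cons, List.length_nil,
      List.length_flatMap, List.map_const', List.sum_replicate, smul_eq_mul]
    omega
  refine ⟨pfx k r w, ?_, fun x => ?_⟩
  · rw [one_size, ← hm, hlen, hr, hw]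
    exact size_bound K k m hk hLlen
  · have hsub : (sub L x).length = m := by
      unfold sub
      rw [List.length_map]
    have hz : (pairBits w (sub L x)).length = 2 * w.length + 1 + m := by
      rw [length_pairBits, hsub]
    rw [one_eval]
    have h1 := code_pfx K k w (sub L x)
    rw [hz, ← hr] at h1
    rw [← h1, easyO_code, hsub, hev _ _ hsub]
    exact renC_eval C _ x

theorem easyO_all (K : ℕ) (B : Oracle) : AllEasy (easyO K B) := by
  rintro L ⟨c, hc⟩
  set d := (c + 1) * (9 * K + 11) with hd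
  have h : ∀ᶠ n : ℕ in atTop, 2 ≤ n ∧ ∃ (p : List Bool) (M : List ℕ),
      (one p M).size ≤ n ^ d ∧ Decides (easyO K B) L n (one p M) := by
    filter_upwards [hc, eventually_ge_atTop 2] with n hn hn2
    obtain ⟨D, h1, h2⟩ := hn
    have h3 : 2 ≤ n ^ (c + 1) := hn2.trans (Nat.le_self_pow (by omega) n)
    obtain ⟨p, h4, h5⟩ := easyO_one K B h3
      (h1.trans (Nat.pow_le_pow_right (by omega) (Nat.le_succ c)))
    refine ⟨hn2, p, ins D, ?_, fun x hx => by rw [h5 x]; exact h2 x hx⟩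
    rw [hd, pow_mul]
    exact h4
  refine ⟨⟨d + 2, ?_⟩, ⟨d + 2, ?_⟩⟩
  · filter_upwards [h, log_bound (d + 1)] with n h hlog
    obtain ⟨hn, p, M, h1, h2⟩ := h
    have hL : 1 ≤ Nat.log 2 n := Nat.le_log_of_pow_le (by norm_num) (by simpa using hn)
    refine ⟨one p M, h1.trans (Nat.pow_le_pow_right (by omega) (by omega)), ?_, h2⟩
    rw [one_depth]
    rw [one_size] at h1
    have h3 : Nat.log 2 (p.length + M.length) ≤ d * (Nat.log 2 n + 1) :=
      (Nat.log_mono_right (by omega)).trans (log_pow n d)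
    calc Nat.log 2 (p.length + M.length) + 1 ≤ d * (Nat.log 2 n + 1) + (Nat.log 2 n + 1) := by
          omega
      _ = (d + 1) * (Nat.log 2 n + 1) := by ring
      _ ≤ (Nat.log 2 n) ^ 2 := hlog
      _ ≤ (Nat.log 2 n) ^ (d + 2) := Nat.pow_le_pow_right hL (by omega)
  · filter_upwards [h] with n h
    obtain ⟨hn, p, M, h1, h2⟩ := h
    have hL : 1 ≤ Nat.log 2 n := Nat.le_log_of_pow_le (by norm_num) (by simpa using hn)
    refine ⟨⟨[[.ask (p.map LWire.cst ++ M.map LWire.inp)]], .prev 0⟩, ?_, ?_, fun x hx => ?_⟩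
    · refine le_trans ?_ (h1.trans (Nat.pow_le_pow_right (by omega) (Nat.le_add_right d 2)))
      rw [one_size]
      simp [LCircuit.size, LGate.size]
    · intro layer hlayer
      simp only [List.mem_singleton] at hlayer
      rw [hlayer]
      simpa using Nat.one_le_pow _ _ hL
    · rw [h2 x hx, one_eval]
      unfold LCircuit.eval layerVals
      simp only [List.foldl_cons, List.foldl_nil, LWire.val, LGate.val, List.map_cons,
        List.map_nil, List.getD_cons_zero, List.map_append]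
      rw [map_cstL, List.map_map]
      rfl

/-! ### relations between the classes -/

theorem InNC.ppoly {A : Oracle} {L : Set (List Bool)} (h : InNC A L) : InPpoly A L := by
  obtain ⟨c, hc⟩ := h
  refine ⟨c, ?_⟩
  filter_upwards [hc] with n hn
  obtain ⟨D, h1, -, h2⟩ := hn
  exact ⟨D, h1, h2⟩

theorem InSC.ppoly {A : Oracle} {L : Set (List Bool)} (h : InSC A L) : InPpoly A L := by
  obtain ⟨c, hc⟩ := h
  refine ⟨c + 2, ?_⟩
  filter_upwards [hc, eventually_ge_atTop 2] with n hn hn2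
  obtain ⟨E, h1, -, h2⟩ := hn
  refine ⟨toC n E, ?_, fun x hx => by rw [toC_eval hx]; exact h2 x hx⟩
  rw [toC_size]
  have h4 : n ≤ n ^ (c + 1) := Nat.le_self_pow (by omega) n
  have h5 : n ^ c ≤ n ^ (c + 1) := Nat.pow_le_pow_right (by omega) (by omega)
  have h6 : n ^ (c + 2) = n ^ (c + 1) * n := pow_succ _ _
  nlinarith

theorem shallow_of {A : Oracle} (h : ∀ L, InSC A L → InNC A L) : ShallowSC A := by
  refine ⟨1, fun L hL => ?_⟩
  obtain ⟨c, hc⟩ := h L hL
  refine ⟨c, ?_⟩
  filter_upwards [hc, log_pow_le c] with n hn hlog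
  obtain ⟨D, h1, h2, h3⟩ := hn
  exact ⟨D, h1, by rw [pow_one]; exact h2.trans hlog, h3⟩

theorem narrow_of {A : Oracle} (h : ∀ L, InNC A L → InSC A L) : NarrowNC A := by
  refine ⟨1, fun L hL => ?_⟩
  obtain ⟨c, hc⟩ := h L hL
  refine ⟨c, ?_⟩
  filter_upwards [hc, log_pow_le c] with n hn hlog
  obtain ⟨E, h1, h2, h3⟩ := hn
  exact ⟨E, h1, fun layer hl => by rw [pow_one]; exact (h2 layer hl).trans hlog, h3⟩

theorem null_either {f : ℕ → ℝ} (hf : CondD f) : Null f {A | ShallowSC A ∨ NarrowNC A} := by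
  refine (null_iUnion (f := f) (fun b : Bool => if b then {A | ShallowSC A} else {A | NarrowNC A})
    fun b => ?_).mono ?_
  · cases b
    · exact null_narrow hf
    · exact null_shallow hf
  · rintro A (h | h)
    · exact Set.mem_iUnion.2 ⟨true, h⟩
    · exact Set.mem_iUnion.2 ⟨false, h⟩

/-- The threshold on the scale of gauges. -/
theorem gaugeS (f : ℕ → ℝ) (S : Set Oracle) (h1 : ∀ A : Oracle, AllEasy A → A ∈ S)
    (h2 : ∀ A ∈ S, ShallowSC A ∨ NarrowNC A) :
    Null f S ↔ ∀ ε : ℝ, 0 < ε → ∃ᶠ N : ℕ in atTop, f N ≤ 2 ^ ((Real.logb 2 N) ^ ε) := by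
  classical
  constructor
  · intro hn
    by_contra hc
    push Not at hc
    obtain ⟨ε, hε, hf⟩ := hc
    obtain ⟨K, hK⟩ := exists_K hε
    refine SL.not_null_of_sparse f {y | ∃ e x, y = code (RD K) e x} {A | AllEasy A} ?_ ?_
      (hn.mono fun A hA => h1 A hA)
    · have hsp := sparse (RD K) (RD_ge K) hε hK
      filter_upwards [hsp, hf] with N h3 h4
      refine le_trans ?_ (h3.trans h4.le)
      refine le_of_eq ?_
      congr 1
    · intro B
      exact ⟨easyO K B, easyO_all K B, fun y hy =>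
        easyO_off K B y fun e x h => hy ⟨e, x, h⟩⟩
  · intro hf
    exact (null_either hf).mono h2

/-- The threshold for the number of changed strings. -/
theorem changedS (g : ℕ → ℝ) :
    ((∀ ε : ℝ, 0 < ε → ∃ᶠ n : ℕ in atTop, g n ≤ 2 ^ ((n : ℝ) ^ ε)) →
      ∀ᵐ O ∂randomOracle, ∀ A : Oracle, Close g O A → ¬ ShallowSC A ∧ ¬ NarrowNC A) ∧
    ((¬ ∀ ε : ℝ, 0 < ε → ∃ᶠ n : ℕ in atTop, g n ≤ 2 ^ ((n : ℝ) ^ ε)) →
      ∀ O : Oracle, ∃ A : Oracle, Close g O A ∧ AllEasy A) := by
  refine ⟨fun hg => ?_, fun hg O => ?_⟩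
  · have h := ae_far_P (S := {A | ShallowSC A ∨ NarrowNC A}) (fun f hf => null_either hf) hg
    filter_upwards [h] with O hO A hA
    exact not_or.1 (hO A hA)
  · push Not at hg
    obtain ⟨ε, hε, hg⟩ := hg
    obtain ⟨K, hK⟩ := exists_K (half_pos hε)
    exact ⟨easyO K O, close_of_code hε hg hK (RD_ge K) fun y hy => easyO_off K O y hy,
      easyO_all K O⟩

end Pool.Agent.TH707.DP
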