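import Pool.Agent.H622R2.Ckt.Defs

/-!
# The depth of circuits with oracle gates; log-depth simulation relative to an oracle

An oracle gate with `j` inputs contributes to the depth the length of `j` in binary, that is
`⌊log₂ j⌋ + 1`; the other gates contribute `1`.
-/

set_option autoImplicit false

namespace Pool.Agent.TH707.DP

open Pool.Agent.NPC Pool.Agent.H620R2.Gauge Pool.Agent.H622R2.Ckt

/-- The depth of a wire, if `d` is the list of the depths of the gates so far. -/
def wireDepth (d : List ℕ) : Wire → ℕ
  | .inp _ => 0
  | .cst _ => 0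
  | .gate j => d.getD j 0

/-- The depth of a gate. -/
def gateDepth (d : List ℕ) : Gate → ℕ
  | .and r s => max (wireDepth d r) (wireDepth d s) + 1
  | .or r s => max (wireDepth d r) (wireDepth d s) + 1
  | .not r => wireDepth d r + 1
  | .ask l => (l.map (wireDepth d)).foldr max 0 + (Nat.log 2 l.length + 1)

/-- The list of the depths of all gates. -/
def depths (gs : List Gate) : List ℕ :=
  gs.foldl (fun d g => d ++ [gateDepth d g]) []

/-- The depth of a circuit: the largest depth of a path from an input or a constant to the
output. -/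
def depth (C : Circuit) : ℕ := wireDepth (depths C.gates) C.out

/-- Question Q1 relative to the oracle `A`: all circuits of size `S ≥ 2` have equivalent circuits
of depth at most `c log S` and size at most `S ^ c`. -/
def LogDepth (A : Oracle) : Prop :=
  ∃ c : ℕ, ∀ (n : ℕ) (C : Circuit), 2 ≤ C.size → ∃ D : Circuit,
    (depth D : ℝ) ≤ c * Real.logb 2 C.size ∧ D.size ≤ C.size ^ c ∧
    ∀ x : List Bool, x.length = n → D.eval A x = C.eval A x

/-- Much less: all circuits of size `S ≥ 2` have equivalent circuits of depth at most `c S ^ δ`,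
where `δ < 1`, and of size at most `S ^ c`. -/
def SublinearDepth (A : Oracle) : Prop :=
  ∃ (c : ℕ) (δ : ℝ), δ < 1 ∧ ∀ (n : ℕ) (C : Circuit), 2 ≤ C.size → ∃ D : Circuit,
    (depth D : ℝ) ≤ c * (C.size : ℝ) ^ δ ∧ D.size ≤ C.size ^ c ∧
    ∀ x : List Bool, x.length = n → D.eval A x = C.eval A x

end Pool.Agent.TH707.DP
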