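import Pool.Agent.TH707.DP.DefsN

/-!
# Layered circuits with oracle gates, and the nonuniform classes `SC` and `NC` relative to an oracle
-/

set_option autoImplicit false

namespace Pool.Agent.TH707.DP

open Pool.Agent.NPC Pool.Agent.H620R2.Gauge Pool.Agent.H622R2.Ckt Filter

/-- A wire of a layered circuit carries an input bit, a negated input bit, a constant, or the value
of a gate of the previous layer. -/
inductive LWire : Type
  | inp (i : ℕ)
  | ninp (i : ℕ)
  | cst (b : Bool)
  | prev (j : ℕ)

/-- A gate of a layered circuit: AND, OR, NOT, or a gate for the oracle. -/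
inductive LGate : Type
  | and (r s : LWire)
  | or (r s : LWire)
  | not (r : LWire)
  | ask (l : List LWire)

/-- A layered circuit: the list of its layers, and an output wire (from the last layer). -/
structure LCircuit : Type where
  /-- the layers -/
  layers : List (List LGate)
  /-- the output wire -/
  out : LWire

/-- The bit carried by a wire, if the input is `x` and `v` is the list of the values of the gates of
the previous layer. (Wires to nonexistent inputs or gates carry the bit `false`.) -/
def LWire.val (x v : List Bool) : LWire → Bool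
  | .inp i => x.getD i false
  | .ninp i => !(x.getD i false)
  | .cst b => b
  | .prev j => v.getD j false

/-- The value of a gate with oracle `A`. -/
def LGate.val (A : Oracle) (x v : List Bool) : LGate → Bool
  | .and r s => r.val x v && s.val x v
  | .or r s => r.val x v || s.val x v
  | .not r => !(r.val x v)
  | .ask l => A (l.map (LWire.val x v))

/-- The values of the gates of the last layer. -/
def layerVals (A : Oracle) (x : List Bool) (ls : List (List LGate)) : List Bool :=
  ls.foldl (fun v layer => layer.map (LGate.val A x v)) []

/-- The output of the layered circuit with oracle `A` on input `x`. -/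
def LCircuit.eval (E : LCircuit) (A : Oracle) (x : List Bool) : Bool :=
  E.out.val x (layerVals A x E.layers)

/-- The size of a gate: `1` for AND, OR and NOT, and one more than the number of the wires for an
oracle gate. -/
def LGate.size : LGate → ℕ
  | .ask l => l.length + 1
  | _ => 1

/-- The size of a layered circuit: the sum of the sizes of its gates. -/
def LCircuit.size (E : LCircuit) : ℕ := (E.layers.map fun layer => (layer.map LGate.size).sum).sum

/-- All layers have at most `w` gates. -/
def LCircuit.WidthLE (E : LCircuit) (w : ℕ) : Prop := ∀ layer ∈ E.layers, layer.length ≤ w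

/-- Nonuniform `NC` relative to `A`: polynomial size and polylogarithmic depth. -/
def InNC (A : Oracle) (L : Set (List Bool)) : Prop :=
  ∃ c : ℕ, ∀ᶠ n : ℕ in atTop, ∃ D : Circuit,
    D.size ≤ n ^ c ∧ depth D ≤ (Nat.log 2 n) ^ c ∧ Decides A L n D

/-- Nonuniform `SC` relative to `A`: layered circuits of polynomial size and polylogarithmic
width. -/
def InSC (A : Oracle) (L : Set (List Bool)) : Prop :=
  ∃ c : ℕ, ∀ᶠ n : ℕ in atTop, ∃ E : LCircuit,
    E.size ≤ n ^ c ∧ E.WidthLE ((Nat.log 2 n) ^ c) ∧
    ∀ x : List Bool, x.length = n → (x ∈ L ↔ E.eval A x = true)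

/-- Circuits of polynomial size relative to `A`. -/
def InPpoly (A : Oracle) (L : Set (List Bool)) : Prop :=
  ∃ c : ℕ, ∀ᶠ n : ℕ in atTop, ∃ D : Circuit, D.size ≤ n ^ c ∧ Decides A L n D

/-- Relative to `A`, all languages with circuits of polynomial size are in nonuniform `NC` and in
nonuniform `SC`. -/
def AllEasy (A : Oracle) : Prop := ∀ L, InPpoly A L → InNC A L ∧ InSC A L

/-- Much less than `SC ⊆ NC` relative to `A`: for some `b`, all languages in nonuniform `SC` have
circuits of polynomial size and of depth at most `n ^ b`. -/
def ShallowSC (A : Oracle) : Prop :=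
  ∃ b : ℕ, ∀ L, InSC A L → ∃ c : ℕ, ∀ᶠ n : ℕ in atTop, ∃ D : Circuit,
    D.size ≤ n ^ c ∧ depth D ≤ n ^ b ∧ Decides A L n D

/-- Much less than `NC ⊆ SC` relative to `A`: for some `b`, all languages in nonuniform `NC` have
layered circuits of polynomial size and of width at most `n ^ b`. -/
def NarrowNC (A : Oracle) : Prop :=
  ∃ b : ℕ, ∀ L, InNC A L → ∃ c : ℕ, ∀ᶠ n : ℕ in atTop, ∃ E : LCircuit,
    E.size ≤ n ^ c ∧ E.WidthLE (n ^ b) ∧
    ∀ x : List Bool, x.length = n → (x ∈ L ↔ E.eval A x = true)

end Pool.Agent.TH707.DP
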