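import Pool.Agent.TH707.DP.Defs
import Mathlib.Analysis.SpecialFunctions.Log.Base
import Mathlib.Order.Filter.AtTopBot.Basic

/-!
# Functions in `P` and the depth of circuits, relative to an oracle
-/

set_option autoImplicit false

namespace Pool.Agent.TH707.DP

open Pool.Agent.NPC Pool.Agent.H620R2.Gauge Pool.Agent.H622R2.Ckt Filter

/-- Relative to `A`, the circuit `D` decides `L` on the inputs of length `n`. -/
def Decides (A : Oracle) (L : Set (List Bool)) (n : ℕ) (D : Circuit) : Prop :=
  ∀ x : List Bool, x.length = n → (x ∈ L ↔ D.eval A x = true)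

/-- Relative to `A`, the restrictions of `L` have circuits of depth `O(log n)`. -/
def InNC1 (A : Oracle) (L : Set (List Bool)) : Prop :=
  ∃ c : ℝ, ∀ᶠ n : ℕ in atTop, ∃ D : Circuit, (depth D : ℝ) ≤ c * Real.logb 2 n ∧ Decides A L n D

/-- Much less than `P ⊆ NC¹` relative to `A`: for some `b`, all languages in `P` have circuits of
polynomial size and of depth at most `n ^ b`. -/
def PolyDepth (A : Oracle) : Prop :=
  ∃ b : ℕ, ∀ L, IsP A L → ∃ c : ℕ, ∀ᶠ n : ℕ in atTop, ∃ D : Circuit,
    D.size ≤ n ^ c ∧ depth D ≤ n ^ b ∧ Decides A L n D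

end Pool.Agent.TH707.DP
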