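import Pool.Agent.TH707.DP.Hard
import Pool.Agent.TH707.EC.Transfer

/-!
# Shallow circuits for the hard functions are improbable
-/

set_option autoImplicit false

namespace Pool.Agent.TH707.DP

open Pool.Agent.NPC Pool.Agent.H620R2.Gauge Pool.Agent.H622R2.Ckt Finset
open Pool.Agent.TH707.EC
open H568R2

variable {N : ℕ}

open Classical in
/-- the positions of the questions of depth at most `j` -/
noncomputable def Qc (N : ℕ) (C : Circuit) (x : List Bool) (j : ℕ) (a : Fin N → Bool) :
    Finset (Fin N) :=
  univ.filter fun p => ∃ q ∈ asked (orc N a) x C.gates, q.1 ≤ j ∧ q.2 = str p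

theorem mem_Qc {C : Circuit} {x : List Bool} {j : ℕ} {a : Fin N → Bool} {p : Fin N} :
    p ∈ Qc N C x j a ↔ ∃ q ∈ asked (orc N a) x C.gates, q.1 ≤ j ∧ q.2 = str p := by
  unfold Qc
  rw [mem_filter]
  exact ⟨fun h => h.2, fun h => ⟨mem_univ _, h⟩⟩

theorem orc_congr {a a' : Fin N → Bool} {y : List Bool}
    (h : ∀ p : Fin N, y = str p → a' p = a p) : orc N a' y = orc N a y := by
  unfold orc
  by_cases hy : idx y < N
  · rw [dif_pos hy, dif_pos hy]
    exact h _ (str_idx y).symm
  · rw [dif_neg hy, dif_neg hy]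

theorem agree_Q {C : Circuit} {x : List Bool} {j : ℕ} {a a' : Fin N → Bool}
    (h : ∀ p ∈ Qc N C x j a, a' p = a p) :
    ∀ q ∈ asked (orc N a) x C.gates, q.1 ≤ j → orc N a' q.2 = orc N a q.2 :=
  fun q hq hj => orc_congr fun p hp => h p (mem_Qc.2 ⟨q, hq, hj, hp⟩)

/-- the rounds of questions of a circuit -/
noncomputable def rnd (N : ℕ) (C : Circuit) (x : List Bool) : Rounds (Fin N) C.size where
  Q := Qc N C x
  zero := by
    intro a
    rw [eq_empty_iff_forall_notMem]
    intro p hp
    rw [mem_Qc] at hp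
    obtain ⟨q, hq, h1, -⟩ := hp
    have := depth_pos _ _ _ q hq
    omega
  mono := by
    intro j a p hp
    rw [mem_Qc] at hp ⊢
    obtain ⟨q, hq, h1, h2⟩ := hp
    exact ⟨q, hq, h1.trans (Nat.le_succ j), h2⟩
  step := by
    intro j a a' h
    ext p
    rw [mem_Qc, mem_Qc]
    have h1 := (agree j C.gates (agree_Q h)).2
    constructor
    · rintro ⟨q, hq, h2, h3⟩
      exact ⟨q, (h1 q h2).1 hq, h2, h3⟩
    · rintro ⟨q, hq, h2, h3⟩
      exact ⟨q, (h1 q h2).2 hq, h2, h3⟩
  card := by
    intro j a
    have h1 : (Qc N C x j a).card ≤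
        ((asked (orc N a) x C.gates).map Prod.snd).toFinset.card := by
      refine card_le_card_of_injOn (fun p => str p) ?_ ?_
      · intro p hp
        rw [mem_coe, mem_Qc] at hp
        obtain ⟨q, hq, -, h2⟩ := hp
        rw [mem_coe, List.mem_toFinset, List.mem_map]
        exact ⟨q, hq, h2⟩
      · intro p _ p' _ h
        exact Fin.ext (str_injective h)
    refine h1.trans ((List.toFinset_card_le _).trans ?_)
    rw [List.length_map]
    exact (length_asked _ _ _).trans (CNT.length_gates_le C)

theorem eval_of_Q {C : Circuit} {x : List Bool} {j : ℕ} {a a' : Fin N → Bool}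
    (hj : depth C ≤ j) (h : ∀ p ∈ Qc N C x j a, a' p = a p) :
    C.eval (orc N a') x = C.eval (orc N a) x :=
  (agree j C.gates (agree_Q h)).1 C.out hj

/-- the circuits agree on the input `u` -/
def EvU (N : ℕ) (D H : Circuit) (u : List Bool) (a : Fin N → Bool) : Prop :=
  D.eval (orc N a) u = H.eval (orc N a) u

/-- the circuit computes the hard function -/
def Good (n t N : ℕ) (D : Circuit) (a : Fin N → Bool) : Prop :=
  ∀ u ∈ keys n, D.eval (orc N a) u = (hard n t).eval (orc N a) u

open Classical in
/-- one circuit: the probability that it computes the hard function on all inputs -/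
theorem one_bound {n t s m : ℕ} (hn : 1 ≤ n) (hN : 2 ^ (3 * n + 1) ≤ N) (ht : t * n < 2 ^ n)
    {D : Circuit} (hDs : D.size ≤ s) (hDt : depth D ≤ t) (hts : 4 * (t * s) ≤ 2 ^ n)
    (hm : m * (s + (t * n + 1) + 1) ≤ 2 ^ n) :
    (univ.filter fun a : Fin N → Bool => Good n t N D a).card * 4 ^ m ≤ 3 ^ m * 2 ^ N := by
  set H := hard n t with hH
  have hHg : H.gates.length = t * n + 1 := by
    rw [hH]
    unfold hard
    simp
  set jH := depth H with hjH
  have h := seq_bound (own := fun p : Fin N => (str p).take n) (w := s + (t * n + 1))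
    (E := EvU N D H)
    (W := fun u a => Qc N D u t a ∪ Qc N H u jH a) (T := keys n) ?_ ?_ ?_ m (keys n) ∅
    (fun _ => false) (Subset.refl _) (fun u _ p hp => absurd hp (notMem_empty _))
    (by rw [card_keys]; exact hm)
  · have h1 : cube (∅ : Finset (Fin N)) (fun _ => false) = univ := by
      ext a
      rw [mem_cube]
      exact ⟨fun _ => mem_univ _, fun _ p hp => absurd hp (notMem_empty _)⟩
    rw [h1, card_univ, Fintype.card_fun, Fintype.card_bool, Fintype.card_fin] at h
    refine le_trans (Nat.mul_le_mul_right _ (card_le_card ?_)) h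
    intro a ha
    rw [mem_filter] at ha ⊢
    exact ⟨ha.1, ha.2⟩
  · intro u _ a a' hW
    have h1 : ∀ p ∈ Qc N D u t a, a' p = a p := fun p hp => hW p (mem_union_left _ hp)
    have h2 : ∀ p ∈ Qc N H u jH a, a' p = a p := fun p hp => hW p (mem_union_right _ hp)
    refine ⟨?_, ?_⟩
    · have e1 : Qc N D u t a' = Qc N D u t a := (rnd N D u).same h1 (Nat.le_succ t)
      have e2 : Qc N H u jH a' = Qc N H u jH a := (rnd N H u).same h2 (Nat.le_succ jH)
      beta_reduce
      rw [e1, e2]
    · unfold EvU
      rw [eval_of_Q hDt h1, eval_of_Q hjH.ge h2]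
  · intro u _ a
    refine (card_union_le _ _).trans (Nat.add_le_add (((rnd N D u).card t a).trans hDs) ?_)
    have h1 : (Qc N H u jH a).card ≤
        ((asked (orc N a) u H.gates).map Prod.snd).toFinset.card := by
      refine card_le_card_of_injOn (fun p => str p) ?_ ?_
      · intro p hp
        rw [mem_coe, mem_Qc] at hp
        obtain ⟨q, hq, -, h2⟩ := hp
        rw [mem_coe, List.mem_toFinset, List.mem_map]
        exact ⟨q, hq, h2⟩
      · intro p _ p' _ h
        exact Fin.ext (str_injective h)
    refine h1.trans ((List.toFinset_card_le _).trans ?_)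
    rw [List.length_map]
    exact (length_asked _ _ _).trans hHg.le
  · intro u hu S b hS
    have hu' : u.length = n := mem_keys.1 hu
    have htake : ∀ (v : Fin n → Bool) (r : ℕ), (str (idx (qst u v r))).take n = u := by
      intro v r
      rw [str_idx]
      unfold qst
      rw [List.append_assoc, List.take_left' hu']
    have h1 := pointer_bound (ptr hu' hN ht) (rnd N D u) (S := S) b
      (fun k _ v i hp => hS _ hp (htake _ _)) (fun v hp => hS _ hp (htake _ _))
      (fun a => D.eval (orc N a) u) (fun a a' h => eval_of_Q hDt h)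
    have h2 : ∀ a : Fin N → Bool, (ptr hu' hN ht).fin a = H.eval (orc N a) u :=
      fun a => fin_eq hu' hN ht hn a
    have h3 : 2 * (t * D.size) ≤ 2 * (t * s) :=
      Nat.mul_le_mul_left _ (Nat.mul_le_mul_left _ hDs)
    have h4 : 2 * (2 ^ n + 2 * (t * D.size)) ≤ 3 * 2 ^ n := by omega
    have h6 : ((cube S b).filter (EvU N D H u)).card ≤
        ((cube S b).filter (fun a => D.eval (orc N a) u = (ptr hu' hN ht).fin a)).card := by
      refine card_le_card fun a ha => ?_
      rw [mem_filter] at ha ⊢
      rw [h2]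
      exact ⟨ha.1, ha.2⟩
    refine (Nat.mul_le_mul_right 4 h6).trans ?_
    generalize ((cube S b).filter
      (fun a => D.eval (orc N a) u = (ptr hu' hN ht).fin a)).card = X at h1 ⊢
    have h5 : X * 4 * 2 ^ n ≤ 3 * (cube S b).card * 2 ^ n := by
      calc X * 4 * 2 ^ n = 2 * (X * (2 * 2 ^ n)) := by ring
        _ ≤ 2 * ((2 ^ n + 2 * (t * D.size)) * (cube S b).card) := Nat.mul_le_mul_left _ h1
        _ = 2 * (2 ^ n + 2 * (t * D.size)) * (cube S b).card := by ring
        _ ≤ 3 * 2 ^ n * (cube S b).card := Nat.mul_le_mul_right _ h4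
        _ = 3 * (cube S b).card * 2 ^ n := by ring
    exact Nat.le_of_mul_le_mul_right h5 (by positivity)

/-- some small and shallow circuit computes the hard function -/
def EvD (n t s N : ℕ) (a : Fin N → Bool) : Prop :=
  ∃ D : Circuit, D.size ≤ s ∧ depth D ≤ t ∧ ∀ u : List Bool, u.length = n →
    D.eval (orc N a) u = (hard n t).eval (orc N a) u

open Classical in
theorem evD_bound {n t s m : ℕ} (hn : 1 ≤ n) (hN : 2 ^ (3 * n + 1) ≤ N) (ht : t * n < 2 ^ n)
    (hts : 4 * (t * s) ≤ 2 ^ n) (hm : m * (s + (t * n + 1) + 1) ≤ 2 ^ n) :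
    Ex unif (fun a : Fin N → Bool => if EvD n t s N a then (1 : ℝ) else 0) ≤
      nC n s * (3 / 4) ^ m := by
  obtain ⟨F, hF1, hF2⟩ := exists_circuits n s
  -- the shallow circuits, one for each function
  set P : Circuit → Prop := fun C => ∃ D : Circuit, D.size ≤ s ∧ depth D ≤ t ∧
    ∀ (A : Oracle) (x : List Bool), x.length = n → C.eval A x = D.eval A x with hP
  have h1 : ∀ a : Fin N → Bool, (if EvD n t s N a then (1 : ℝ) else 0) ≤
      ∑ C ∈ F.filter P, if Good n t N C a then (1 : ℝ) else 0 := by
    intro a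
    by_cases h : EvD n t s N a
    · rw [if_pos h]
      obtain ⟨D, hD1, hD2, hD3⟩ := h
      obtain ⟨C, hC, -, hev⟩ := hF2 D hD1
      have h3 : Good n t N C a := by
        intro u hu
        have hu' := mem_keys.1 hu
        rw [hev _ _ hu', hD3 u hu']
      refine le_trans ?_ (single_le_sum (f := fun C => if Good n t N C a then (1 : ℝ) else 0)
        (fun C _ => by split_ifs <;> norm_num) (mem_filter.2 ⟨hC, D, hD1, hD2, hev⟩))
      simp only [if_pos h3]
      exact le_rfl
    · rw [if_neg h]
      exact sum_nonneg fun C _ => by split_ifs <;> norm_num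
  have hu : ∀ b, 0 ≤ unif b := fun b => by unfold unif; norm_num
  refine (Ex_mono hu h1).trans ?_
  rw [Ex_sum]
  have h2 : ∀ C ∈ F.filter P, Ex unif (fun a : Fin N → Bool => if Good n t N C a then (1 : ℝ) else 0) ≤
      (3 / 4) ^ m := by
    intro C hC
    obtain ⟨D, hD1, hD2, hD3⟩ := (mem_filter.1 hC).2
    have h3 := one_bound hn hN ht hD1 hD2 hts hm
    have h4 : (univ.filter fun a : Fin N → Bool => Good n t N C a) =
        univ.filter fun a : Fin N → Bool => Good n t N D a := by
      ext a
      rw [mem_filter, mem_filter]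
      refine and_congr_right fun _ => forall_congr' fun u => forall_congr' fun hu => ?_
      rw [hD3 _ _ (mem_keys.1 hu)]
    refine (card_of_Ex (fun a : Fin N → Bool => Good n t N C a)).symm.le.trans ?_
    rw [h4]
    generalize (univ.filter fun a : Fin N → Bool => Good n t N D a).card = Y at h3 ⊢
    have h5 : (Y : ℝ) * 4 ^ m ≤ 3 ^ m * 2 ^ N := by exact_mod_cast h3
    rw [Real.rpow_neg (by norm_num), Real.rpow_natCast, div_pow, ← div_eq_mul_inv,
      div_le_div_iff₀ (by positivity) (by positivity)]
    exact h5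
  refine (sum_le_sum h2).trans ?_
  rw [sum_const, nsmul_eq_mul]
  refine mul_le_mul_of_nonneg_right ?_ (by positivity)
  exact_mod_cast (card_le_card (filter_subset _ _)).trans hF1

end Pool.Agent.TH707.DP
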