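import Pool.Agent.TH707.DP.Hard2
import Pool.Agent.TH707.DP.Event

/-!
# Pointer chasing on all inputs at once, against any devices with few rounds of questions
-/

set_option autoImplicit false

namespace Pool.Agent.TH707.DP

open Pool.Agent.NPC Pool.Agent.H620R2.Gauge Pool.Agent.H622R2.Ckt Finset
open Pool.Agent.TH707.EC
open H568R2

variable {N : ℕ}

/-- the circuit agrees with the hard function on the input `u` -/
def AgU (n l t N : ℕ) (D : Circuit) (u : List Bool) (a : Fin N → Bool) : Prop :=
  D.eval (orc N a) u = (hard2 n l t).eval (orc N a) u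

/-- the circuit computes the hard function -/
def AgAll (n l t N : ℕ) (D : Circuit) (a : Fin N → Bool) : Prop :=
  ∀ u ∈ keys n, AgU n l t N D u a

theorem card_Qc {C : Circuit} (x : List Bool) (j : ℕ) (a : Fin N → Bool) :
    (Qc N C x j a).card ≤ C.gates.length := by
  have h1 : (Qc N C x j a).card ≤
      ((asked (orc N a) x C.gates).map Prod.snd).toFinset.card := by
    refine card_le_card_of_injOn (fun p => str p) ?_ ?_
    · intro p hp
      rw [mem_coe, mem_Qc] at hp
      obtain ⟨q, hq, -, h2⟩ := hp
      rw [mem_coe, List.mem_toFinset, List.mem_map]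
      exact ⟨q, hq, h2⟩
    · intro p _ p' _ h
      exact Fin.ext (str_injective h)
  refine h1.trans ((List.toFinset_card_le _).trans ?_)
  rw [List.length_map]
  exact length_asked _ _ _

open Classical in
/-- One circuit `D`. The rounds `R` of at most `r` questions are only used for single inputs. -/
theorem many_bound {n l t s r m : ℕ} (hl : 1 ≤ l) (hN : 2 ^ (n + l + n + 1) ≤ N)
    (ht : t * l < 2 ^ n) {D : Circuit} (hDs : D.size ≤ s)
    (R : List Bool → Rounds (Fin N) r)
    (hout : ∀ u, u.length = n → ∀ a a', (∀ p ∈ (R u).Q t a, a' p = a p) →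
      D.eval (orc N a') u = D.eval (orc N a) u)
    (hts : 4 * (t * r) ≤ 2 ^ l) (hm : m * (s + (t * l + 1) + 1) ≤ 2 ^ n) :
    (univ.filter fun a : Fin N → Bool => AgAll n l t N D a).card * 4 ^ m ≤ 3 ^ m * 2 ^ N := by
  set H := hard2 n l t with hH
  have hHg : H.gates.length = t * l + 1 := by
    rw [hH]
    unfold hard2
    simp
  set jH := depth H with hjH
  set jD := depth D with hjD
  have h := seq_bound (own := fun p : Fin N => (str p).take n) (w := s + (t * l + 1))
    (E := AgU n l t N D)
    (W := fun u a => Qc N D u jD a ∪ Qc N H u jH a) (T := keys n) ?_ ?_ ?_ m (keys n) ∅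
    (fun _ => false) (Subset.refl _) (fun u _ p hp => absurd hp (notMem_empty _))
    (by rw [card_keys]; exact hm)
  · have h1 : cube (∅ : Finset (Fin N)) (fun _ => false) = univ := by
      ext a
      rw [mem_cube]
      exact ⟨fun _ => mem_univ _, fun _ p hp => absurd hp (notMem_empty _)⟩
    rw [h1, card_univ, Fintype.card_fun, Fintype.card_bool, Fintype.card_fin] at h
    refine le_trans (Nat.mul_le_mul_right _ (card_le_card ?_)) h
    intro a ha
    rw [mem_filter] at ha ⊢
    exact ⟨ha.1, ha.2⟩
  · intro u _ a a' hW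
    have h1 : ∀ p ∈ Qc N D u jD a, a' p = a p := fun p hp => hW p (mem_union_left _ hp)
    have h2 : ∀ p ∈ Qc N H u jH a, a' p = a p := fun p hp => hW p (mem_union_right _ hp)
    refine ⟨?_, ?_⟩
    · have e1 : Qc N D u jD a' = Qc N D u jD a := (rnd N D u).same h1 (Nat.le_succ jD)
      have e2 : Qc N H u jH a' = Qc N H u jH a := (rnd N H u).same h2 (Nat.le_succ jH)
      rw [e1, e2]
    · unfold AgU
      rw [eval_of_Q hjD.ge h1, eval_of_Q hjH.ge h2]
  · intro u _ a
    refine (card_union_le _ _).trans (Nat.add_le_add ?_ ?_)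
    · exact (card_Qc u jD a).trans ((CNT.length_gates_le D).trans hDs)
    · exact (card_Qc u jH a).trans hHg.le
  · intro u hu S b hS
    have hu' : u.length = n := mem_keys.1 hu
    have htake : ∀ (v : Fin l → Bool) (r : ℕ), (str (idx (qst2 u n v r))).take n = u := by
      intro v r
      rw [str_idx]
      unfold qst2
      rw [List.append_assoc, List.take_left' hu']
    have h1 := pointer_bound (ptr2 hu' hN ht) (R u) (S := S) b
      (fun k _ v i hp => hS _ hp (htake _ _)) (fun v hp => hS _ hp (htake _ _))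
      (fun a => D.eval (orc N a) u) (fun a a' h => hout u hu' a a' h)
    have h2 : ∀ a : Fin N → Bool, (ptr2 hu' hN ht).fin a = H.eval (orc N a) u :=
      fun a => fin_eq2 hu' hN ht hl a
    have h4 : 2 * (2 ^ l + 2 * (t * r)) ≤ 3 * 2 ^ l := by omega
    have h6 : ((cube S b).filter (AgU n l t N D u)).card ≤
        ((cube S b).filter (fun a => D.eval (orc N a) u = (ptr2 hu' hN ht).fin a)).card := by
      refine card_le_card fun a ha => ?_
      rw [mem_filter] at ha ⊢
      rw [h2]
      exact ⟨ha.1, ha.2⟩
    refine (Nat.mul_le_mul_right 4 h6).trans ?_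
    generalize ((cube S b).filter
      (fun a => D.eval (orc N a) u = (ptr2 hu' hN ht).fin a)).card = X at h1 ⊢
    have h5 : X * 4 * 2 ^ l ≤ 3 * (cube S b).card * 2 ^ l := by
      calc X * 4 * 2 ^ l = 2 * (X * (2 * 2 ^ l)) := by ring
        _ ≤ 2 * ((2 ^ l + 2 * (t * r)) * (cube S b).card) := Nat.mul_le_mul_left _ h1
        _ = 2 * (2 ^ l + 2 * (t * r)) * (cube S b).card := by ring
        _ ≤ 3 * 2 ^ l * (cube S b).card := Nat.mul_le_mul_right _ h4
        _ = 3 * (cube S b).card * 2 ^ l := by ring
    exact Nat.le_of_mul_le_mul_right h5 (by positivity)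

open Classical in
/-- Many devices: the devices are represented by circuits of size at most `s`, in the sense that a
device and the circuit agree on all inputs of length `n`. -/
theorem event_bound {n l t s r m : ℕ} (hl : 1 ≤ l) (hN : 2 ^ (n + l + n + 1) ≤ N)
    (ht : t * l < 2 ^ n) (Dev : Circuit → Prop) (E : (Fin N → Bool) → Prop)
    (hE : ∀ a, E a → ∃ C : Circuit, C.size ≤ s ∧ Dev C ∧
      ∀ u : List Bool, u.length = n → C.eval (orc N a) u = (hard2 n l t).eval (orc N a) u)
    (hDev : ∀ C, Dev C → ∃ R : List Bool → Rounds (Fin N) r, ∀ u, u.length = n → ∀ a a',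
      (∀ p ∈ (R u).Q t a, a' p = a p) → C.eval (orc N a') u = C.eval (orc N a) u)
    (hts : 4 * (t * r) ≤ 2 ^ l) (hm : m * (s + (t * l + 1) + 1) ≤ 2 ^ n) :
    Ex unif (fun a : Fin N → Bool => if E a then (1 : ℝ) else 0) ≤
      nC n s * (3 / 4) ^ m := by
  obtain ⟨F, hF1, hF2⟩ := exists_circuits n s
  -- the circuits that are devices
  set P : Circuit → Prop := fun C => C.size ≤ s ∧ ∃ D : Circuit, Dev D ∧
    ∀ (A : Oracle) (x : List Bool), x.length = n → C.eval A x = D.eval A x with hP
  have h1 : ∀ a : Fin N → Bool, (if E a then (1 : ℝ) else 0) ≤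
      ∑ C ∈ F.filter P, if AgAll n l t N C a then (1 : ℝ) else 0 := by
    intro a
    by_cases h : E a
    · rw [if_pos h]
      obtain ⟨D, hD1, hD2, hD3⟩ := hE a h
      obtain ⟨C, hC, hCs, hev⟩ := hF2 D hD1
      have h3 : AgAll n l t N C a := by
        intro u hu
        have hu' := mem_keys.1 hu
        unfold AgU
        rw [hev _ _ hu', hD3 u hu']
      refine le_trans ?_ (single_le_sum
        (f := fun C => if AgAll n l t N C a then (1 : ℝ) else 0)
        (fun C _ => by split_ifs <;> norm_num) (mem_filter.2 ⟨hC, hCs, D, hD2, hev⟩))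
      simp only [if_pos h3]
      exact le_rfl
    · rw [if_neg h]
      exact sum_nonneg fun C _ => by split_ifs <;> norm_num
  have hu : ∀ b, 0 ≤ unif b := fun b => by unfold unif; norm_num
  refine (Ex_mono hu h1).trans ?_
  rw [Ex_sum]
  have h2 : ∀ C ∈ F.filter P,
      Ex unif (fun a : Fin N → Bool => if AgAll n l t N C a then (1 : ℝ) else 0) ≤
      (3 / 4) ^ m := by
    intro C hC
    obtain ⟨hCs, D, hD1, hD2⟩ := (mem_filter.1 hC).2
    obtain ⟨R, hR⟩ := hDev D hD1
    have h3 := many_bound hl hN ht hCs R (fun u hu a a' h => by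
      rw [hD2 _ _ hu, hD2 _ _ hu]
      exact hR u hu a a' h) hts hm
    refine (card_of_Ex (fun a : Fin N → Bool => AgAll n l t N C a)).symm.le.trans ?_
    generalize (univ.filter fun a : Fin N → Bool => AgAll n l t N C a).card = Y at h3 ⊢
    have h5 : (Y : ℝ) * 4 ^ m ≤ 3 ^ m * 2 ^ N := by exact_mod_cast h3
    rw [Real.rpow_neg (by norm_num), Real.rpow_natCast, div_pow, ← div_eq_mul_inv,
      div_le_div_iff₀ (by positivity) (by positivity)]
    exact h5
  refine (sum_le_sum h2).trans ?_
  rw [sum_const, nsmul_eq_mul]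
  refine mul_le_mul_of_nonneg_right ?_ (by positivity)
  exact_mod_cast (card_le_card (filter_subset _ _)).trans hF1

/-- a fixed set of questions -/
def constR {r : ℕ} (C : Finset (Fin N)) (hC : C.card ≤ r) : Rounds (Fin N) r where
  Q j _ := if j = 0 then ∅ else C
  zero := fun a => by simp
  mono := by
    intro j a
    by_cases h : j = 0
    · simp [h]
    · simp [h]
  step := fun j a a' _ => rfl
  card := by
    intro j a
    by_cases h : j = 0
    · simp [h]
    · simp [h, hC]

end Pool.Agent.TH707.DP
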