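import Pool.Agent.TH707.DP.Rnd
import Pool.Agent.H622R2.Ckt.CIR

/-!
# The hard circuits: pointer chasing in the oracle
-/

set_option autoImplicit false

namespace Pool.Agent.TH707.DP

open Pool.Agent.NPC Pool.Agent.H620R2.Gauge Pool.Agent.H622R2.Ckt Finset

/-- the last `n` binary digits of `r` -/
def bitsL (n r : ℕ) : List Bool := (List.range n).map fun i => r.testBit i

theorem length_bitsL (n r : ℕ) : (bitsL n r).length = n := by
  unfold bitsL
  rw [List.length_map, List.length_range]

theorem bitsL_inj {n r r' : ℕ} (hr : r < 2 ^ n) (hr' : r' < 2 ^ n) (h : bitsL n r = bitsL n r') :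
    r = r' := by
  apply Nat.eq_of_testBit_eq
  intro i
  by_cases hi : i < n
  · unfold bitsL at h
    have h1 := List.map_inj_left.1 h i (List.mem_range.2 hi)
    exact h1
  · push Not at hi
    rw [Nat.testBit_lt_two_pow (hr.trans_le (Nat.pow_le_pow_right (by norm_num) hi)),
      Nat.testBit_lt_two_pow (hr'.trans_le (Nat.pow_le_pow_right (by norm_num) hi))]

/-- the input wires -/
def inW (n : ℕ) : List Wire := (List.range n).map Wire.inp

/-- the wires of the address on the level `j` -/
def vW (n : ℕ) : ℕ → List Wire
  | 0 => List.replicate n (Wire.cst false)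
  | j + 1 => (List.range n).map fun i => Wire.gate (j * n + i)

/-- the gate number `r` -/
def hG (n r : ℕ) : Gate := .ask (inW n ++ vW n (r / n) ++ (bitsL n r).map Wire.cst)

/-- the hard circuit with `t` levels -/
def hard (n t : ℕ) : Circuit := ⟨(List.range (t * n + 1)).map (hG n), .gate (t * n)⟩

/-- the addresses -/
def walk (A : Oracle) (u : List Bool) (n : ℕ) : ℕ → List Bool
  | 0 => List.replicate n false
  | j + 1 => (List.range n).map fun i => A (u ++ walk A u n j ++ bitsL n (j * n + i))

theorem length_walk (A : Oracle) (u : List Bool) (n j : ℕ) : (walk A u n j).length = n := by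
  cases j with
  | zero => simp [walk]
  | succ j => simp [walk]

theorem map_inW {u : List Bool} {n : ℕ} (hu : u.length = n) (v : List Bool) :
    (inW n).map (Wire.val u v) = u := by
  subst hu
  unfold inW
  rw [List.map_map]
  refine Eq.trans ?_ (CIR.map_getD u)
  rfl

theorem gateVals_hard (A : Oracle) {u : List Bool} {n : ℕ} (hu : u.length = n) (hn : 1 ≤ n)
    (R : ℕ) : gateVals A u ((List.range R).map (hG n)) =
      (List.range R).map fun r => A (u ++ walk A u n (r / n) ++ bitsL n r) := by
  induction R with
  | zero => rfl
  | succ R ih =>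
    rw [List.range_succ, List.map_append, List.map_append, List.map_cons, List.map_nil,
      List.map_cons, List.map_nil, gateVals_snoc, ih]
    congr 1
    simp only [hG, Gate.val, List.cons.injEq, and_true]
    congr 1
    rw [List.map_append, List.map_append, map_inW hu, List.map_map]
    congr 1
    · congr 1
      -- the address wires
      rcases Nat.eq_zero_or_pos (R / n) with h | h
      · rw [h]
        simp [vW, walk, Wire.val]
      · obtain ⟨j, hj⟩ : ∃ j, R / n = j + 1 := ⟨R / n - 1, by omega⟩
        rw [hj]
        simp only [vW, walk, List.map_map]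
        refine List.map_congr_left fun i hi => ?_
        rw [List.mem_range] at hi
        simp only [Function.comp_apply, Wire.val]
        have h1 : j * n + i < R := by
          have h2 : (j + 1) * n ≤ R := by
            rw [← hj]
            exact Nat.div_mul_le_self R n
          have h3 : (j + 1) * n = j * n + n := by ring
          omega
        rw [List.getD_eq_getElem _ _ (by rw [List.length_map, List.length_range]; exact h1),
          List.getElem_map, List.getElem_range]
        have h2 : (j * n + i) / n = j := by
          rw [Nat.add_comm, Nat.add_mul_div_right _ _ (by omega), Nat.div_eq_of_lt hi, zero_add]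
        rw [h2]
    · refine Eq.trans (List.map_congr_left fun b _ => ?_) (List.map_id _)
      rfl

theorem hard_eval (A : Oracle) {u : List Bool} {n : ℕ} (hu : u.length = n) (hn : 1 ≤ n) (t : ℕ) :
    (hard n t).eval A u = A (u ++ walk A u n t ++ bitsL n (t * n)) := by
  unfold Circuit.eval hard
  simp only [Wire.val]
  rw [gateVals_hard A hu hn, List.getD_eq_getElem _ _ (by
    rw [List.length_map, List.length_range]
    omega), List.getElem_map, List.getElem_range, Nat.mul_div_cancel _ (by omega)]

theorem hard_size (n t : ℕ) : (hard n t).size = (t * n + 1) * (3 * n + 1) := by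
  unfold Circuit.size hard
  simp only
  rw [List.map_map]
  have h : ∀ r ∈ List.range (t * n + 1), (Gate.size ∘ hG n) r = 3 * n + 1 := by
    intro r _
    simp only [Function.comp_apply, hG, Gate.size, List.length_append, List.length_map,
      length_bitsL]
    have h1 : (inW n).length = n := by simp [inW]
    have h2 : (vW n (r / n)).length = n := by
      cases r / n with
      | zero => simp [vW]
      | succ j => simp [vW]
    omega
  rw [List.map_congr_left h]
  simp

/-! ### the pointers -/

/-- the question of the bit with number `r` at the address `v` -/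
def qst (u : List Bool) {n : ℕ} (v : Fin n → Bool) (r : ℕ) : List Bool :=
  u ++ List.ofFn v ++ bitsL n r

theorem length_qst {u : List Bool} {n : ℕ} (hu : u.length = n) (v : Fin n → Bool) (r : ℕ) :
    (qst u v r).length = 3 * n := by
  unfold qst
  rw [List.length_append, List.length_append, List.length_ofFn, length_bitsL, hu]
  omega

theorem qst_inj {u : List Bool} {n : ℕ} {v v' : Fin n → Bool} {r r' : ℕ} (hr : r < 2 ^ n)
    (hr' : r' < 2 ^ n) (h : qst u v r = qst u v' r') : v = v' ∧ r = r' := by
  unfold qst at h
  obtain ⟨h1, h2⟩ := List.append_inj' h (by rw [length_bitsL, length_bitsL])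
  exact ⟨List.ofFn_injective (List.append_cancel_left h1), bitsL_inj hr hr' h2⟩

theorem idx_qst {u : List Bool} {n N : ℕ} (hu : u.length = n) (hN : 2 ^ (3 * n + 1) ≤ N)
    (v : Fin n → Bool) (r : ℕ) : idx (qst u v r) < N := by
  have h1 := idx_lt (qst u v r)
  rw [length_qst hu] at h1
  omega

/-- the system of pointers for the input `u` -/
def ptr {u : List Bool} {n t N : ℕ} (hu : u.length = n) (hN : 2 ^ (3 * n + 1) ≤ N)
    (ht : t * n < 2 ^ n) : Ptr (Fin N) n t where
  pos j v i := ⟨idx (qst u v (j * n + i)), idx_qst hu hN _ _⟩
  last v := ⟨idx (qst u v (t * n)), idx_qst hu hN _ _⟩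
  v0 := fun _ => false
  inj := by
    intro j hj j' hj' v v' i i' h
    have h1 := congrArg str (Fin.mk.inj h)
    rw [str_idx, str_idx] at h1
    have hlt : ∀ k < t, ∀ l : Fin n, k * n + l < 2 ^ n := by
      intro k hk l
      have h2 : (k + 1) * n ≤ t * n := Nat.mul_le_mul_right _ hk
      have h3 : (k + 1) * n = k * n + n := by ring
      have := l.isLt
      omega
    obtain ⟨h2, h3⟩ := qst_inj (hlt j hj i) (hlt j' hj' i') h1
    have hn : 0 < n := lt_of_le_of_lt (Nat.zero_le _) i.isLt
    have h4 : j = j' := by
      have h5 : ∀ (k : ℕ) (l : Fin n), (k * n + l) / n = k := by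
        intro k l
        rw [Nat.add_comm, Nat.add_mul_div_right _ _ hn, Nat.div_eq_of_lt l.isLt, zero_add]
      rw [← h5 j i, ← h5 j' i', h3]
    subst h4
    exact ⟨rfl, h2, Fin.ext (by omega)⟩
  ne := by
    intro j hj v v' i h
    have h1 := congrArg str (Fin.mk.inj h)
    rw [str_idx, str_idx] at h1
    have h2 : (j + 1) * n ≤ t * n := Nat.mul_le_mul_right _ hj
    have h3 : (j + 1) * n = j * n + n := by ring
    have := i.isLt
    have h4 := (qst_inj (by omega) ht h1).2
    omega
  last_inj := by
    intro v v' h
    have h1 := congrArg str (Fin.mk.inj h)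
    rw [str_idx, str_idx] at h1
    exact (qst_inj ht ht h1).1

variable {u : List Bool} {n t N : ℕ} (hu : u.length = n) (hN : 2 ^ (3 * n + 1) ≤ N)
  (ht : t * n < 2 ^ n)

include hu hN in
theorem orc_qst (a : Fin N → Bool) (v : Fin n → Bool) (r : ℕ) :
    orc N a (qst u v r) = a ⟨idx (qst u v r), idx_qst hu hN v r⟩ := by
  unfold orc
  rw [dif_pos (idx_qst hu hN v r)]

theorem ofFn_v (a : Fin N → Bool) (j : ℕ) :
    List.ofFn ((ptr hu hN ht).v j a) = walk (orc N a) u n j := by
  induction j with
  | zero =>
    show List.ofFn (fun _ : Fin n => false) = List.replicate n false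
    rw [List.ofFn_const]
  | succ j ih =>
    show List.ofFn (fun i : Fin n => a ⟨idx (qst u ((ptr hu hN ht).v j a) (j * n + i)), _⟩) =
      (List.range n).map fun i => orc N a (u ++ walk (orc N a) u n j ++ bitsL n (j * n + i))
    rw [← ih]
    have h1 : ∀ i : Fin n, a ⟨idx (qst u ((ptr hu hN ht).v j a) (j * n + i)),
        idx_qst hu hN _ _⟩ = orc N a (qst u ((ptr hu hN ht).v j a) (j * n + i)) :=
      fun i => (orc_qst hu hN a _ _).symm
    rw [show (fun i : Fin n => a ⟨idx (qst u ((ptr hu hN ht).v j a) (j * n + i)),
        idx_qst hu hN _ _⟩) = fun i : Fin n => orc N a (qst u ((ptr hu hN ht).v j a) (j * n + i))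
      from funext h1]
    apply List.ext_getElem
    · rw [List.length_ofFn, List.length_map, List.length_range]
    · intro i h2 h3
      rw [List.getElem_ofFn, List.getElem_map, List.getElem_range]
      rfl

theorem fin_eq (hn : 1 ≤ n) (a : Fin N → Bool) :
    (ptr hu hN ht).fin a = (hard n t).eval (orc N a) u := by
  rw [hard_eval _ hu hn]
  rw [← ofFn_v hu hN ht]
  exact (orc_qst hu hN a _ _).symm

end Pool.Agent.TH707.DP
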