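import Pool.Agent.TH707.DP.Pointer

/-!
# Many blocks, one after the other
-/

set_option autoImplicit false

namespace Pool.Agent.TH707.DP

open Finset

variable {I : Type} [Fintype I] [DecidableEq I]

theorem cube_self {S : Finset I} {b a : I → Bool} (h : a ∈ cube S b) : cube S a = cube S b := by
  ext a'
  rw [mem_cube] at h
  rw [mem_cube, mem_cube]
  exact ⟨fun h' p hp => (h' p hp).trans (h p hp), fun h' p hp => (h' p hp).trans (h p hp).symm⟩

open Classical in
/-- If every event has probability at most `3 / 4`, whatever is known outside of its block, and is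
determined by at most `w` positions, then the events of `m (w + 1)` blocks have probability at most
`(3 / 4) ^ m`. -/
theorem seq_bound {U : Type} (own : I → U) (w : ℕ)
    (E : U → (I → Bool) → Prop) (W : U → (I → Bool) → Finset I) (T : Finset U)
    (hW : ∀ u ∈ T, ∀ a a', (∀ p ∈ W u a, a' p = a p) → W u a' = W u a ∧ (E u a' ↔ E u a))
    (hw : ∀ u ∈ T, ∀ a, (W u a).card ≤ w)
    (hE : ∀ u ∈ T, ∀ (S : Finset I) (b : I → Bool), (∀ p ∈ S, own p ≠ u) →
      ((cube S b).filter (E u)).card * 4 ≤ 3 * (cube S b).card)
    (m : ℕ) : ∀ (V : Finset U) (S : Finset I) (b : I → Bool), V ⊆ T →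
      (∀ u ∈ V, ∀ p ∈ S, own p ≠ u) → m * (w + 1) ≤ V.card →
      ((cube S b).filter fun a => ∀ u ∈ V, E u a).card * 4 ^ m ≤ 3 ^ m * (cube S b).card := by
  induction m with
  | zero =>
    intro V S b _ _ _
    rw [pow_zero, pow_zero, mul_one, one_mul]
    exact card_filter_le _ _
  | succ m ih =>
    intro V S b hVT hVS hm
    have hV : V.Nonempty := by
      rw [← card_pos]
      have : 0 < (m + 1) * (w + 1) := by positivity
      omega
    obtain ⟨u, hu⟩ := hV
    set A0 := (cube S b).filter (E u) with hA0
    set X := (cube S b).filter (fun a => ∀ u ∈ V, E u a) with hX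
    set K : (I → Bool) → Finset (I → Bool) := fun a => cube (S ∪ W u a) a with hK
    -- the classes
    have hKa : ∀ a, a ∈ K a := fun a => by
      rw [hK]
      exact mem_cube.2 fun p _ => rfl
    have hKK : ∀ a a', a' ∈ K a → K a' = K a := by
      intro a a' h
      rw [hK] at h ⊢
      beta_reduce at h ⊢
      have h1 := mem_cube.1 h
      have h2 := (hW u (hVT hu) a a' fun p hp => h1 p (mem_union_right _ hp)).1
      rw [h2]
      exact cube_self h
    have hKE : ∀ a a', a' ∈ K a → (E u a' ↔ E u a) := by
      intro a a' h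
      rw [hK] at h
      have h1 := mem_cube.1 h
      exact (hW u (hVT hu) a a' fun p hp => h1 p (mem_union_right _ hp)).2
    have hKS : ∀ a a', a ∈ cube S b → a' ∈ K a → a' ∈ cube S b := by
      intro a a' ha h
      rw [hK] at h
      have h1 := mem_cube.1 h
      have h2 := mem_cube.1 ha
      exact mem_cube.2 fun p hp => (h1 p (mem_union_left _ hp)).trans (h2 p hp)
    have hXA : X ⊆ A0 := by
      intro a ha
      rw [hX, mem_filter] at ha
      rw [hA0, mem_filter]
      exact ⟨ha.1, ha.2 u hu⟩
    have hfib : ∀ κ ∈ A0.image K, (A0.filter fun a => K a = κ).card = κ.card := by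
      intro κ hκ
      rw [mem_image] at hκ
      obtain ⟨a, ha, rfl⟩ := hκ
      congr 1
      rw [hA0, mem_filter] at ha
      ext a'
      rw [mem_filter, hA0, mem_filter]
      constructor
      · rintro ⟨-, h⟩
        rw [← h]
        exact hKa a'
      · intro h
        exact ⟨⟨hKS a a' ha.1 h, (hKE a a' h).2 ha.2⟩, hKK a a' h⟩
    have hfibX : ∀ κ ∈ A0.image K, (X.filter fun a => K a = κ).card * 4 ^ m ≤ 3 ^ m * κ.card := by
      intro κ hκ
      rw [mem_image] at hκ
      obtain ⟨a, ha, rfl⟩ := hκ
      rw [hA0, mem_filter] at ha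
      set V' := (V.erase u).filter (fun u' => ∀ p ∈ W u a, own p ≠ u') with hV'
      have hV'V : V' ⊆ V := (filter_subset _ _).trans (erase_subset _ _)
      have hcard : m * (w + 1) ≤ V'.card := by
        have h1 : (V.erase u) ⊆ V' ∪ (W u a).image own := by
          intro u' hu'
          rw [mem_union, hV', mem_filter]
          by_cases h : ∀ p ∈ W u a, own p ≠ u'
          · exact Or.inl ⟨hu', h⟩
          · push Not at h
            obtain ⟨p, hp, h⟩ := h
            exact Or.inr (mem_image.2 ⟨p, hp, h⟩)
        have h2 := (card_le_card h1).trans (card_union_le _ _)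
        have h3 : ((W u a).image own).card ≤ w := card_image_le.trans (hw u (hVT hu) a)
        rw [card_erase_of_mem hu] at h2
        have h4 : (m + 1) * (w + 1) = m * (w + 1) + w + 1 := by ring
        omega
      have h1 := ih V' (S ∪ W u a) a (hV'V.trans hVT) (by
        intro u' hu' p hp
        rcases mem_union.1 hp with h | h
        · exact hVS u' (hV'V hu') p h
        · rw [hV', mem_filter] at hu'
          exact hu'.2 p h) hcard
      refine le_trans (Nat.mul_le_mul_right _ (card_le_card ?_)) h1
      intro a' ha'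
      rw [mem_filter] at ha'
      obtain ⟨h2, h3⟩ := ha'
      rw [hX, mem_filter] at h2
      rw [mem_filter]
      refine ⟨?_, fun u' hu' => h2.2 u' (hV'V hu')⟩
      have h4 := hKa a'
      rw [h3] at h4
      exact h4
    have hX1 : X.card = ∑ κ ∈ A0.image K, (X.filter fun a => K a = κ).card :=
      card_eq_sum_card_fiberwise fun a ha => mem_coe.2 (mem_image_of_mem _ (hXA ha))
    have hA1 : A0.card = ∑ κ ∈ A0.image K, (A0.filter fun a => K a = κ).card :=
      card_eq_sum_card_fiberwise fun a ha => mem_coe.2 (mem_image_of_mem _ ha)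
    have h1 : X.card * 4 ^ m ≤ 3 ^ m * A0.card := by
      rw [hX1, hA1, sum_mul, mul_sum]
      refine sum_le_sum fun κ hκ => ?_
      rw [hfib κ hκ]
      exact hfibX κ hκ
    have h2 := hE u (hVT hu) S b (hVS u hu)
    calc X.card * 4 ^ (m + 1) = X.card * 4 ^ m * 4 := by ring
      _ ≤ 3 ^ m * A0.card * 4 := Nat.mul_le_mul_right _ h1
      _ = 3 ^ m * (A0.card * 4) := by ring
      _ ≤ 3 ^ m * (3 * (cube S b).card) := Nat.mul_le_mul_left _ h2
      _ = 3 ^ (m + 1) * (cube S b).card := by ring

end Pool.Agent.TH707.DP
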