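import Pool.Agent.TH707.DP.Defs
import Pool.Agent.TH707.DP.Seq
import Pool.Agent.H622R2.Ckt.CNT
import Pool.Agent.TH707.EC.Code
import Pool.Agent.H620R2.Gauge.Blk

/-!
# The questions of a circuit, ordered by depth
-/

set_option autoImplicit false

namespace Pool.Agent.TH707.DP

open Pool.Agent.NPC Pool.Agent.H620R2.Gauge Pool.Agent.H622R2.Ckt Finset

/-- the question asked by a gate, with its depth -/
def asks (x v : List Bool) (d : List ℕ) : Gate → List (ℕ × List Bool)
  | .ask l => [(gateDepth d (.ask l), l.map (Wire.val x v))]
  | _ => []

/-- values, depths and questions -/
def stp (A : Oracle) (x : List Bool) (st : List Bool × List ℕ × List (ℕ × List Bool)) (g : Gate) :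
    List Bool × List ℕ × List (ℕ × List Bool) :=
  (st.1 ++ [g.val A x st.1], st.2.1 ++ [gateDepth st.2.1 g], st.2.2 ++ asks x st.1 st.2.1 g)

/-- values, depths and questions of all gates -/
def runC (A : Oracle) (x : List Bool) (gs : List Gate) :
    List Bool × List ℕ × List (ℕ × List Bool) :=
  gs.foldl (stp A x) ([], [], [])

/-- the questions of the circuit -/
def asked (A : Oracle) (x : List Bool) (gs : List Gate) : List (ℕ × List Bool) := (runC A x gs).2.2

theorem gateVals_snoc (A : Oracle) (x : List Bool) (gs : List Gate) (g : Gate) :
    gateVals A x (gs ++ [g]) = gateVals A x gs ++ [g.val A x (gateVals A x gs)] := by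
  unfold gateVals
  rw [List.foldl_append]
  rfl

theorem depths_snoc (gs : List Gate) (g : Gate) :
    depths (gs ++ [g]) = depths gs ++ [gateDepth (depths gs) g] := by
  unfold depths
  rw [List.foldl_append]
  rfl

theorem runC_snoc (A : Oracle) (x : List Bool) (gs : List Gate) (g : Gate) :
    runC A x (gs ++ [g]) = stp A x (runC A x gs) g := by
  unfold runC
  rw [List.foldl_append]
  rfl

theorem runC_fst (A : Oracle) (x : List Bool) (gs : List Gate) :
    (runC A x gs).1 = gateVals A x gs := by
  induction gs using List.reverseRecOn with
  | nil => rfl
  | append_singleton gs g ih =>
    rw [runC_snoc, gateVals_snoc]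
    unfold stp
    rw [ih]

theorem runC_snd (A : Oracle) (x : List Bool) (gs : List Gate) :
    (runC A x gs).2.1 = depths gs := by
  induction gs using List.reverseRecOn with
  | nil => rfl
  | append_singleton gs g ih =>
    rw [runC_snoc, depths_snoc]
    unfold stp
    rw [ih]

theorem asked_snoc (A : Oracle) (x : List Bool) (gs : List Gate) (g : Gate) :
    asked A x (gs ++ [g]) = asked A x gs ++ asks x (gateVals A x gs) (depths gs) g := by
  unfold asked
  rw [runC_snoc]
  unfold stp
  rw [runC_fst, runC_snd]

theorem length_vals (A : Oracle) (x : List Bool) (gs : List Gate) :
    (gateVals A x gs).length = gs.length := by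
  induction gs using List.reverseRecOn with
  | nil => rfl
  | append_singleton gs g ih =>
    rw [gateVals_snoc, List.length_append, List.length_append, ih]
    rfl

theorem length_depths (gs : List Gate) : (depths gs).length = gs.length := by
  induction gs using List.reverseRecOn with
  | nil => rfl
  | append_singleton gs g ih =>
    rw [depths_snoc, List.length_append, List.length_append, ih]
    rfl

theorem length_asked (A : Oracle) (x : List Bool) (gs : List Gate) :
    (asked A x gs).length ≤ gs.length := by
  induction gs using List.reverseRecOn with
  | nil => exact le_rfl
  | append_singleton gs g ih =>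
    rw [asked_snoc, List.length_append, List.length_append]
    have : (asks x (gateVals A x gs) (depths gs) g).length ≤ 1 := by
      cases g <;> simp [asks]
    simp only [List.length_cons, List.length_nil]
    omega

theorem depth_pos (A : Oracle) (x : List Bool) (gs : List Gate) :
    ∀ q ∈ asked A x gs, 1 ≤ q.1 := by
  induction gs using List.reverseRecOn with
  | nil =>
    intro q hq
    simp [asked, runC] at hq
  | append_singleton gs g ih =>
    intro q hq
    rw [asked_snoc, List.mem_append] at hq
    rcases hq with hq | hq
    · exact ih q hq
    · cases g with
      | ask l =>
        simp only [asks, List.mem_singleton] at hq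
        rw [hq]
        unfold gateDepth
        simp only
        omega
      | _ => simp [asks] at hq

theorem le_foldr_max {l : List ℕ} {a : ℕ} (h : a ∈ l) : a ≤ l.foldr max 0 := by
  induction l with
  | nil => simp at h
  | cons b l ih =>
    rcases List.mem_cons.1 h with rfl | h
    · exact le_max_left _ _
    · exact (ih h).trans (le_max_right _ _)

/-- two oracles which agree on the questions of depth at most `j` -/
theorem agree {A A' : Oracle} {x : List Bool} (j : ℕ) (gs : List Gate)
    (h : ∀ q ∈ asked A x gs, q.1 ≤ j → A' q.2 = A q.2) :
    (∀ r : Wire, wireDepth (depths gs) r ≤ j →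
      r.val x (gateVals A' x gs) = r.val x (gateVals A x gs)) ∧
    ∀ q, q.1 ≤ j + 1 → (q ∈ asked A' x gs ↔ q ∈ asked A x gs) := by
  induction gs using List.reverseRecOn with
  | nil =>
    refine ⟨fun r _ => rfl, fun q _ => Iff.rfl⟩
  | append_singleton gs g ih =>
    obtain ⟨h1, h2⟩ := ih fun q hq => h q (by
      rw [asked_snoc]
      exact List.mem_append_left _ hq)
    -- the strings
    have hstr : ∀ l : List Wire, gateDepth (depths gs) (.ask l) ≤ j + 1 →
        l.map (Wire.val x (gateVals A' x gs)) = l.map (Wire.val x (gateVals A x gs)) := by
      intro l hl
      refine List.map_congr_left fun r hr => h1 r ?_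
      have h3 := le_foldr_max (List.mem_map_of_mem (f := wireDepth (depths gs)) hr)
      unfold gateDepth at hl
      simp only at hl
      omega
    have hval : gateDepth (depths gs) g ≤ j →
        g.val A' x (gateVals A' x gs) = g.val A x (gateVals A x gs) := by
      intro hg
      cases g with
      | and r s =>
        unfold gateDepth at hg
        simp only at hg
        simp only [Gate.val]
        rw [h1 r (by omega), h1 s (by omega)]
      | or r s =>
        unfold gateDepth at hg
        simp only at hg
        simp only [Gate.val]
        rw [h1 r (by omega), h1 s (by omega)]
      | not r =>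
        unfold gateDepth at hg
        simp only at hg
        simp only [Gate.val]
        rw [h1 r (by omega)]
      | ask l =>
        simp only [Gate.val]
        rw [hstr l (by omega)]
        refine h (gateDepth (depths gs) (.ask l), l.map (Wire.val x (gateVals A x gs))) ?_ hg
        rw [asked_snoc]
        exact List.mem_append_right _ (List.mem_singleton.2 rfl)
    refine ⟨?_, ?_⟩
    · intro r hr
      cases r with
      | inp i => rfl
      | cst b => rfl
      | gate i =>
        simp only [Wire.val]
        rw [gateVals_snoc, gateVals_snoc]
        simp only [wireDepth] at hr
        rw [depths_snoc] at hr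
        rcases lt_trichotomy i gs.length with hi | hi | hi
        · rw [List.getD_append _ _ _ _ (by rw [length_vals]; exact hi),
            List.getD_append _ _ _ _ (by rw [length_vals]; exact hi)]
          rw [List.getD_append _ _ _ _ (by rw [length_depths]; exact hi)] at hr
          exact h1 (.gate i) hr
        · subst hi
          rw [List.getD_append_right _ _ _ _ (by rw [length_vals]),
            List.getD_append_right _ _ _ _ (by rw [length_vals])]
          rw [List.getD_append_right _ _ _ _ (by rw [length_depths])] at hr
          rw [length_vals, length_vals]
          rw [length_depths] at hr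
          simp only [Nat.sub_self, List.getD_cons_zero] at hr ⊢
          exact hval hr
        · rw [List.getD_eq_default, List.getD_eq_default]
          · rw [List.length_append, length_vals]
            simp only [List.length_cons, List.length_nil]
            omega
          · rw [List.length_append, length_vals]
            simp only [List.length_cons, List.length_nil]
            omega
    · intro q hq
      rw [asked_snoc, asked_snoc, List.mem_append, List.mem_append, h2 q hq]
      refine or_congr_right ?_
      cases g with
      | ask l =>
        simp only [asks, List.mem_singleton]
        constructor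
        · rintro rfl
          rw [hstr l hq]
        · rintro rfl
          rw [hstr l hq]
      | _ => simp [asks]

end Pool.Agent.TH707.DP
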