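import Pool.Agent.TH707.DP.DefsL
import Pool.Agent.TH707.DP.Rnd

/-!
# Layered circuits: conversion into circuits, and the possible questions of a narrow circuit
-/

set_option autoImplicit false

namespace Pool.Agent.TH707.DP

open Pool.Agent.NPC Pool.Agent.H620R2.Gauge Pool.Agent.H622R2.Ckt

theorem layerVals_snoc (A : Oracle) (x : List Bool) (ls : List (List LGate)) (l : List LGate) :
    layerVals A x (ls ++ [l]) = l.map (LGate.val A x (layerVals A x ls)) := by
  unfold layerVals
  rw [List.foldl_append]
  rfl

/-! ### conversion -/

/-- a wire of the circuit; the first `n` gates are the negated inputs, and the `w` gates of the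
previous layer start at `off` -/
def cvW (n off w : ℕ) : LWire → Wire
  | .inp i => .inp i
  | .ninp i => if i < n then .gate i else .cst true
  | .cst b => .cst b
  | .prev j => if j < w then .gate (off + j) else .cst false

/-- a gate of the circuit -/
def cvG (n off w : ℕ) : LGate → Gate
  | .and r s => .and (cvW n off w r) (cvW n off w s)
  | .or r s => .or (cvW n off w r) (cvW n off w s)
  | .not r => .not (cvW n off w r)
  | .ask l => .ask (l.map (cvW n off w))

theorem cvW_val {n off w : ℕ} {x : List Bool} (hx : x.length = n) {v0 v1 v : List Bool}
    (hv : v.length = w) (h0 : (v0 ++ v1).length = off) (hn : v0 = x.map (fun b => !b)) (r : LWire)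
    (v2 : List Bool) :
    (cvW n off w r).val x (v0 ++ v1 ++ (v ++ v2)) = r.val x v := by
  cases r with
  | inp i => rfl
  | cst b => rfl
  | ninp i =>
    simp only [cvW, LWire.val]
    by_cases hi : i < n
    · rw [if_pos hi]
      simp only [Wire.val]
      have h1 : i < v0.length := by rw [hn, List.length_map, hx]; exact hi
      rw [List.append_assoc, List.getD_append _ _ _ _ h1, List.getD_eq_getElem _ _ h1]
      subst hn
      rw [List.getElem_map, List.getD_eq_getElem _ _ (by rw [hx]; exact hi)]
    · rw [if_neg hi]
      simp only [Wire.val]
      rw [List.getD_eq_default _ _ (by rw [hx]; omega)]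
      rfl
  | prev j =>
    simp only [cvW, LWire.val]
    by_cases hj : j < w
    · rw [if_pos hj]
      simp only [Wire.val]
      rw [List.getD_append_right _ _ _ _ (by rw [h0]; omega), h0, Nat.add_sub_cancel_left,
        List.getD_append _ _ _ _ (by rw [hv]; exact hj)]
    · rw [if_neg hj]
      simp only [Wire.val]
      rw [List.getD_eq_default _ _ (by rw [hv]; omega)]

theorem cvG_val {n off w : ℕ} {x : List Bool} (hx : x.length = n) {v0 v1 v : List Bool}
    (hv : v.length = w) (h0 : (v0 ++ v1).length = off) (hn : v0 = x.map (fun b => !b))
    (A : Oracle) (g : LGate) (v2 : List Bool) :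
    (cvG n off w g).val A x (v0 ++ v1 ++ (v ++ v2)) = g.val A x v := by
  have h := cvW_val hx hv h0 hn (v2 := v2)
  cases g with
  | and r s => simp only [cvG, Gate.val, LGate.val, h]
  | or r s => simp only [cvG, Gate.val, LGate.val, h]
  | not r => simp only [cvG, Gate.val, LGate.val, h]
  | ask l =>
    simp only [cvG, Gate.val, LGate.val, List.map_map]
    congr 1
    exact List.map_congr_left fun r _ => h r

theorem cvG_size (n off w : ℕ) (g : LGate) : (cvG n off w g).size = g.size := by
  cases g <;> simp [cvG, Gate.size, LGate.size]

/-- the gates of the layers, one after the other; the state is the list of the gates so far, the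
place where the last layer starts, and its width -/
def cv (n : ℕ) (ls : List (List LGate)) : List Gate × ℕ × ℕ :=
  ls.foldl (fun st layer => (st.1 ++ layer.map (cvG n st.2.1 st.2.2), st.1.length, layer.length))
    ((List.range n).map (fun i => Gate.not (.inp i)), n, 0)

theorem cv_snoc (n : ℕ) (ls : List (List LGate)) (l : List LGate) :
    cv n (ls ++ [l]) = ((cv n ls).1 ++ l.map (cvG n (cv n ls).2.1 (cv n ls).2.2),
      (cv n ls).1.length, l.length) := by
  unfold cv
  rw [List.foldl_append]
  rfl

theorem vals_nots (A : Oracle) {x : List Bool} {n : ℕ} (hx : x.length = n) :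
    gateVals A x ((List.range n).map (fun i => Gate.not (.inp i))) = x.map (fun b => !b) := by
  have h : ∀ m ≤ n, gateVals A x ((List.range m).map (fun i => Gate.not (.inp i))) =
      (x.take m).map (fun b => !b) := by
    intro m
    induction m with
    | zero => intro _; rfl
    | succ m ih =>
      intro hm
      rw [List.range_succ, List.map_append, List.map_cons, List.map_nil, gateVals_snoc,
        ih (by omega), List.take_succ_eq_append_getElem (by omega), List.map_append]
      simp only [List.map_cons, List.map_nil, Gate.val, Wire.val]
      rw [List.getD_eq_getElem _ _ (by omega)]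
  rw [h n le_rfl, ← hx, List.take_length]

/-- the values of the gates of a new layer -/
theorem vals_layer {n off w : ℕ} {x : List Bool} (hx : x.length = n) {v0 v1 v : List Bool}
    (hv : v.length = w) (h0 : (v0 ++ v1).length = off) (hn : v0 = x.map (fun b => !b))
    (A : Oracle) (gs : List Gate) (hgs : gateVals A x gs = v0 ++ v1 ++ v) (l : List LGate) :
    gateVals A x (gs ++ l.map (cvG n off w)) = v0 ++ v1 ++ v ++ l.map (LGate.val A x v) := by
  induction l using List.reverseRecOn with
  | nil => simpa using hgs
  | append_singleton l g ih =>
    rw [List.map_append, List.map_cons, List.map_nil, ← List.append_assoc, gateVals_snoc, ih,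
      List.map_append, List.map_cons, List.map_nil]
    have h := cvG_val hx hv h0 hn A g (l.map (LGate.val A x v))
    rw [← List.append_assoc] at h
    rw [h, ← List.append_assoc]

theorem cv_spec {n : ℕ} {x : List Bool} (hx : x.length = n) (A : Oracle)
    (ls : List (List LGate)) :
    ∃ v1 : List Bool, gateVals A x (cv n ls).1 = x.map (fun b => !b) ++ v1 ++ layerVals A x ls ∧
      (x.map (fun b => !b) ++ v1).length = (cv n ls).2.1 ∧
      (layerVals A x ls).length = (cv n ls).2.2 := by
  induction ls using List.reverseRecOn with
  | nil =>
    refine ⟨[], ?_, ?_, rfl⟩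
    · rw [List.append_nil]
      simp only [layerVals, List.foldl_nil, List.append_nil]
      exact vals_nots A hx
    · simp only [List.append_nil, List.length_map, hx]
      rfl
  | append_singleton ls l ih =>
    obtain ⟨v1, h1, h2, h3⟩ := ih
    refine ⟨v1 ++ layerVals A x ls, ?_, ?_, ?_⟩
    · rw [cv_snoc, layerVals_snoc]
      simp only
      rw [vals_layer hx h3 h2 rfl A _ h1 l]
      simp only [List.append_assoc]
    · rw [cv_snoc]
      simp only
      rw [← length_vals A x, h1]
      simp only [List.append_assoc]
    · rw [cv_snoc, layerVals_snoc, List.length_map]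

/-- the circuit of a layered circuit -/
def toC (n : ℕ) (E : LCircuit) : Circuit :=
  ⟨(cv n E.layers).1, cvW n (cv n E.layers).2.1 (cv n E.layers).2.2 E.out⟩

theorem toC_eval {n : ℕ} {x : List Bool} (hx : x.length = n) (A : Oracle) (E : LCircuit) :
    (toC n E).eval A x = E.eval A x := by
  obtain ⟨v1, h1, h2, h3⟩ := cv_spec hx A E.layers
  unfold toC Circuit.eval LCircuit.eval
  simp only
  rw [h1]
  have h := cvW_val hx h3 h2 rfl E.out []
  rw [List.append_nil] at h
  exact h

theorem toC_size (n : ℕ) (E : LCircuit) : (toC n E).size = n + E.size := by
  unfold toC Circuit.size LCircuit.size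
  simp only
  induction E.layers using List.reverseRecOn with
  | nil =>
    simp only [cv, List.foldl_nil, List.map_map, List.map_nil, List.sum_nil, Nat.add_zero]
    have h : ∀ i ∈ List.range n, (Gate.size ∘ fun i => Gate.not (.inp i)) i = 1 := fun i _ => rfl
    rw [List.map_congr_left h]
    simp
  | append_singleton ls l ih =>
    rw [cv_snoc]
    simp only [List.map_append, List.sum_append, List.map_map, List.map_cons, List.map_nil,
      List.sum_cons, List.sum_nil, Nat.add_zero]
    rw [ih, Nat.add_assoc]
    congr 2
    congr 1
    exact List.map_congr_left fun g _ => cvG_size _ _ _ g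

/-! ### the possible questions of a narrow circuit -/

/-- the possible questions of a gate if the previous layer has `w` gates -/
noncomputable def candG (x : List Bool) (w : ℕ) : LGate → List (List Bool)
  | .ask l => ((Finset.univ : Finset (Fin w → Bool)).toList.map fun v =>
      l.map (LWire.val x (List.ofFn v)))
  | _ => []

/-- the possible questions of the layers; the state contains the width of the last layer -/
noncomputable def cand (x : List Bool) (ls : List (List LGate)) : List (List Bool) × ℕ :=
  ls.foldl (fun st layer => (st.1 ++ layer.flatMap (candG x st.2), layer.length)) ([], 0)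

theorem cand_snoc (x : List Bool) (ls : List (List LGate)) (l : List LGate) :
    cand x (ls ++ [l]) = ((cand x ls).1 ++ l.flatMap (candG x (cand x ls).2), l.length) := by
  unfold cand
  rw [List.foldl_append]
  rfl

theorem cand_width (A : Oracle) (x : List Bool) (ls : List (List LGate)) :
    (cand x ls).2 = (layerVals A x ls).length := by
  induction ls using List.reverseRecOn with
  | nil => rfl
  | append_singleton ls l _ => rw [cand_snoc, layerVals_snoc, List.length_map]

theorem vals_of_cand {A A' : Oracle} {x : List Bool} (ls : List (List LGate))
    (h : ∀ q ∈ (cand x ls).1, A' q = A q) : layerVals A' x ls = layerVals A x ls := by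
  induction ls using List.reverseRecOn with
  | nil => rfl
  | append_singleton ls l ih =>
    have h1 := ih fun q hq => h q (by
      rw [cand_snoc]
      exact List.mem_append_left _ hq)
    rw [layerVals_snoc, layerVals_snoc, h1]
    refine List.map_congr_left fun g hg => ?_
    cases g with
    | and r s => rfl
    | or r s => rfl
    | not r => rfl
    | ask wl =>
      simp only [LGate.val]
      refine h _ ?_
      rw [cand_snoc]
      refine List.mem_append_right _ (List.mem_flatMap.2 ⟨_, hg, ?_⟩)
      rw [cand_width A x ls]
      simp only [candG, List.mem_map, Finset.mem_toList]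
      refine ⟨(layerVals A x ls).get, Finset.mem_univ _, ?_⟩
      rw [List.ofFn_get]

theorem length_cand (x : List Bool) {w : ℕ} (ls : List (List LGate))
    (hw : ∀ l ∈ ls, l.length ≤ w) : (cand x ls).2 ≤ w ∧
    (cand x ls).1.length ≤ (ls.map fun layer => (layer.map LGate.size).sum).sum * 2 ^ w := by
  induction ls using List.reverseRecOn with
  | nil => exact ⟨Nat.zero_le _, Nat.zero_le _⟩
  | append_singleton ls l ih =>
    obtain ⟨h1, h2⟩ := ih fun l' hl' => hw l' (List.mem_append_left _ hl')
    rw [cand_snoc]
    refine ⟨hw l (List.mem_append_right _ (by simp)), ?_⟩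
    simp only [List.length_append, List.map_append, List.map_cons, List.map_nil, List.sum_append,
      List.sum_cons, List.sum_nil, Nat.add_zero, Nat.add_mul]
    refine Nat.add_le_add h2 ?_
    rw [List.length_flatMap]
    have h3 : ∀ gs : List LGate, (gs.map fun g => (candG x (cand x ls).2 g).length).sum ≤
        (gs.map LGate.size).sum * 2 ^ w := by
      intro gs
      induction gs with
      | nil => simp
      | cons g gs ihg =>
        simp only [List.map_cons, List.sum_cons, Nat.add_mul]
        refine Nat.add_le_add ?_ ihg
        cases g with
        | ask wl =>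
          simp only [candG, List.length_map, Finset.length_toList, Finset.card_univ,
            Fintype.card_fun, Fintype.card_bool, Fintype.card_fin, LGate.size]
          have h4 : 2 ^ (cand x ls).2 ≤ 2 ^ w := Nat.pow_le_pow_right (by norm_num) h1
          calc 2 ^ (cand x ls).2 ≤ 1 * 2 ^ w := by omega
            _ ≤ (wl.length + 1) * 2 ^ w := Nat.mul_le_mul_right _ (by omega)
        | _ => simp [candG]
    exact h3 l

end Pool.Agent.TH707.DP
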