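import Pool.Agent.TH707.DP.Event
import Pool.Agent.TH707.SL.Null

/-!
# Null sets: sublinear depth
-/

set_option autoImplicit false

namespace Pool.Agent.TH707.DP

open Pool.Agent.NPC Pool.Agent.H620R2.Gauge Pool.Agent.H622R2.Ckt Finset Filter
open Pool.Agent.TH707.EC
open H568R2

/-- the bound for the size of the hard circuit -/
def sz (b n : ℕ) : ℕ := 8 * n ^ (b + 2)

theorem hard_size_le {b n : ℕ} (hn : 1 ≤ n) : (hard n (n ^ b)).size ≤ sz b n := by
  rw [hard_size]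
  unfold sz
  have h1 : 1 ≤ n ^ (b + 1) := Nat.one_le_pow _ _ hn
  have h2 : n ^ b * n = n ^ (b + 1) := (pow_succ n b).symm
  rw [h2]
  calc (n ^ (b + 1) + 1) * (3 * n + 1) ≤ (2 * n ^ (b + 1)) * (4 * n) :=
        Nat.mul_le_mul (by omega) (by omega)
    _ = 8 * n ^ (b + 2) := by ring

/-- the hard function has shallow circuits -/
def badD (b c n : ℕ) : Set Oracle :=
  {A | ∃ D : Circuit, D.size ≤ sz b n ^ c ∧ depth D ≤ n ^ b ∧ ∀ u : List Bool, u.length = n →
    D.eval A u = (hard n (n ^ b)).eval A u}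

/-- the length of the questions -/
def lenD (b c n : ℕ) : ℕ := 3 * n + sz b n + sz b n ^ c + 1

theorem lenD_mono (b c : ℕ) {n m : ℕ} (h : n ≤ m) : lenD b c n ≤ lenD b c m := by
  have h1 : sz b n ≤ sz b m := Nat.mul_le_mul_left _ (Nat.pow_le_pow_left h _)
  have h2 : sz b n ^ c ≤ sz b m ^ c := Nat.pow_le_pow_left h1 _
  unfold lenD
  omega

theorem ev_of_badD {b c n N : ℕ} (hn : 1 ≤ n) (hN : 2 ^ lenD b c n ≤ N)
    {A : Oracle} (hA : A ∈ badD b c n) : EvD n (n ^ b) (sz b n ^ c) N (pre N A) := by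
  obtain ⟨D, hD1, hD2, hD3⟩ := hA
  refine ⟨D, hD1, hD2, fun u hu => ?_⟩
  have hloc : ∀ y : List Bool, y.length < lenD b c n → orc N (pre N A) y = A y := by
    intro y hy
    apply orc_pre
    have h2 := idx_lt y
    have h3 : 2 ^ (y.length + 1) ≤ 2 ^ lenD b c n :=
      Nat.pow_le_pow_right (by norm_num) hy
    omega
  have h1 := hard_size_le (b := b) hn
  rw [eval_local D (orc N (pre N A)) A (fun y hy => hloc y (by unfold lenD; omega)) u,
    eval_local (hard n (n ^ b)) (orc N (pre N A)) A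
      (fun y hy => hloc y (by unfold lenD; omega)) u]
  exact hD3 u hu

/-- the estimate -/
theorem asyD (b c : ℕ) : ∀ᶠ n : ℕ in atTop, 1 ≤ n ∧ ∀ (N : ℕ) (f : ℕ → ℝ),
    2 ^ lenD b c n ≤ N → f N ≤ 2 ^ ((n : ℝ) / 6) → Cov f (badD b c n) ((1 / 2) ^ n) := by
  have h1 := poly_le_two_pow_div
    ((Polynomial.X + (Polynomial.C 8 * Polynomial.X ^ (b + 2)) ^ c + Polynomial.C 8) *
      (Polynomial.C 4 * (Polynomial.C 8 * Polynomial.X ^ (b + 2)) ^ c + Polynomial.C 4) +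
      Polynomial.X) (E := 6) (by omega)
  have h2 := poly_le_two_pow_div
    ((Polynomial.C 8 * Polynomial.X ^ (b + 2)) ^ c + Polynomial.X ^ b * Polynomial.X +
      Polynomial.C 4 * (Polynomial.X ^ b * (Polynomial.C 8 * Polynomial.X ^ (b + 2)) ^ c) +
      Polynomial.C 2) (E := 3) (by omega)
  filter_upwards [h1, h2, eventually_ge_atTop 30] with n h3 h4 h5
  refine ⟨by omega, fun N f hN hF => ?_⟩
  simp only [Polynomial.eval_add, Polynomial.eval_mul, Polynomial.eval_C, Polynomial.eval_X,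
    Polynomial.eval_pow] at h3 h4
  set s := (8 * n ^ (b + 2)) ^ c with hs
  have hsz : sz b n ^ c = s := rfl
  set m := 3 * 2 ^ (n / 3) with hm
  have hn3 : 2 ^ (n / 3) * 2 ^ (n / 3) * 2 ^ (n / 3) ≤ 2 ^ n := by
    rw [← pow_add, ← pow_add]
    exact Nat.pow_le_pow_right (by norm_num) (by omega)
  have h3' : 3 ≤ 2 ^ (n / 3) := by
    have : 2 ^ 2 ≤ 2 ^ (n / 3) := Nat.pow_le_pow_right (by norm_num) (by omega)
    omega
  have h6 : 2 ^ (n / 3) ≤ 2 ^ n := Nat.pow_le_pow_right (by norm_num) (by omega)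
  have hb := evD_bound (n := n) (t := n ^ b) (s := s) (m := m) (N := N) (by omega)
    ((Nat.pow_le_pow_right (by norm_num) (by unfold lenD; omega)).trans hN) (by omega)
    (by omega) (by
      have h7 : s + (n ^ b * n + 1) + 1 ≤ 2 ^ (n / 3) := by omega
      calc m * (s + (n ^ b * n + 1) + 1) ≤ (3 * 2 ^ (n / 3)) * 2 ^ (n / 3) :=
            Nat.mul_le_mul_left _ h7
        _ ≤ (2 ^ (n / 3) * 2 ^ (n / 3)) * 2 ^ (n / 3) :=
            Nat.mul_le_mul_right _ (Nat.mul_le_mul_right _ h3')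
        _ ≤ 2 ^ n := hn3)
  refine cover_of_event (EvD n (n ^ b) s N) (badD b c n)
    (fun A hA => ev_of_badD (by omega) hN hA) f _ ?_
  refine (mul_le_mul_of_nonneg_right hb (by positivity)).trans ?_
  -- the number of circuits
  have g1 : nC n s ≤ 2 ^ ((n + s + 8) * (4 * s + 4)) := by
    unfold nC
    rw [pow_mul]
    exact Nat.pow_le_pow_left Nat.lt_two_pow_self.le _
  have g2 : (nC n s : ℝ) ≤ 2 ^ (((n + s + 8) * (4 * s + 4) : ℕ) : ℝ) := by
    rw [Real.rpow_natCast]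
    exact_mod_cast g1
  have g3 : ((3 : ℝ) / 4) ^ m ≤ 2 ^ (-((2 ^ (n / 3) : ℕ) : ℝ)) := by
    rw [hm, pow_mul, Real.rpow_neg (by norm_num), Real.rpow_natCast, ← inv_pow]
    exact pow_le_pow_left₀ (by positivity) (by norm_num) _
  have g4 : (2 : ℝ) ^ ((n : ℝ) / 6) ≤ 2 ^ (n / 6 + 1 : ℕ) := by
    rw [← Real.rpow_natCast]
    apply Real.rpow_le_rpow_of_exponent_le (by norm_num)
    have h9 : n < 6 * (n / 6 + 1) := Nat.lt_mul_div_succ n (by omega)
    have h10 : (n : ℝ) ≤ 6 * ((n / 6 + 1 : ℕ) : ℝ) := by exact_mod_cast h9.le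
    linarith
  have g5 : 2 ^ (n / 6) + 2 ^ (n / 6 + 1) ≤ 2 ^ (n / 3) := by
    have h10 : 2 ^ (n / 6 + 2) ≤ 2 ^ (n / 3) := Nat.pow_le_pow_right (by norm_num) (by omega)
    have h11 : 2 ^ (n / 6 + 2) = 4 * 2 ^ (n / 6) := by rw [pow_add]; ring
    have h12 : 2 ^ (n / 6 + 1) = 2 * 2 ^ (n / 6) := by rw [pow_add]; ring
    omega
  have g6 : ((1 : ℝ) / 2) ^ n = 2 ^ (-(n : ℝ)) := by
    rw [Real.rpow_neg (by norm_num), Real.rpow_natCast, one_div, inv_pow]
  rw [g6]
  calc (nC n s : ℝ) * (3 / 4) ^ m * 2 ^ f N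
      ≤ 2 ^ (((n + s + 8) * (4 * s + 4) : ℕ) : ℝ) * 2 ^ (-((2 ^ (n / 3) : ℕ) : ℝ)) *
          2 ^ f N := by gcongr
    _ = 2 ^ ((((n + s + 8) * (4 * s + 4) : ℕ) : ℝ) + -((2 ^ (n / 3) : ℕ) : ℝ) + f N) := by
        rw [← Real.rpow_add (by norm_num), ← Real.rpow_add (by norm_num)]
    _ ≤ 2 ^ (-(n : ℝ)) := by
        apply Real.rpow_le_rpow_of_exponent_le (by norm_num)
        have k1 : ((((n + s + 8) * (4 * s + 4) : ℕ) : ℝ)) + n ≤ ((2 ^ (n / 6) : ℕ) : ℝ) := by
          have k0 : (n + s + 8) * (4 * s + 4) + n ≤ 2 ^ (n / 6) := by omega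
          exact_mod_cast k0
        have k2 : ((2 ^ (n / 6) : ℕ) : ℝ) + ((2 ^ (n / 6 + 1) : ℕ) : ℝ) ≤
            ((2 ^ (n / 3) : ℕ) : ℝ) := by exact_mod_cast g5
        have k3 : ((2 ^ (n / 6 + 1) : ℕ) : ℝ) = 2 ^ (n / 6 + 1 : ℕ) := by push_cast; rfl
        rw [k3] at k2
        linarith

/-- the condition on the gauge -/
def CondD (f : ℕ → ℝ) : Prop :=
  ∀ ε : ℝ, 0 < ε → ∃ᶠ N : ℕ in atTop, f N ≤ 2 ^ ((Real.logb 2 N) ^ ε)

theorem lenD_le (b c : ℕ) {n : ℕ} (hn : 8 ≤ n) : lenD b c n ≤ n ^ ((b + 3) * (c + 1) + 3) := by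
  have h1 : sz b n ≤ n ^ (b + 3) := by
    unfold sz
    calc 8 * n ^ (b + 2) ≤ n * n ^ (b + 2) := Nat.mul_le_mul_right _ hn
      _ = n ^ (b + 3) := by ring
  have hn1 : 1 ≤ n := by omega
  have h2 : sz b n ^ c ≤ n ^ ((b + 3) * (c + 1)) := by
    calc sz b n ^ c ≤ (n ^ (b + 3)) ^ c := Nat.pow_le_pow_left h1 _
      _ = n ^ ((b + 3) * c) := by rw [← pow_mul]
      _ ≤ n ^ ((b + 3) * (c + 1)) :=
        Nat.pow_le_pow_right hn1 (Nat.mul_le_mul_left _ (Nat.le_succ c))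
  have h3 : sz b n ≤ n ^ ((b + 3) * (c + 1)) := h1.trans
    (Nat.pow_le_pow_right hn1 (Nat.le_mul_of_pos_right _ (by omega)))
  have h4 : 1 ≤ n ^ ((b + 3) * (c + 1)) := Nat.one_le_pow _ _ hn1
  set X := n ^ ((b + 3) * (c + 1)) with hX
  have h5 : n ^ ((b + 3) * (c + 1) + 3) = X * (n * n * n) := by
    rw [pow_add]
    ring
  have h6 : n ≤ X * n := Nat.le_mul_of_pos_left _ h4
  have h7 : X * n * (8 * 8) ≤ X * n * (n * n) := Nat.mul_le_mul_left _ (Nat.mul_le_mul hn hn)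
  have h8 : X * n * (n * n) = X * (n * n * n) := by ring
  have h9 : X ≤ X * n := Nat.le_mul_of_pos_right _ hn1
  unfold lenD
  omega

theorem null_badD (b c : ℕ) {f : ℕ → ℝ} (hf : CondD f) :
    Null f {A | ∀ᶠ n : ℕ in atTop, A ∈ badD b c n} := by
  refine null_of_ev (P := badD b c) (fun A hA => hA) ?_
  intro δ hδ n₀
  obtain ⟨n₁, hn₁⟩ := eventually_atTop.1 (asyD b c)
  obtain ⟨n₂, hn₂⟩ := exists_pow_lt_of_lt_one hδ (show (1 / 2 : ℝ) < 1 by norm_num)
  set m := max (max n₀ 60) (max n₁ n₂) with hm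
  have hsm : ∀ n, n + 1 ≤ lenD b c n := by
    intro n
    unfold lenD
    omega
  set K := (b + 3) * (c + 1) + 3 with hK
  have hK0 : (0 : ℝ) < K := by
    have : 0 < K := by omega
    exact_mod_cast this
  have hεpos : (0 : ℝ) < 1 / (2 * K) := by positivity
  obtain ⟨N, hfN, hN⟩ := ((hf _ hεpos).and_eventually
    (eventually_ge_atTop (2 ^ lenD b c m))).exists
  set l := Nat.log 2 N with hl
  have hml : lenD b c m ≤ l := Nat.le_log_of_pow_le (by norm_num) hN
  have hN0 : N ≠ 0 := by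
    have : 0 < 2 ^ lenD b c m := by positivity
    omega
  set n := Nat.findGreatest (fun n => lenD b c n ≤ l) l with hn
  have hmn : m ≤ n := Nat.le_findGreatest (by
    have := hsm m
    omega) hml
  have hns : lenD b c n ≤ l := Nat.findGreatest_spec (P := fun n => lenD b c n ≤ l) (m := m) (by
    have := hsm m
    omega) hml
  have hmax : l < lenD b c (n + 1) := by
    by_contra hc
    have h1 : n + 1 ≤ l := by
      have := hsm (n + 1)
      omega
    have := Nat.le_findGreatest (P := fun n => lenD b c n ≤ l) h1 (not_lt.1 hc)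
    omega
  have hn60 : 60 ≤ n := ((le_max_right _ _).trans (le_max_left _ _)).trans hmn
  have h2 := hn₁ n (((le_max_left _ _).trans (le_max_right _ _)).trans hmn)
  refine ⟨n, ((le_max_left _ _).trans (le_max_left _ _)).trans hmn, ?_⟩
  have hNs : 2 ^ lenD b c n ≤ N :=
    (Nat.pow_le_pow_right (by norm_num) hns).trans (Nat.pow_log_le_self 2 hN0)
  have h3 := h2.2 N f hNs (hfN.trans ?_)
  · obtain ⟨S, hS1, hS2⟩ := h3
    refine ⟨S, hS1, hS2.trans (ENNReal.ofReal_le_ofReal ?_)⟩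
    refine le_trans ?_ hn₂.le
    exact pow_le_pow_of_le_one (by norm_num) (by norm_num)
      (((le_max_right _ _).trans (le_max_right _ _)).trans hmn)
  · apply Real.rpow_le_rpow_of_exponent_le (by norm_num)
    have h3 : Real.logb 2 N ≤ (l : ℝ) + 1 := by
      have h4 : (N : ℝ) ≤ 2 ^ (l + 1) := by
        have := (Nat.lt_pow_succ_log_self (b := 2) (by norm_num) N).le
        exact_mod_cast this
      refine (Real.logb_le_logb_of_le (by norm_num) (by
        have : 0 < N := by omega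
        exact_mod_cast this) h4).trans (le_of_eq ?_)
      rw [Real.logb_pow, Real.logb_self_eq_one (by norm_num), mul_one]
      push_cast
      rfl
    have h4 : lenD b c (n + 1) ≤ (n + 1) ^ K := lenD_le b c (by omega)
    have h5 : Real.logb 2 N ≤ ((n : ℝ) + 1) ^ K := by
      have h6 : ((l + 1 : ℕ) : ℝ) ≤ (((n + 1) ^ K : ℕ) : ℝ) := by
        have : l + 1 ≤ (n + 1) ^ K := by omega
        exact_mod_cast this
      push_cast at h6
      linarith
    have h6 : (0 : ℝ) ≤ Real.logb 2 N := Real.logb_nonneg (by norm_num) (by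
      have : 1 ≤ N := by omega
      exact_mod_cast this)
    calc (Real.logb 2 N) ^ (1 / (2 * (K : ℝ))) ≤ (((n : ℝ) + 1) ^ K) ^ (1 / (2 * (K : ℝ))) :=
          Real.rpow_le_rpow h6 h5 (by positivity)
      _ = ((n : ℝ) + 1) ^ (1 / 2 : ℝ) := by
          rw [← Real.rpow_natCast, ← Real.rpow_mul (by positivity)]
          congr 1
          field_simp
      _ ≤ (((n : ℝ) / 6) ^ (2 : ℕ)) ^ (1 / 2 : ℝ) := by
          apply Real.rpow_le_rpow (by positivity) _ (by norm_num)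
          have h7 : (60 : ℝ) ≤ n := by exact_mod_cast hn60
          nlinarith
      _ = (n : ℝ) / 6 := by
          rw [← Real.rpow_natCast, ← Real.rpow_mul (by positivity)]
          norm_num

theorem sub_bad {A : Oracle} (hA : SublinearDepth A) :
    ∃ b c : ℕ, ∀ᶠ n : ℕ in atTop, A ∈ badD b c n := by
  obtain ⟨c, δ, hδ, h⟩ := hA
  set δ' := max δ 0 with hδ'
  have hδ0 : 0 ≤ δ' := le_max_right _ _
  have hδ1 : δ' < 1 := max_lt hδ one_pos
  obtain ⟨b, hb⟩ := exists_nat_gt (2 * δ' / (1 - δ'))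
  have hb' : ((b : ℝ) + 2) * δ' < b := by
    rw [div_lt_iff₀ (by linarith)] at hb
    linarith
  refine ⟨b, c, ?_⟩
  have h1 : Tendsto (fun n : ℕ => (n : ℝ) ^ ((b : ℝ) - (b + 2) * δ')) atTop atTop :=
    (tendsto_rpow_atTop (by linarith)).comp tendsto_natCast_atTop_atTop
  filter_upwards [h1.eventually (eventually_ge_atTop (8 * (c : ℝ))), eventually_ge_atTop 1]
    with n h2 h3
  have hn0 : (0 : ℝ) < n := by exact_mod_cast h3
  have hs1 := hard_size_le (b := b) h3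
  have hs2 : 2 ≤ (hard n (n ^ b)).size := by
    rw [hard_size]
    have h4 : 1 ≤ n ^ b * n + 1 := by omega
    have h5 : 2 ≤ 3 * n + 1 := by omega
    exact le_trans h5 (Nat.le_mul_of_pos_left _ h4)
  obtain ⟨D, hD1, hD2, hD3⟩ := h n _ hs2
  refine ⟨D, hD2.trans (Nat.pow_le_pow_left hs1 _), ?_, hD3⟩
  have hS1 : (1 : ℝ) ≤ (hard n (n ^ b)).size := by
    have : 1 ≤ (hard n (n ^ b)).size := by omega
    exact_mod_cast this
  have hS2 : ((hard n (n ^ b)).size : ℝ) ≤ 8 * (n : ℝ) ^ ((b : ℝ) + 2) := by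
    have h4 : ((hard n (n ^ b)).size : ℝ) ≤ ((8 * n ^ (b + 2) : ℕ) : ℝ) := by
      exact_mod_cast hs1
    refine h4.trans (le_of_eq ?_)
    push_cast
    rw [← Real.rpow_natCast]
    push_cast
    rfl
  have h4 : (depth D : ℝ) ≤ ((n ^ b : ℕ) : ℝ) := by
    calc (depth D : ℝ) ≤ c * ((hard n (n ^ b)).size : ℝ) ^ δ := hD1
      _ ≤ c * ((hard n (n ^ b)).size : ℝ) ^ δ' := by
          apply mul_le_mul_of_nonneg_left _ (Nat.cast_nonneg c)
          exact Real.rpow_le_rpow_of_exponent_le hS1 (le_max_left _ _)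
      _ ≤ c * (8 * (n : ℝ) ^ ((b : ℝ) + 2)) ^ δ' := by
          apply mul_le_mul_of_nonneg_left _ (Nat.cast_nonneg c)
          exact Real.rpow_le_rpow (by positivity) hS2 hδ0
      _ = c * ((8 : ℝ) ^ δ' * (n : ℝ) ^ (((b : ℝ) + 2) * δ')) := by
          rw [Real.mul_rpow (by norm_num) (by positivity), ← Real.rpow_mul hn0.le]
      _ ≤ c * (8 * (n : ℝ) ^ (((b : ℝ) + 2) * δ')) := by
          apply mul_le_mul_of_nonneg_left _ (Nat.cast_nonneg c)
          apply mul_le_mul_of_nonneg_right _ (by positivity)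
          calc (8 : ℝ) ^ δ' ≤ 8 ^ (1 : ℝ) :=
                Real.rpow_le_rpow_of_exponent_le (by norm_num) hδ1.le
            _ = 8 := Real.rpow_one _
      _ = 8 * c * (n : ℝ) ^ (((b : ℝ) + 2) * δ') := by ring
      _ ≤ (n : ℝ) ^ ((b : ℝ) - (b + 2) * δ') * (n : ℝ) ^ (((b : ℝ) + 2) * δ') :=
          mul_le_mul_of_nonneg_right h2 (by positivity)
      _ = (n : ℝ) ^ (b : ℝ) := by
          rw [← Real.rpow_add hn0]
          congr 1
          ring
      _ = ((n ^ b : ℕ) : ℝ) := by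
          rw [Real.rpow_natCast]
          push_cast
          rfl
  exact_mod_cast h4

/-- few oracles: the null set -/
theorem null_sub {f : ℕ → ℝ} (hf : CondD f) : Null f {A | SublinearDepth A} := by
  refine (null_iUnion (f := f) (fun b : ℕ => ⋃ c : ℕ,
    {A : Oracle | ∀ᶠ n : ℕ in atTop, A ∈ badD b c n}) fun b =>
    null_iUnion (f := f) _ fun c => null_badD b c hf).mono ?_
  intro A hA
  obtain ⟨b, c, h⟩ := sub_bad hA
  exact Set.mem_iUnion.2 ⟨b, Set.mem_iUnion.2 ⟨c, h⟩⟩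

end Pool.Agent.TH707.DP
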