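import Pool.Agent.TH707.DP.Null

/-!
# Null sets from events of doubly exponentially small probability
-/

set_option autoImplicit false

namespace Pool.Agent.TH707.DP

open Pool.Agent.NPC Pool.Agent.H620R2.Gauge Pool.Agent.H622R2.Ckt Finset Filter
open Pool.Agent.TH707.EC
open H568R2

open Classical in
/-- Suppose that, for large `n`, the event `bad n` depends on the strings of length less than
`n ^ K` only, and has probability at most `nC n (s n) (3 / 4) ^ (3 * 2 ^ (n / 3))`, where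
`s n ≤ n ^ K`. Then the oracles in `bad n` for all large `n` are a null set for all gauges which are
infinitely often below the threshold. -/
theorem null_gen {bad : ℕ → Set Oracle} {K : ℕ} (hK : 1 ≤ K) {s : ℕ → ℕ}
    (hs : ∀ᶠ n : ℕ in atTop, s n ≤ n ^ K)
    (h : ∀ᶠ n : ℕ in atTop, ∀ N : ℕ, 2 ^ (n ^ K) ≤ N → ∃ E : (Fin N → Bool) → Prop,
      (∀ A ∈ bad n, E (pre N A)) ∧
      Ex unif (fun a : Fin N → Bool => if E a then (1 : ℝ) else 0) ≤
        nC n (s n) * (3 / 4) ^ (3 * 2 ^ (n / 3)))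
    {f : ℕ → ℝ} (hf : CondD f) : Null f {A | ∀ᶠ n : ℕ in atTop, A ∈ bad n} := by
  -- the covers
  have hcov : ∀ᶠ n : ℕ in atTop, ∀ (N : ℕ), 2 ^ (n ^ K) ≤ N → f N ≤ 2 ^ ((n : ℝ) / 6) →
      Cov f (bad n) ((1 / 2) ^ n) := by
    have h1 := poly_le_two_pow_div
      ((Polynomial.X + Polynomial.X ^ K + Polynomial.C 8) *
        (Polynomial.C 4 * Polynomial.X ^ K + Polynomial.C 4) + Polynomial.X) (E := 6) (by omega)
    filter_upwards [h1, hs, h, eventually_ge_atTop 30] with n h3 h2 h4 h5 N hN hF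
    obtain ⟨E, hE1, hE2⟩ := h4 N hN
    simp only [Polynomial.eval_add, Polynomial.eval_mul, Polynomial.eval_C, Polynomial.eval_X,
      Polynomial.eval_pow] at h3
    refine cover_of_event E (bad n) hE1 f _ ?_
    refine (mul_le_mul_of_nonneg_right hE2 (by positivity)).trans ?_
    -- the number of circuits
    have g1 : nC n (s n) ≤ 2 ^ ((n + n ^ K + 8) * (4 * n ^ K + 4)) := by
      unfold nC
      rw [pow_mul]
      calc (n + s n + 8) ^ (4 * s n + 4) ≤ (n + n ^ K + 8) ^ (4 * s n + 4) :=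
            Nat.pow_le_pow_left (by omega) _
        _ ≤ (n + n ^ K + 8) ^ (4 * n ^ K + 4) :=
            Nat.pow_le_pow_right (by omega) (by omega)
        _ ≤ (2 ^ (n + n ^ K + 8)) ^ (4 * n ^ K + 4) :=
            Nat.pow_le_pow_left Nat.lt_two_pow_self.le _
    have g2 : (nC n (s n) : ℝ) ≤ 2 ^ (((n + n ^ K + 8) * (4 * n ^ K + 4) : ℕ) : ℝ) := by
      rw [Real.rpow_natCast]
      exact_mod_cast g1
    have g3 : ((3 : ℝ) / 4) ^ (3 * 2 ^ (n / 3)) ≤ 2 ^ (-((2 ^ (n / 3) : ℕ) : ℝ)) := by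
      rw [pow_mul, Real.rpow_neg (by norm_num), Real.rpow_natCast, ← inv_pow]
      exact pow_le_pow_left₀ (by positivity) (by norm_num) _
    have g4 : (2 : ℝ) ^ ((n : ℝ) / 6) ≤ 2 ^ (n / 6 + 1 : ℕ) := by
      rw [← Real.rpow_natCast]
      apply Real.rpow_le_rpow_of_exponent_le (by norm_num)
      have h9 : n < 6 * (n / 6 + 1) := Nat.lt_mul_div_succ n (by omega)
      have h10 : (n : ℝ) ≤ 6 * ((n / 6 + 1 : ℕ) : ℝ) := by exact_mod_cast h9.le
      linarith
    have g5 : 2 ^ (n / 6) + 2 ^ (n / 6 + 1) ≤ 2 ^ (n / 3) := by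
      have h10 : 2 ^ (n / 6 + 2) ≤ 2 ^ (n / 3) := Nat.pow_le_pow_right (by norm_num) (by omega)
      have h11 : 2 ^ (n / 6 + 2) = 4 * 2 ^ (n / 6) := by rw [pow_add]; ring
      have h12 : 2 ^ (n / 6 + 1) = 2 * 2 ^ (n / 6) := by rw [pow_add]; ring
      omega
    have g6 : ((1 : ℝ) / 2) ^ n = 2 ^ (-(n : ℝ)) := by
      rw [Real.rpow_neg (by norm_num), Real.rpow_natCast, one_div, inv_pow]
    rw [g6]
    calc (nC n (s n) : ℝ) * (3 / 4) ^ (3 * 2 ^ (n / 3)) * 2 ^ f N
        ≤ 2 ^ (((n + n ^ K + 8) * (4 * n ^ K + 4) : ℕ) : ℝ) *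
            2 ^ (-((2 ^ (n / 3) : ℕ) : ℝ)) * 2 ^ f N := by gcongr
      _ = 2 ^ ((((n + n ^ K + 8) * (4 * n ^ K + 4) : ℕ) : ℝ) + -((2 ^ (n / 3) : ℕ) : ℝ) +
            f N) := by
          rw [← Real.rpow_add (by norm_num), ← Real.rpow_add (by norm_num)]
      _ ≤ 2 ^ (-(n : ℝ)) := by
          apply Real.rpow_le_rpow_of_exponent_le (by norm_num)
          have k1 : ((((n + n ^ K + 8) * (4 * n ^ K + 4) : ℕ) : ℝ)) + n ≤
              ((2 ^ (n / 6) : ℕ) : ℝ) := by
            have k0 : (n + n ^ K + 8) * (4 * n ^ K + 4) + n ≤ 2 ^ (n / 6) := by omega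
            exact_mod_cast k0
          have k2 : ((2 ^ (n / 6) : ℕ) : ℝ) + ((2 ^ (n / 6 + 1) : ℕ) : ℝ) ≤
              ((2 ^ (n / 3) : ℕ) : ℝ) := by exact_mod_cast g5
          have k3 : ((2 ^ (n / 6 + 1) : ℕ) : ℝ) = 2 ^ (n / 6 + 1 : ℕ) := by push_cast; rfl
          rw [k3] at k2
          linarith
  -- the null set
  refine null_of_ev (P := bad) (fun A hA => hA) ?_
  intro δ hδ n₀
  obtain ⟨n₁, hn₁⟩ := eventually_atTop.1 hcov
  obtain ⟨n₂, hn₂⟩ := exists_pow_lt_of_lt_one hδ (show (1 / 2 : ℝ) < 1 by norm_num)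
  set m := max (max n₀ 60) (max n₁ n₂) with hm
  have hsm : ∀ n : ℕ, n ≤ n ^ K := fun n => Nat.le_self_pow (by omega) n
  have hK0 : (0 : ℝ) < K := by exact_mod_cast hK
  have hεpos : (0 : ℝ) < 1 / (2 * K) := by positivity
  obtain ⟨N, hfN, hN⟩ := ((hf _ hεpos).and_eventually
    (eventually_ge_atTop (2 ^ (m ^ K)))).exists
  set l := Nat.log 2 N with hl
  have hml : m ^ K ≤ l := Nat.le_log_of_pow_le (by norm_num) hN
  have hN0 : N ≠ 0 := by
    have : 0 < 2 ^ (m ^ K) := by positivity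
    omega
  set n := Nat.findGreatest (fun n => n ^ K ≤ l) l with hn
  have hmn : m ≤ n := Nat.le_findGreatest ((hsm m).trans hml) hml
  have hns : n ^ K ≤ l := Nat.findGreatest_spec (P := fun n => n ^ K ≤ l) (m := m)
    ((hsm m).trans hml) hml
  have hmax : l < (n + 1) ^ K := by
    by_contra hc
    have h1 : n + 1 ≤ l := (hsm (n + 1)).trans (not_lt.1 hc)
    have := Nat.le_findGreatest (P := fun n => n ^ K ≤ l) h1 (not_lt.1 hc)
    omega
  have hn60 : 60 ≤ n := ((le_max_right _ _).trans (le_max_left _ _)).trans hmn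
  have h2 := hn₁ n (((le_max_left _ _).trans (le_max_right _ _)).trans hmn)
  refine ⟨n, ((le_max_left _ _).trans (le_max_left _ _)).trans hmn, ?_⟩
  have hNs : 2 ^ (n ^ K) ≤ N :=
    (Nat.pow_le_pow_right (by norm_num) hns).trans (Nat.pow_log_le_self 2 hN0)
  have h3 := h2 N hNs (hfN.trans ?_)
  · obtain ⟨S, hS1, hS2⟩ := h3
    refine ⟨S, hS1, hS2.trans (ENNReal.ofReal_le_ofReal ?_)⟩
    refine le_trans ?_ hn₂.le
    exact pow_le_pow_of_le_one (by norm_num) (by norm_num)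
      (((le_max_right _ _).trans (le_max_right _ _)).trans hmn)
  · apply Real.rpow_le_rpow_of_exponent_le (by norm_num)
    have h3 : Real.logb 2 N ≤ (l : ℝ) + 1 := by
      have h4 : (N : ℝ) ≤ 2 ^ (l + 1) := by
        have := (Nat.lt_pow_succ_log_self (b := 2) (by norm_num) N).le
        exact_mod_cast this
      refine (Real.logb_le_logb_of_le (by norm_num) (by
        have : 0 < N := by omega
        exact_mod_cast this) h4).trans (le_of_eq ?_)
      rw [Real.logb_pow, Real.logb_self_eq_one (by norm_num), mul_one]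
      push_cast
      rfl
    have h5 : Real.logb 2 N ≤ ((n : ℝ) + 1) ^ K := by
      have h6 : ((l + 1 : ℕ) : ℝ) ≤ (((n + 1) ^ K : ℕ) : ℝ) := by
        have : l + 1 ≤ (n + 1) ^ K := by omega
        exact_mod_cast this
      push_cast at h6
      linarith
    have h6 : (0 : ℝ) ≤ Real.logb 2 N := Real.logb_nonneg (by norm_num) (by
      have : 1 ≤ N := by omega
      exact_mod_cast this)
    calc (Real.logb 2 N) ^ (1 / (2 * (K : ℝ))) ≤ (((n : ℝ) + 1) ^ K) ^ (1 / (2 * (K : ℝ))) :=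
          Real.rpow_le_rpow h6 h5 (by positivity)
      _ = ((n : ℝ) + 1) ^ (1 / 2 : ℝ) := by
          rw [← Real.rpow_natCast, ← Real.rpow_mul (by positivity)]
          congr 1
          field_simp
      _ ≤ (((n : ℝ) / 6) ^ (2 : ℕ)) ^ (1 / 2 : ℝ) := by
          apply Real.rpow_le_rpow (by positivity) _ (by norm_num)
          have h7 : (60 : ℝ) ≤ n := by exact_mod_cast hn60
          nlinarith
      _ = (n : ℝ) / 6 := by
          rw [← Real.rpow_natCast, ← Real.rpow_mul (by positivity)]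
          norm_num

/-- the strings of length less than `n ^ K` are seen -/
theorem orc_pre_of_lt {m N : ℕ} (hN : 2 ^ m ≤ N) (A : Oracle) {y : List Bool}
    (hy : y.length < m) : orc N (pre N A) y = A y := by
  apply orc_pre
  have h2 := idx_lt y
  have h3 : 2 ^ (y.length + 1) ≤ 2 ^ m := Nat.pow_le_pow_right (by norm_num) hy
  omega

end Pool.Agent.TH707.DP
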