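import Pool.Agent.TH707.DP.NullGen
import Pool.Agent.TH707.DP.Event2

/-!
# Pointer chasing is hard for devices with few rounds of questions: the null sets
-/

set_option autoImplicit false

namespace Pool.Agent.TH707.DP

open Pool.Agent.NPC Pool.Agent.H620R2.Gauge Pool.Agent.H622R2.Ckt Finset Filter
open Pool.Agent.TH707.EC
open H568R2

theorem null_hard {l t r : ℕ → ℕ} {k c : ℕ} (Dev : ℕ → Circuit → Prop)
    (hDev : ∀ (n N : ℕ) (C : Circuit), Dev n C → ∃ R : List Bool → Rounds (Fin N) (r n),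
      ∀ u : List Bool, u.length = n → ∀ a a' : Fin N → Bool,
      (∀ p ∈ (R u).Q (t n) a, a' p = a p) → C.eval (orc N a') u = C.eval (orc N a) u)
    (hl : ∀ᶠ n : ℕ in atTop, 1 ≤ l n)
    (hk : ∀ᶠ n : ℕ in atTop, (t n * l n + 1) * (n + l n + n + 1) ≤ n ^ k)
    (hts : ∀ᶠ n : ℕ in atTop, 4 * (t n * r n) ≤ 2 ^ l n) {f : ℕ → ℝ} (hf : CondD f) :
    Null f {A | ∀ᶠ n : ℕ in atTop, ∃ C : Circuit, C.size ≤ n ^ c ∧ Dev n C ∧
      ∀ u : List Bool, u.length = n → C.eval A u = (hard2 n (l n) (t n)).eval A u} := by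
  refine null_gen (bad := fun n => {A : Oracle | ∃ C : Circuit, C.size ≤ n ^ c ∧ Dev n C ∧
      ∀ u : List Bool, u.length = n → C.eval A u = (hard2 n (l n) (t n)).eval A u})
    (K := k + c + 1) (by omega) (s := fun n => n ^ c) ?_ ?_ hf
  · filter_upwards [eventually_ge_atTop 1] with n hn
    exact Nat.pow_le_pow_right hn (by omega)
  · have h1 := poly_le_two_pow_div (Polynomial.X ^ c + Polynomial.X ^ k) (E := 3) (by omega)
    filter_upwards [hl, hk, hts, h1, eventually_ge_atTop 6] with n hl hk hts h1 hn N hN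
    simp only [Polynomial.eval_add, Polynomial.eval_X, Polynomial.eval_pow] at h1
    have hkK : n ^ k ≤ n ^ (k + c + 1) := Nat.pow_le_pow_right (by omega) (by omega)
    have hcK : n ^ c ≤ n ^ (k + c + 1) := Nat.pow_le_pow_right (by omega) (by omega)
    have hle1 : n + l n + n + 1 ≤ (t n * l n + 1) * (n + l n + n + 1) :=
      Nat.le_mul_of_pos_left _ (by omega)
    have hle2 : t n * l n + 1 ≤ (t n * l n + 1) * (n + l n + n + 1) :=
      Nat.le_mul_of_pos_right _ (by omega)
    have hn3 : 2 ^ (n / 3) * 2 ^ (n / 3) * 2 ^ (n / 3) ≤ 2 ^ n := by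
      rw [← pow_add, ← pow_add]
      exact Nat.pow_le_pow_right (by norm_num) (by omega)
    have h4 : 4 ≤ 2 ^ (n / 3) := by
      calc 4 = 2 ^ 2 := by norm_num
        _ ≤ 2 ^ (n / 3) := Nat.pow_le_pow_right (by norm_num) (by omega)
    refine ⟨fun a => ∃ C : Circuit, C.size ≤ n ^ c ∧ Dev n C ∧
      ∀ u : List Bool, u.length = n →
        C.eval (orc N a) u = (hard2 n (l n) (t n)).eval (orc N a) u, ?_, ?_⟩
    · rintro A ⟨C, h2, h3, h5⟩
      refine ⟨C, h2, h3, fun u hu => ?_⟩
      rw [eval_local C (orc N (pre N A)) A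
          (fun y hy => orc_pre_of_lt hN A (lt_of_lt_of_le hy (h2.trans hcK))) u,
        eval_local (hard2 n (l n) (t n)) (orc N (pre N A)) A
          (fun y hy => orc_pre_of_lt hN A (lt_of_lt_of_le hy (by
            rw [hard2_size]
            exact hk.trans hkK))) u]
      exact h5 u hu
    · refine event_bound (r := r n) hl ?_ ?_ (Dev n) _ (fun a h => h) (hDev n N) hts ?_
      · refine le_trans (Nat.pow_le_pow_right (by norm_num) ?_) hN
        exact (hle1.trans hk).trans hkK
      · have h6 : t n * l n + 1 ≤ n ^ k := hle2.trans hk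
        have h7 : 2 ^ (n / 3) ≤ 2 ^ n := Nat.pow_le_pow_right (by norm_num) (by omega)
        omega
      · have h6 : t n * l n + 1 ≤ n ^ k := hle2.trans hk
        calc 3 * 2 ^ (n / 3) * (n ^ c + (t n * l n + 1) + 1)
            ≤ 2 ^ (n / 3) * 2 ^ (n / 3) * 2 ^ (n / 3) := by
              refine Nat.mul_le_mul ?_ (by omega)
              refine Nat.mul_le_mul_right _ (by omega)
          _ ≤ 2 ^ n := hn3

/-- a rounds structure with a larger bound -/
def Rounds.weaken {I : Type} [Fintype I] [DecidableEq I] {s s' : ℕ} (R : Rounds I s)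
    (h : s ≤ s') : Rounds I s' where
  Q := R.Q
  zero := R.zero
  mono := R.mono
  step := R.step
  card := fun j a => (R.card j a).trans h

/-- shallow circuits -/
theorem dev_depth {n N s t : ℕ} {C : Circuit} (hs : C.size ≤ s) (ht : depth C ≤ t) :
    ∃ R : List Bool → Rounds (Fin N) s, ∀ u : List Bool, u.length = n → ∀ a a' : Fin N → Bool,
      (∀ p ∈ (R u).Q t a, a' p = a p) → C.eval (orc N a') u = C.eval (orc N a) u :=
  ⟨fun u => (rnd N C u).weaken hs, fun _ _ _ _ h => eval_of_Q ht h⟩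

end Pool.Agent.TH707.DP
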