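import Mathlib

/-!
# Pointer chasing against few rounds of questions
-/

set_option autoImplicit false

namespace Pool.Agent.TH707.DP

open Finset

variable {I : Type} [Fintype I] [DecidableEq I]

/-- A system of pointers: `pos j v i` is the position of the bit `i` of the pointer which is stored
at the address `v` on the level `j < t`, and `last v` is the position of the final bit at `v`. -/
structure Ptr (I : Type) (n t : ℕ) where
  /-- the positions of the pointers -/
  pos : ℕ → (Fin n → Bool) → Fin n → I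
  /-- the positions of the final bits -/
  last : (Fin n → Bool) → I
  /-- the start -/
  v0 : Fin n → Bool
  inj : ∀ j < t, ∀ j' < t, ∀ v v' i i', pos j v i = pos j' v' i' → j = j' ∧ v = v' ∧ i = i'
  ne : ∀ j < t, ∀ v v' i, pos j v i ≠ last v'
  last_inj : ∀ v v', last v = last v' → v = v'

namespace Ptr

variable {n t : ℕ} (P : Ptr I n t)

/-- the address on the level `j` -/
def v : ℕ → (I → Bool) → (Fin n → Bool)
  | 0, _ => P.v0
  | j + 1, a => fun i => a (P.pos j (v j a) i)

/-- the final bit -/
def fin (a : I → Bool) : Bool := a (P.last (P.v t a))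

theorem v_congr {a a' : I → Bool} (j : ℕ)
    (h : ∀ k < j, ∀ i, a' (P.pos k (P.v k a) i) = a (P.pos k (P.v k a) i)) :
    P.v j a' = P.v j a := by
  induction j with
  | zero => rfl
  | succ j ih =>
    have h1 := ih fun k hk i => h k (by omega) i
    funext i
    show a' (P.pos j (P.v j a') i) = a (P.pos j (P.v j a) i)
    rw [h1]
    exact h j (Nat.lt_succ_self j) i

open Classical in
/-- new contents `z` for the address `w` on the level `k` -/
noncomputable def res (k : ℕ) (w z : Fin n → Bool) (a : I → Bool) : I → Bool := fun p =>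
  if h : ∃ i, p = P.pos k w i then z h.choose else a p

theorem res_pos {k : ℕ} (hk : k < t) (w z : Fin n → Bool) (a : I → Bool) (i : Fin n) :
    P.res k w z a (P.pos k w i) = z i := by
  have h : ∃ i', P.pos k w i = P.pos k w i' := ⟨i, rfl⟩
  unfold res
  rw [dif_pos h]
  have h1 := (P.inj k hk k hk _ _ _ _ h.choose_spec).2.2
  rw [← h1]

theorem res_off {k : ℕ} {w z : Fin n → Bool} {a : I → Bool} {p : I}
    (h : ∀ i, p ≠ P.pos k w i) : P.res k w z a p = a p := by
  unfold res
  rw [dif_neg]
  rintro ⟨i, hi⟩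
  exact h i hi

theorem v_res {k : ℕ} (hk : k < t) (w z : Fin n → Bool) (a : I → Bool) {j : ℕ} (hj : j ≤ k) :
    P.v j (P.res k w z a) = P.v j a := by
  refine P.v_congr j fun k' hk' i => P.res_off fun i' h => ?_
  have := (P.inj k' (by omega) k hk _ _ _ _ h).1
  omega

end Ptr

/-- Rounds of questions: `Q j a` is the set of the positions asked in the first `j` rounds. -/
structure Rounds (I : Type) [DecidableEq I] (s : ℕ) where
  /-- the questions -/
  Q : ℕ → (I → Bool) → Finset I
  zero : ∀ a, Q 0 a = ∅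
  mono : ∀ j a, Q j a ⊆ Q (j + 1) a
  step : ∀ j a a', (∀ p ∈ Q j a, a' p = a p) → Q (j + 1) a' = Q (j + 1) a
  card : ∀ j a, (Q j a).card ≤ s

namespace Rounds

variable {s : ℕ} (R : Rounds I s)

theorem mono' (a : I → Bool) {j k : ℕ} (h : j ≤ k) : R.Q j a ⊆ R.Q k a := by
  induction k, h using Nat.le_induction with
  | base => exact Subset.refl _
  | succ k _ ih => exact ih.trans (R.mono k a)

theorem same {a a' : I → Bool} {j : ℕ} (h : ∀ p ∈ R.Q j a, a' p = a p) {k : ℕ} (hk : k ≤ j + 1) :
    R.Q k a' = R.Q k a := by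
  cases k with
  | zero => rw [R.zero, R.zero]
  | succ k => exact R.step k a a' fun p hp => h p (R.mono' a (by omega) hp)

end Rounds

variable {n t s : ℕ}

/-- the subcube -/
def cube (S : Finset I) (b : I → Bool) : Finset (I → Bool) :=
  univ.filter fun a => ∀ p ∈ S, a p = b p

theorem mem_cube {S : Finset I} {b a : I → Bool} : a ∈ cube S b ↔ ∀ p ∈ S, a p = b p := by
  unfold cube
  rw [mem_filter]
  exact ⟨fun h => h.2, fun h => ⟨mem_univ _, h⟩⟩

/-- the address on the level `k` is touched by the questions of the first `k` rounds -/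
def Touch (P : Ptr I n t) (R : Rounds I s) (k : ℕ) (a : I → Bool) : Prop :=
  (k < t ∧ ∃ i, P.pos k (P.v k a) i ∈ R.Q k a) ∨ (k = t ∧ P.last (P.v k a) ∈ R.Q k a)

theorem touch_zero {P : Ptr I n t} {R : Rounds I s} {a : I → Bool} : ¬ Touch P R 0 a := by
  rintro (⟨-, i, h⟩ | ⟨-, h⟩) <;> · rw [R.zero] at h; exact absurd h (notMem_empty _)

open Classical in
/-- the addresses on the level `k` which are touched by the set `Q` -/
noncomputable def bads (P : Ptr I n t) (k : ℕ) (Q : Finset I) : Finset (Fin n → Bool) :=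
  univ.filter fun y => (k < t ∧ ∃ i, P.pos k y i ∈ Q) ∨ (k = t ∧ P.last y ∈ Q)

theorem card_bads (P : Ptr I n t) (k : ℕ) (Q : Finset I) : (bads P k Q).card ≤ Q.card := by
  classical
  have hex : ∀ y : Fin n → Bool, ∃ p : I, y ∈ bads P k Q → p ∈ Q ∧
      ((k < t ∧ ∃ i, P.pos k y i = p) ∨ (k = t ∧ P.last y = p)) := by
    intro y
    by_cases hy : y ∈ bads P k Q
    · have hy' := hy
      unfold bads at hy'
      rw [mem_filter] at hy'
      rcases hy'.2 with ⟨hk, i, hi⟩ | ⟨hk, hi⟩
      · exact ⟨_, fun _ => ⟨hi, Or.inl ⟨hk, i, rfl⟩⟩⟩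
      · exact ⟨_, fun _ => ⟨hi, Or.inr ⟨hk, rfl⟩⟩⟩
    · exact ⟨P.last y, fun h => absurd h hy⟩
  choose g hg using hex
  refine card_le_card_of_injOn g (fun y hy => (hg y hy).1) ?_
  intro y hy y' hy' h
  rw [mem_coe] at hy hy'
  rcases (hg y hy).2 with ⟨hk, i, hi⟩ | ⟨hk, hi⟩ <;> rcases (hg y' hy').2 with ⟨hk', i', hi'⟩ | ⟨hk', hi'⟩
  · exact (P.inj k hk k hk _ _ _ _ (hi.trans (h.trans hi'.symm))).2.1
  · omega
  · omega
  · exact P.last_inj _ _ (hi.trans (h.trans hi'.symm))

open Classical in
/-- one step of the induction -/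
theorem step_bound (P : Ptr I n t) (R : Rounds I s) {S : Finset I} (b : I → Bool)
    (hS : ∀ k < t, ∀ v i, P.pos k v i ∉ S) {k : ℕ} (hk : k < t) :
    ((cube S b).filter fun a => ¬ Touch P R k a ∧ Touch P R (k + 1) a).card * 2 ^ n ≤
      s * (cube S b).card := by
  set X := (cube S b).filter fun a => ¬ Touch P R k a ∧ Touch P R (k + 1) a with hX
  have h1 : X.card * 2 ^ n = (X ×ˢ (univ : Finset (Fin n → Bool))).card := by
    rw [card_product, card_univ, Fintype.card_fun, Fintype.card_bool, Fintype.card_fin]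
  set Ψ : (I → Bool) × (Fin n → Bool) → (I → Bool) := fun q => P.res k (P.v k q.1) q.2 q.1 with hΨ
  -- facts about the new oracle
  have hv : ∀ a z, P.v k (P.res k (P.v k a) z a) = P.v k a := fun a z =>
    P.v_res hk _ _ _ le_rfl
  have hnt : ∀ a, ¬ Touch P R k a → ∀ z, ∀ p ∈ R.Q k a, P.res k (P.v k a) z a p = a p := by
    intro a ha z p hp
    refine P.res_off fun i hi => ha (Or.inl ⟨hk, i, ?_⟩)
    rw [← hi]
    exact hp
  have hQ : ∀ a, ¬ Touch P R k a → ∀ z,
      R.Q (k + 1) (P.res k (P.v k a) z a) = R.Q (k + 1) a := fun a ha z =>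
    R.step k a _ (hnt a ha z)
  have hv1 : ∀ a z, P.v (k + 1) (P.res k (P.v k a) z a) = z := by
    intro a z
    funext i
    show P.res k (P.v k a) z a (P.pos k (P.v k (P.res k (P.v k a) z a)) i) = z i
    rw [hv, P.res_pos hk]
  have hback : ∀ a z, P.res k (P.v k a) (P.v (k + 1) a) (P.res k (P.v k a) z a) = a := by
    intro a z
    funext p
    by_cases hp : ∃ i, p = P.pos k (P.v k a) i
    · obtain ⟨i, rfl⟩ := hp
      rw [P.res_pos hk]
      rfl
    · push Not at hp
      rw [P.res_off hp, P.res_off hp]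
  rw [h1]
  have hmaps : ∀ q ∈ X ×ˢ (univ : Finset (Fin n → Bool)), Ψ q ∈ cube S b := by
    rintro ⟨a, z⟩ hq
    rw [mem_product, hX, mem_filter] at hq
    rw [mem_cube]
    intro p hp
    have h2 := mem_cube.1 hq.1.1 p hp
    rw [← h2]
    refine P.res_off fun i hi => hS k hk (P.v k a) i ?_
    rw [← hi]
    exact hp
  rw [card_eq_sum_card_fiberwise hmaps]
  refine (sum_le_card_nsmul _ _ s ?_).trans (le_of_eq (by rw [smul_eq_mul, mul_comm]))
  intro a' _
  refine le_trans ?_ ((card_bads P (k + 1) (R.Q (k + 1) a')).trans (R.card _ _))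
  refine card_le_card_of_injOn (fun q => P.v (k + 1) q.1) ?_ ?_
  · rintro ⟨a, z⟩ hq
    rw [mem_coe, mem_filter, mem_product, hX, mem_filter] at hq
    obtain ⟨⟨⟨-, h3, h4⟩, -⟩, h5⟩ := hq
    rw [mem_coe]
    unfold bads
    rw [mem_filter]
    refine ⟨mem_univ _, ?_⟩
    rw [← h5]
    show (k + 1 < t ∧ ∃ i, P.pos (k + 1) (P.v (k + 1) a) i ∈ R.Q (k + 1) (P.res k (P.v k a) z a)) ∨
      (k + 1 = t ∧ P.last (P.v (k + 1) a) ∈ R.Q (k + 1) (P.res k (P.v k a) z a))
    rw [hQ a h3 z]
    exact h4
  · rintro ⟨a, z⟩ hq ⟨a₁, z₁⟩ hq₁ hy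
    rw [mem_coe, mem_filter] at hq hq₁
    have h3 : P.res k (P.v k a) z a = a' := hq.2
    have h4 : P.res k (P.v k a₁) z₁ a₁ = a' := hq₁.2
    have hy' : P.v (k + 1) a = P.v (k + 1) a₁ := hy
    have h5 : P.v k a = P.v k a₁ := by
      rw [← hv a z, ← hv a₁ z₁, h3, h4]
    have h6 : a = a₁ := by
      rw [← hback a z, ← hback a₁ z₁, h3, h4, hy', h5]
    have h7 : z = z₁ := by
      rw [← hv1 a z, ← hv1 a₁ z₁, h3, h4]
    rw [h6, h7]

open Classical in
theorem touch_bound (P : Ptr I n t) (R : Rounds I s) {S : Finset I} (b : I → Bool)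
    (hS : ∀ k < t, ∀ v i, P.pos k v i ∉ S) {k : ℕ} (hk : k ≤ t) :
    ((cube S b).filter fun a => Touch P R k a).card * 2 ^ n ≤ k * s * (cube S b).card := by
  induction k with
  | zero =>
    have : (cube S b).filter (fun a => Touch P R 0 a) = ∅ :=
      filter_eq_empty_iff.2 fun a _ => touch_zero
    rw [this]
    simp
  | succ k ih =>
    have h1 : (cube S b).filter (fun a => Touch P R (k + 1) a) ⊆
        ((cube S b).filter fun a => Touch P R k a) ∪
        ((cube S b).filter fun a => ¬ Touch P R k a ∧ Touch P R (k + 1) a) := by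
      intro a ha
      rw [mem_filter] at ha
      rw [mem_union, mem_filter, mem_filter]
      by_cases h : Touch P R k a
      · exact Or.inl ⟨ha.1, h⟩
      · exact Or.inr ⟨ha.1, h, ha.2⟩
    have h2 := (card_le_card h1).trans (card_union_le _ _)
    have h3 := ih (by omega)
    have h4 := step_bound P R b hS (k := k) (by omega)
    calc ((cube S b).filter fun a => Touch P R (k + 1) a).card * 2 ^ n
        ≤ (((cube S b).filter fun a => Touch P R k a).card +
          ((cube S b).filter fun a => ¬ Touch P R k a ∧ Touch P R (k + 1) a).card) * 2 ^ n :=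
          Nat.mul_le_mul_right _ h2
      _ = ((cube S b).filter fun a => Touch P R k a).card * 2 ^ n +
          ((cube S b).filter fun a => ¬ Touch P R k a ∧ Touch P R (k + 1) a).card * 2 ^ n := by
          rw [add_mul]
      _ ≤ k * s * (cube S b).card + s * (cube S b).card := Nat.add_le_add h3 h4
      _ = (k + 1) * s * (cube S b).card := by ring

open Classical in
/-- An algorithm with `t` rounds of questions does not find the final bit. -/
theorem pointer_bound (P : Ptr I n t) (R : Rounds I s) {S : Finset I} (b : I → Bool)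
    (hS : ∀ k < t, ∀ v i, P.pos k v i ∉ S) (hS' : ∀ v, P.last v ∉ S)
    (out : (I → Bool) → Bool)
    (hout : ∀ a a', (∀ p ∈ R.Q t a, a' p = a p) → out a' = out a) :
    ((cube S b).filter fun a => out a = P.fin a).card * (2 * 2 ^ n) ≤
      (2 ^ n + 2 * (t * s)) * (cube S b).card := by
  set G := (cube S b).filter fun a => ¬ Touch P R t a ∧ out a = P.fin a with hG
  set G' := (cube S b).filter fun a => ¬ Touch P R t a ∧ out a ≠ P.fin a with hG'
  set φ : (I → Bool) → (I → Bool) := fun a => Function.update a (P.last (P.v t a)) (!P.fin a)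
    with hφ
  have hvφ : ∀ a, P.v t (φ a) = P.v t a := by
    intro a
    refine P.v_congr t fun k hk i => ?_
    rw [hφ]
    beta_reduce
    rw [Function.update_of_ne]
    exact P.ne k hk _ _ _
  have hfφ : ∀ a, P.fin (φ a) = !P.fin a := by
    intro a
    show φ a (P.last (P.v t (φ a))) = _
    rw [hvφ, hφ]
    beta_reduce
    rw [Function.update_self]
  have hagree : ∀ a, ¬ Touch P R t a → ∀ p ∈ R.Q t a, φ a p = a p := by
    intro a ha p hp
    rw [hφ]
    beta_reduce
    rw [Function.update_of_ne]
    rintro rfl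
    exact ha (Or.inr ⟨rfl, hp⟩)
  have hGG : G.card ≤ G'.card := by
    refine card_le_card_of_injOn φ ?_ ?_
    · intro a ha
      rw [mem_coe, hG, mem_filter] at ha
      obtain ⟨h1, h2, h3⟩ := ha
      rw [mem_coe, hG', mem_filter]
      refine ⟨?_, ?_, ?_⟩
      · rw [mem_cube] at h1 ⊢
        intro p hp
        rw [← h1 p hp, hφ]
        beta_reduce
        rw [Function.update_of_ne]
        rintro rfl
        exact hS' _ hp
      · rintro (⟨h4, -⟩ | ⟨-, h4⟩)
        · omega
        · apply h2
          refine Or.inr ⟨rfl, ?_⟩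
          rwa [hvφ, R.same (hagree a h2) (Nat.le_succ t)] at h4
      · rw [hout a _ (hagree a h2), hfφ, h3]
        cases P.fin a <;> simp
    · intro a ha a' ha' h
      have h1 : P.v t a = P.v t a' := by rw [← hvφ a, ← hvφ a', h]
      have h2 : P.fin a = P.fin a' := by
        have h3 := congrArg P.fin h
        rw [hfφ, hfφ] at h3
        exact Bool.not_inj h3
      funext p
      by_cases hp : p = P.last (P.v t a)
      · rw [hp]
        have h3 : a (P.last (P.v t a)) = P.fin a := rfl
        have h4 : a' (P.last (P.v t a)) = P.fin a' := by rw [h1]; rfl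
        rw [h3, h4, h2]
      · have h3 := congrFun h p
        rw [hφ] at h3
        beta_reduce at h3
        rwa [Function.update_of_ne hp, Function.update_of_ne (by rw [← h1]; exact hp)] at h3
  have hdisj : Disjoint G G' := by
    rw [disjoint_left]
    intro a h1 h2
    rw [hG, mem_filter] at h1
    rw [hG', mem_filter] at h2
    exact h2.2.2 h1.2.2
  have hsub : G ∪ G' ⊆ cube S b := by
    intro a ha
    rcases mem_union.1 ha with h | h
    · exact (mem_filter.1 h).1
    · exact (mem_filter.1 h).1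
  have h2G : 2 * G.card ≤ (cube S b).card := by
    have h1 := card_le_card hsub
    rw [card_union_of_disjoint hdisj] at h1
    omega
  have hcov : (cube S b).filter (fun a => out a = P.fin a) ⊆
      G ∪ (cube S b).filter (fun a => Touch P R t a) := by
    intro a ha
    rw [mem_filter] at ha
    rw [mem_union, hG, mem_filter, mem_filter]
    by_cases h : Touch P R t a
    · exact Or.inr ⟨ha.1, h⟩
    · exact Or.inl ⟨ha.1, h, ha.2⟩
  have h1 := (card_le_card hcov).trans (card_union_le _ _)
  have h2 := touch_bound P R b hS (k := t) le_rfl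
  calc ((cube S b).filter fun a => out a = P.fin a).card * (2 * 2 ^ n)
      ≤ (G.card + ((cube S b).filter (fun a => Touch P R t a)).card) * (2 * 2 ^ n) :=
        Nat.mul_le_mul_right _ h1
    _ = 2 * G.card * 2 ^ n + 2 * (((cube S b).filter (fun a => Touch P R t a)).card * 2 ^ n) := by
        ring
    _ ≤ (cube S b).card * 2 ^ n + 2 * (t * s * (cube S b).card) :=
        Nat.add_le_add (Nat.mul_le_mul_right _ h2G) (Nat.mul_le_mul_left _ h2)
    _ = (2 ^ n + 2 * (t * s)) * (cube S b).card := by ring

end Pool.Agent.TH707.DP
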